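import Pool.Agent.Lib.MP_4a593f_gt.Bound

/-!
The lower bound for the curvature term on 3-forms.
-/

namespace Pool.HopfSix

open Finset

set_option linter.unusedSimpArgs false

theorem norm_normal {χ : Fin 6 → Fin 6 → Fin 6 → ℝ} {c s x0 x1 x2 x3 : ℝ}
    (h : IsNormal χ c s x0 x1 x2 x3) :
    ∑ i, ∑ j, ∑ k, χ i j k ^ 2 = 6 * (x0 ^ 2 + x1 ^ 2 + x2 ^ 2 + x3 ^ 2) := by
  have hχ := h.form
  have s12 : ∀ i j k : Fin 6, j < i → χ i j k = - χ j i k := fun i j k _ => hχ.skew12 j i k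
  have s23 : ∀ i j k : Fin 6, k < j → χ i j k = - χ i k j := fun i j k _ => hχ.skew23 i k j
  have z12 := hχ.zero12
  have z23 := hχ.zero23
  have e : ∑ i, ∑ j, ∑ k, χ i j k ^ 2
      = (c ^ 2 + s ^ 2) * (6 * (x0 ^ 2 + x1 ^ 2 + x2 ^ 2 + x3 ^ 2)) := by
    simp (decide := true) only [Fin.sum_univ_six, Fin.isValue, Fin.reduceLT,
      s12, s23, z12, z23,
      h.h012, h.h345, h.h045, h.h123, h.h135, h.h024, h.h234, h.h015, h.z013, h.z014, h.z023,
      h.z025, h.z034, h.z035, h.z124, h.z125, h.z134, h.z145, h.z235, h.z245]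
    ring
  rw [e, h.unit, one_mul]

theorem K_orth {R : Fin 6 → Fin 6 → Fin 6 → Fin 6 → ℝ} {Δ : ℝ} (h : OrthLE R Δ)
    {a b c d : Fin 6} (hab : a ≠ b) (hac : a ≠ c) (had : a ≠ d) (hbc : b ≠ c)
    (hbd : b ≠ d) (hcd : c ≠ d) : K R a b + K R c d ≤ 2 * Δ := by
  have := h ![bas a, bas b, bas c, bas d] (by
    intro i j
    fin_cases i <;> fin_cases j <;>
      simp [dot_bas, hab, hac, had, hbc, hbd, hcd, hab.symm, hac.symm, had.symm, hbc.symm,
        hbd.symm, hcd.symm])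
  simp only [Matrix.cons_val] at this
  simpa [ev4_bas, K] using this

theorem mul_min_bound {P E U : ℝ} (h0 : 0 ≤ P) (h1 : P ≤ 2 * E) : 2 * E * min U 0 ≤ P * U := by
  rcases le_total U 0 with h | h
  · rw [min_eq_left h]; nlinarith
  · rw [min_eq_right h]; nlinarith [mul_nonneg h0 h]

theorem min_cases3 {U V : ℝ} (h : 0 ≤ U + V) :
    0 ≤ min U 0 + min V 0 ∨ U ≤ min U 0 + min V 0 ∨ V ≤ min U 0 + min V 0 := by
  rcases le_total U 0 with hU | hU <;> rcases le_total V 0 with hV | hV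
  · left; rw [min_eq_left hU, min_eq_left hV]; exact h
  · right; left; rw [min_eq_left hU, min_eq_right hV]; simp
  · right; right; rw [min_eq_right hU, min_eq_left hV]; simp
  · left; rw [min_eq_right hU, min_eq_right hV]; simp

theorem coupling_term {x y r B : ℝ} (h : |r| ≤ B) :
    -(4 * (|x| * |y|) * B) ≤ 4 * (x * y) * r ∧ -(4 * (|x| * |y|) * B) ≤ - (4 * (x * y) * r) := by
  have h1 : |4 * (x * y) * r| ≤ 4 * (|x| * |y|) * B := by
    rw [abs_mul, abs_mul, abs_mul, abs_of_pos (by norm_num : (0 : ℝ) < 4)]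
    exact mul_le_mul_of_nonneg_left h (by positivity)
  rw [abs_le] at h1
  constructor <;> linarith [h1.1, h1.2]

theorem qform_bound {R : Fin 6 → Fin 6 → Fin 6 → Fin 6 → ℝ} (hR : IsCurvature R) {δ Δ : ℝ}
    (hδ : SecGE R δ) (hΔ : OrthLE R Δ) (x0 x1 x2 x3 : ℝ) :
    (9 * δ - 4 / 3 * (Δ - δ)) * (x0 ^ 2 + x1 ^ 2 + x2 ^ 2 + x3 ^ 2) ≤ qform R x0 x1 x2 x3 := by
  have k01 := sub_nonneg.mpr (K_ge hδ (a := 0) (b := 1) (by decide))
  have k02 := sub_nonneg.mpr (K_ge hδ (a := 0) (b := 2) (by decide))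
  have k03 := sub_nonneg.mpr (K_ge hδ (a := 0) (b := 3) (by decide))
  have k04 := sub_nonneg.mpr (K_ge hδ (a := 0) (b := 4) (by decide))
  have k05 := sub_nonneg.mpr (K_ge hδ (a := 0) (b := 5) (by decide))
  have k12 := sub_nonneg.mpr (K_ge hδ (a := 1) (b := 2) (by decide))
  have k13 := sub_nonneg.mpr (K_ge hδ (a := 1) (b := 3) (by decide))
  have k14 := sub_nonneg.mpr (K_ge hδ (a := 1) (b := 4) (by decide))
  have k15 := sub_nonneg.mpr (K_ge hδ (a := 1) (b := 5) (by decide))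
  have k23 := sub_nonneg.mpr (K_ge hδ (a := 2) (b := 3) (by decide))
  have k24 := sub_nonneg.mpr (K_ge hδ (a := 2) (b := 4) (by decide))
  have k25 := sub_nonneg.mpr (K_ge hδ (a := 2) (b := 5) (by decide))
  have k34 := sub_nonneg.mpr (K_ge hδ (a := 3) (b := 4) (by decide))
  have k35 := sub_nonneg.mpr (K_ge hδ (a := 3) (b := 5) (by decide))
  have k45 := sub_nonneg.mpr (K_ge hδ (a := 4) (b := 5) (by decide))
  have o1 := K_orth hΔ (a := 1) (b := 2) (c := 4) (d := 5) (by decide) (by decide) (by decide)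
    (by decide) (by decide) (by decide)
  have o2 := K_orth hΔ (a := 0) (b := 2) (c := 3) (d := 5) (by decide) (by decide) (by decide)
    (by decide) (by decide) (by decide)
  have o3 := K_orth hΔ (a := 0) (b := 1) (c := 3) (d := 4) (by decide) (by decide) (by decide)
    (by decide) (by decide) (by decide)
  have o4 := K_orth hΔ (a := 0) (b := 4) (c := 1) (d := 3) (by decide) (by decide) (by decide)
    (by decide) (by decide) (by decide)
  have o5 := K_orth hΔ (a := 0) (b := 5) (c := 2) (d := 3) (by decide) (by decide) (by decide)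
    (by decide) (by decide) (by decide)
  have o6 := K_orth hΔ (a := 1) (b := 5) (c := 2) (d := 4) (by decide) (by decide) (by decide)
    (by decide) (by decide) (by decide)
  have c1 := coupling hR hδ (a := 1) (b := 2) (c := 4) (d := 5) (by decide) (by decide)
    (by decide) (by decide) (by decide) (by decide)
  have c2 := coupling hR hδ (a := 0) (b := 2) (c := 3) (d := 5) (by decide) (by decide)
    (by decide) (by decide) (by decide) (by decide)
  have c3 := coupling hR hδ (a := 0) (b := 1) (c := 3) (d := 4) (by decide) (by decide)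
    (by decide) (by decide) (by decide) (by decide)
  have c4 := coupling hR hδ (a := 0) (b := 4) (c := 1) (d := 3) (by decide) (by decide)
    (by decide) (by decide) (by decide) (by decide)
  have c5 := coupling hR hδ (a := 0) (b := 5) (c := 2) (d := 3) (by decide) (by decide)
    (by decide) (by decide) (by decide) (by decide)
  have c6 := coupling hR hδ (a := 1) (b := 5) (c := 2) (d := 4) (by decide) (by decide)
    (by decide) (by decide) (by decide) (by decide)
  have hsymm : ∀ x y : Fin 6, K R x y = K R y x := by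
    intro x y
    unfold K
    rw [hR.skew12 x y y x, hR.skew34 x y x y]
    ring
  rw [hsymm 4 1, hsymm 4 3] at c4
  rw [hsymm 5 2, hsymm 5 3] at c5
  rw [hsymm 5 2, hsymm 5 4] at c6
  have d1 := (coupling_term (x := x0) (y := x1) c1).2
  have d2 := (coupling_term (x := x0) (y := x2) c2).1
  have d3 := (coupling_term (x := x0) (y := x3) c3).2
  have d4 := (coupling_term (x := x1) (y := x2) c4).2
  have d5 := (coupling_term (x := x1) (y := x3) c5).1
  have d6 := (coupling_term (x := x2) (y := x3) c6).2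
  have a0 := sq_abs x0
  have a1 := sq_abs x1
  have a2 := sq_abs x2
  have a3 := sq_abs x3
  have y0n := abs_nonneg x0
  have y1n := abs_nonneg x1
  have y2n := abs_nonneg x2
  have y3n := abs_nonneg x3
  rw [← a0, ← a1, ← a2, ← a3]
  unfold qform
  rw [← a0, ← a1, ← a2, ← a3]
  generalize |x0| = y0 at *
  generalize |x1| = y1 at *
  generalize |x2| = y2 at *
  generalize |x3| = y3 at *
  set U1 := y2 ^ 2 + y3 ^ 2 - 4 / 3 * (y0 * y1) - 2 / 3 * (y2 * y3) with hU1
  set V1 := y0 ^ 2 + y1 ^ 2 - 4 / 3 * (y2 * y3) - 2 / 3 * (y0 * y1) with hV1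
  set U2 := y1 ^ 2 + y3 ^ 2 - 4 / 3 * (y0 * y2) - 2 / 3 * (y1 * y3) with hU2
  set V2 := y0 ^ 2 + y2 ^ 2 - 4 / 3 * (y1 * y3) - 2 / 3 * (y0 * y2) with hV2
  set U3 := y1 ^ 2 + y2 ^ 2 - 4 / 3 * (y0 * y3) - 2 / 3 * (y1 * y2) with hU3
  set V3 := y0 ^ 2 + y3 ^ 2 - 4 / 3 * (y1 * y2) - 2 / 3 * (y0 * y3) with hV3
  have hs := scalar_ineq
    (min_cases3 (U := U1) (V := V1) (by linarith [sq_nonneg (y0 - y1), sq_nonneg (y2 - y3)]))
    (min_cases3 (U := U2) (V := V2) (by linarith [sq_nonneg (y0 - y2), sq_nonneg (y1 - y3)]))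
    (min_cases3 (U := U3) (V := V3) (by linarith [sq_nonneg (y0 - y3), sq_nonneg (y1 - y2)]))
  have E0 : 0 ≤ Δ - δ := by linarith
  have b1 := mul_min_bound (P := (K R 1 2 - δ) + (K R 4 5 - δ)) (E := Δ - δ) (U := U1)
    (by linarith) (by linarith)
  have b2 := mul_min_bound (P := (K R 1 5 - δ) + (K R 2 4 - δ)) (E := Δ - δ) (U := V1)
    (by linarith) (by linarith)
  have b3 := mul_min_bound (P := (K R 0 2 - δ) + (K R 3 5 - δ)) (E := Δ - δ) (U := U2)
    (by linarith) (by linarith)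
  have b4 := mul_min_bound (P := (K R 0 5 - δ) + (K R 2 3 - δ)) (E := Δ - δ) (U := V2)
    (by linarith) (by linarith)
  have b5 := mul_min_bound (P := (K R 0 1 - δ) + (K R 3 4 - δ)) (E := Δ - δ) (U := U3)
    (by linarith) (by linarith)
  have b6 := mul_min_bound (P := (K R 0 4 - δ) + (K R 1 3 - δ)) (E := Δ - δ) (U := V3)
    (by linarith) (by linarith)
  have g0 : 0 ≤ (K R 0 3 - δ) * (y0 ^ 2 + y1 ^ 2 + y2 ^ 2 + y3 ^ 2
      - 2 / 3 * (y0 * y2 + y0 * y3 + y1 * y2 + y1 * y3)) :=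
    mul_nonneg k03 (by
      linarith [sq_nonneg (y0 - y2), sq_nonneg (y0 - y3),
        sq_nonneg (y1 - y2), sq_nonneg (y1 - y3),
        sq_nonneg y0, sq_nonneg y1, sq_nonneg y2, sq_nonneg y3])
  have g1 : 0 ≤ (K R 1 4 - δ) * (y0 ^ 2 + y1 ^ 2 + y2 ^ 2 + y3 ^ 2
      - 2 / 3 * (y0 * y1 + y0 * y3 + y1 * y2 + y2 * y3)) :=
    mul_nonneg k14 (by
      linarith [sq_nonneg (y0 - y1), sq_nonneg (y0 - y3),
        sq_nonneg (y1 - y2), sq_nonneg (y2 - y3),
        sq_nonneg y0, sq_nonneg y1, sq_nonneg y2, sq_nonneg y3])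
  have g2 : 0 ≤ (K R 2 5 - δ) * (y0 ^ 2 + y1 ^ 2 + y2 ^ 2 + y3 ^ 2
      - 2 / 3 * (y0 * y1 + y0 * y2 + y1 * y3 + y2 * y3)) :=
    mul_nonneg k25 (by
      linarith [sq_nonneg (y0 - y1), sq_nonneg (y0 - y2),
        sq_nonneg (y1 - y3), sq_nonneg (y2 - y3),
        sq_nonneg y0, sq_nonneg y1, sq_nonneg y2, sq_nonneg y3])
  have hs2 := mul_nonneg (mul_nonneg (by norm_num : (0:ℝ) ≤ 2) E0) hs
  generalize min U1 0 = m1 at *
  generalize min U2 0 = m2 at *
  generalize min U3 0 = m3 at *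
  generalize min V1 0 = n1 at *
  generalize min V2 0 = n2 at *
  generalize min V3 0 = n3 at *
  rw [hU1] at b1
  rw [hV1] at b2
  rw [hU2] at b3
  rw [hV2] at b4
  rw [hU3] at b5
  rw [hV3] at b6
  linarith

/-- **Lower bound for the Bochner curvature term on 3-forms in dimension six.** -/
theorem bochner_bound {R : Fin 6 → Fin 6 → Fin 6 → Fin 6 → ℝ} (hR : IsCurvature R) {δ Δ : ℝ}
    (hδ : SecGE R δ) (hΔ : OrthLE R Δ) {φ : Fin 6 → Fin 6 → Fin 6 → ℝ} (hφ : IsThreeForm φ) :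
    (3 * δ - 4 / 9 * (Δ - δ)) * ∑ i, ∑ j, ∑ k, φ i j k ^ 2 ≤ bochner R φ := by
  obtain ⟨O, c, s, x0, x1, x2, x3, hO, hN⟩ := exists_normal hφ
  rw [← bochner_frame R φ hO, ← norm_frame φ hO, bochner_normal (hR.frame O) hN,
    norm_normal hN]
  have := qform_bound (hR.frame O) (hδ.frame hO) (hΔ.frame hO) x0 x1 x2 x3
  linarith

end Pool.HopfSix
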