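import Pool.Agent.Lib.MP_4a593f_gt.Value

/-!
Curvature bounds, their behaviour under change of frame, and the final estimate.
-/

namespace Pool.HopfSix

open Finset

set_option linter.unusedSimpArgs false

/-- the vector with coordinates `α` in the frame `O` -/
def comb (O : Fin 6 → Vec) (α : Vec) : Vec := ∑ a, α a • O a

theorem dot_comb {O : Fin 6 → Vec} (h : IsFrame O) (α β : Vec) :
    dot (comb O α) (comb O β) = dot α β := by
  have h1 : Lin (fun x => dot x (comb O β)) :=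
    ⟨fun x y => dot_add_left x y _, fun c x => dot_smul_left c x _⟩
  have e1 := h1.map_sum Finset.univ α O
  have e2 : ∀ a, dot (O a) (comb O β) = β a := by
    intro a
    have h2 : Lin (fun x => dot (O a) x) :=
      ⟨fun x y => dot_add_right x y _, fun c x => dot_smul_right c x _⟩
    have e3 := h2.map_sum Finset.univ β O
    have e4 : dot (O a) (comb O β) = ∑ b, β b * dot (O a) (O b) := e3
    rw [e4]
    have : ∀ b, β b * dot (O a) (O b) = if a = b then β b else 0 := by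
      intro b; rw [h a b]; split_ifs <;> simp
    simp [this]
  have e5 : dot (comb O α) (comb O β) = ∑ a, α a * dot (O a) (comb O β) := e1
  rw [e5]
  simp only [e2]
  rfl

theorem ev4_comb (R : Fin 6 → Fin 6 → Fin 6 → Fin 6 → ℝ) (O : Fin 6 → Vec) (α β γ ε : Vec) :
    ev4 (pull4 R O) α β γ ε = ev4 R (comb O α) (comb O β) (comb O γ) (comb O ε) := by
  have e1 : ev4 R (comb O α) (comb O β) (comb O γ) (comb O ε)
      = ∑ a, α a * ∑ b, β b * ∑ c, γ c * ∑ d, ε d * ev4 R (O a) (O b) (O c) (O d) := by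
    have f1 := (ev4_lin1 R (comb O β) (comb O γ) (comb O ε)).map_sum Finset.univ α O
    have f1' : ev4 R (comb O α) (comb O β) (comb O γ) (comb O ε)
      = ∑ a, α a * ev4 R (O a) (comb O β) (comb O γ) (comb O ε) := f1
    rw [f1']
    refine Finset.sum_congr rfl fun a _ => ?_
    have f2 := (ev4_lin2 R (O a) (comb O γ) (comb O ε)).map_sum Finset.univ β O
    have f2' : ev4 R (O a) (comb O β) (comb O γ) (comb O ε)
      = ∑ b, β b * ev4 R (O a) (O b) (comb O γ) (comb O ε) := f2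
    rw [f2']
    congr 1
    refine Finset.sum_congr rfl fun b _ => ?_
    have f3 := (ev4_lin3 R (O a) (O b) (comb O ε)).map_sum Finset.univ γ O
    have f3' : ev4 R (O a) (O b) (comb O γ) (comb O ε)
      = ∑ c, γ c * ev4 R (O a) (O b) (O c) (comb O ε) := f3
    rw [f3']
    congr 1
    refine Finset.sum_congr rfl fun c _ => ?_
    have f4 := (ev4_lin4 R (O a) (O b) (O c)).map_sum Finset.univ ε O
    have f4' : ev4 R (O a) (O b) (O c) (comb O ε)
      = ∑ d, ε d * ev4 R (O a) (O b) (O c) (O d) := f4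
    rw [f4']
  rw [e1]
  unfold ev4 pull4
  refine Finset.sum_congr rfl fun a _ => ?_
  rw [Finset.mul_sum]
  refine Finset.sum_congr rfl fun b _ => ?_
  rw [Finset.mul_sum, Finset.mul_sum]
  refine Finset.sum_congr rfl fun c _ => ?_
  rw [Finset.mul_sum, Finset.mul_sum, Finset.mul_sum]
  refine Finset.sum_congr rfl fun d _ => ?_
  unfold ev4
  ring

theorem SecGE.frame {R : Fin 6 → Fin 6 → Fin 6 → Fin 6 → ℝ} {δ : ℝ} (h : SecGE R δ)
    {O : Fin 6 → Vec} (hO : IsFrame O) : SecGE (pull4 R O) δ := by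
  intro u v
  rw [ev4_comb, ← dot_comb hO u u, ← dot_comb hO v v, ← dot_comb hO u v]
  exact h _ _

theorem OrthLE.frame {R : Fin 6 → Fin 6 → Fin 6 → Fin 6 → ℝ} {Δ : ℝ} (h : OrthLE R Δ)
    {O : Fin 6 → Vec} (hO : IsFrame O) : OrthLE (pull4 R O) Δ := by
  intro p hp
  rw [ev4_comb, ev4_comb]
  refine h (fun i => comb O (p i)) fun i j => ?_
  rw [dot_comb hO]; exact hp i j

theorem IsCurvature.frame {R : Fin 6 → Fin 6 → Fin 6 → Fin 6 → ℝ} (h : IsCurvature R)
    (O : Fin 6 → Vec) : IsCurvature (pull4 R O) := by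
  constructor
  · intro i j k l
    show ev4 R (O j) (O i) (O k) (O l) = - ev4 R (O i) (O j) (O k) (O l)
    unfold ev4
    rw [Finset.sum_comm, ← Finset.sum_neg_distrib]
    refine Finset.sum_congr rfl fun a _ => ?_
    rw [← Finset.sum_neg_distrib]
    refine Finset.sum_congr rfl fun b _ => ?_
    rw [← Finset.sum_neg_distrib]
    refine Finset.sum_congr rfl fun c _ => ?_
    rw [← Finset.sum_neg_distrib]
    refine Finset.sum_congr rfl fun d _ => ?_
    rw [h.skew12 a b c d]; ring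
  · intro i j k l
    show ev4 R (O i) (O j) (O l) (O k) = - ev4 R (O i) (O j) (O k) (O l)
    unfold ev4
    rw [← Finset.sum_neg_distrib]
    refine Finset.sum_congr rfl fun a _ => ?_
    rw [← Finset.sum_neg_distrib]
    refine Finset.sum_congr rfl fun b _ => ?_
    rw [Finset.sum_comm, ← Finset.sum_neg_distrib]
    refine Finset.sum_congr rfl fun c _ => ?_
    rw [← Finset.sum_neg_distrib]
    refine Finset.sum_congr rfl fun d _ => ?_
    rw [h.skew34 a b c d]; ring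
  · intro i j k l
    show ev4 R (O i) (O j) (O k) (O l) + ev4 R (O j) (O k) (O i) (O l)
      + ev4 R (O k) (O i) (O j) (O l) = 0
    have e2 : ev4 R (O j) (O k) (O i) (O l)
        = ∑ a, ∑ b, ∑ c, ∑ d, R b c a d * O i a * O j b * O k c * O l d := by
      unfold ev4
      rw [Finset.sum_congr rfl fun b _ => Finset.sum_comm]
      rw [Finset.sum_comm]
      refine Finset.sum_congr rfl fun a _ => Finset.sum_congr rfl fun b _ =>
        Finset.sum_congr rfl fun c _ => Finset.sum_congr rfl fun d _ => by ring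
    have e3 : ev4 R (O k) (O i) (O j) (O l)
        = ∑ a, ∑ b, ∑ c, ∑ d, R c a b d * O i a * O j b * O k c * O l d := by
      unfold ev4
      rw [Finset.sum_comm]
      refine Finset.sum_congr rfl fun a _ => ?_
      rw [Finset.sum_comm]
      refine Finset.sum_congr rfl fun b _ =>
        Finset.sum_congr rfl fun c _ => Finset.sum_congr rfl fun d _ => by ring
    rw [e2, e3]
    unfold ev4
    rw [← Finset.sum_add_distrib, ← Finset.sum_add_distrib]
    refine Finset.sum_eq_zero fun a _ => ?_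
    rw [← Finset.sum_add_distrib, ← Finset.sum_add_distrib]
    refine Finset.sum_eq_zero fun b _ => ?_
    rw [← Finset.sum_add_distrib, ← Finset.sum_add_distrib]
    refine Finset.sum_eq_zero fun c _ => ?_
    rw [← Finset.sum_add_distrib, ← Finset.sum_add_distrib]
    refine Finset.sum_eq_zero fun d _ => ?_
    have := h.bianchi a b c d
    linear_combination (O i a * O j b * O k c * O l d) * this

theorem dot_bas (a b : Fin 6) : dot (bas a) (bas b) = if a = b then 1 else 0 := by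
  simp [dot, bas, Pi.single_apply, eq_comm]

theorem K_ge {R : Fin 6 → Fin 6 → Fin 6 → Fin 6 → ℝ} {δ : ℝ} (h : SecGE R δ) {a b : Fin 6}
    (hab : a ≠ b) : δ ≤ K R a b := by
  have := h (bas a) (bas b)
  rw [dot_bas, dot_bas, dot_bas, ev4_bas] at this
  simp only [if_true, if_neg hab] at this
  unfold K
  linarith

/-- the four-plane inequality -/
theorem four {R : Fin 6 → Fin 6 → Fin 6 → Fin 6 → ℝ} (hR : IsCurvature R) {δ : ℝ}
    (h : SecGE R δ) {a b c d : Fin 6} (hab : a ≠ b) (hac : a ≠ c) (had : a ≠ d) (hbc : b ≠ c)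
    (hbd : b ≠ d) (hcd : c ≠ d) (τ : ℝ) (hτ : τ ^ 2 = 1) :
    4 * δ ≤ K R a b + K R c b + K R a d + K R c d + 2 * τ * (R a b c d + R a d c b) := by
  have l1 : ∀ x y v w z, ev4 R (x + y) v w z = ev4 R x v w z + ev4 R y v w z :=
    fun x y v w z => (ev4_lin1 R v w z).1 x y
  have l2 : ∀ x y v w z, ev4 R v (x + y) w z = ev4 R v x w z + ev4 R v y w z :=
    fun x y v w z => (ev4_lin2 R v w z).1 x y
  have l3 : ∀ x y v w z, ev4 R v w (x + y) z = ev4 R v w x z + ev4 R v w y z :=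
    fun x y v w z => (ev4_lin3 R v w z).1 x y
  have l4 : ∀ x y v w z, ev4 R v w z (x + y) = ev4 R v w z x + ev4 R v w z y :=
    fun x y v w z => (ev4_lin4 R v w z).1 x y
  have m1 : ∀ (t : ℝ) x v w z, ev4 R (t • x) v w z = t * ev4 R x v w z :=
    fun t x v w z => (ev4_lin1 R v w z).2 t x
  have m2 : ∀ (t : ℝ) x v w z, ev4 R v (t • x) w z = t * ev4 R v x w z :=
    fun t x v w z => (ev4_lin2 R v w z).2 t x
  have m3 : ∀ (t : ℝ) x v w z, ev4 R v w (t • x) z = t * ev4 R v w x z :=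
    fun t x v w z => (ev4_lin3 R v w z).2 t x
  have m4 : ∀ (t : ℝ) x v w z, ev4 R v w z (t • x) = t * ev4 R v w z x :=
    fun t x v w z => (ev4_lin4 R v w z).2 t x
  have h1 := h (bas a + (1 : ℝ) • bas c) (bas b + τ • bas d)
  have h2 := h (bas a + (-1 : ℝ) • bas c) (bas b + (-τ) • bas d)
  simp only [l1, l2, l3, l4, m1, m2, m3, m4, ev4_bas, dot_add_left, dot_add_right, dot_smul_left,
    dot_smul_right, dot_bas, if_true, if_neg hab, if_neg hac, if_neg had, if_neg hbc, if_neg hbd,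
    if_neg hcd, if_neg hab.symm, if_neg hac.symm, if_neg had.symm, if_neg hbc.symm,
    if_neg hbd.symm, if_neg hcd.symm] at h1 h2
  have p1 := hR.pair a b c d
  have p2 := hR.pair a d c b
  unfold K
  have hτ' : (τ - 1) * (τ + 1) = 0 := by linear_combination hτ
  rcases mul_eq_zero.mp hτ' with ht | ht
  · obtain rfl : τ = 1 := by linarith
    linarith
  · obtain rfl : τ = -1 := by linarith
    linarith

/-- Berger's estimate for the components with four distinct indices -/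
theorem coupling {R : Fin 6 → Fin 6 → Fin 6 → Fin 6 → ℝ} (hR : IsCurvature R) {δ : ℝ}
    (h : SecGE R δ) {a b c d : Fin 6} (hab : a ≠ b) (hac : a ≠ c) (had : a ≠ d) (hbc : b ≠ c)
    (hbd : b ≠ d) (hcd : c ≠ d) :
    |R a b c d| ≤ (2 * ((K R a b - δ) + (K R c d - δ)) + (K R a c - δ) + (K R a d - δ)
      + (K R b c - δ) + (K R b d - δ)) / 6 := by
  have hsymm : ∀ x y : Fin 6, K R x y = K R y x := by
    intro x y
    unfold K
    rw [hR.skew12 x y y x, hR.skew34 x y x y]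
    ring
  have f1 := four hR h hab hac had hbc hbd hcd 1 (by norm_num)
  have f2 := four hR h hab hac had hbc hbd hcd (-1) (by norm_num)
  have g1 := four hR h hab had hac hbd hbc hcd.symm 1 (by norm_num)
  have g2 := four hR h hab had hac hbd hbc hcd.symm (-1) (by norm_num)
  have b1 := hR.bianchi a b c d
  have s1 := hR.skew34 a b c d
  have s2 := hR.skew34 a d b c
  have s3 := hR.skew34 a c b d
  have s4 := hR.skew12 a c b d
  have s5 := hR.pair a d b c
  rw [hsymm c b, hsymm d c] at *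
  rw [hsymm d b] at *
  rw [abs_le]
  constructor <;> linarith

/-- the elementary inequality behind the constant `4/3` -/
theorem scalar_ineq {y0 y1 y2 y3 m1 m2 m3 : ℝ} 
    (c1 : 0 ≤ m1 ∨ y2 ^ 2 + y3 ^ 2 - 4 / 3 * (y0 * y1) - 2 / 3 * (y2 * y3) ≤ m1
      ∨ y0 ^ 2 + y1 ^ 2 - 4 / 3 * (y2 * y3) - 2 / 3 * (y0 * y1) ≤ m1)
    (c2 : 0 ≤ m2 ∨ y1 ^ 2 + y3 ^ 2 - 4 / 3 * (y0 * y2) - 2 / 3 * (y1 * y3) ≤ m2
      ∨ y0 ^ 2 + y2 ^ 2 - 4 / 3 * (y1 * y3) - 2 / 3 * (y0 * y2) ≤ m2)
    (c3 : 0 ≤ m3 ∨ y1 ^ 2 + y2 ^ 2 - 4 / 3 * (y0 * y3) - 2 / 3 * (y1 * y2) ≤ m3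
      ∨ y0 ^ 2 + y3 ^ 2 - 4 / 3 * (y1 * y2) - 2 / 3 * (y0 * y3) ≤ m3) :
    0 ≤ 2 / 3 * (y0 ^ 2 + y1 ^ 2 + y2 ^ 2 + y3 ^ 2) + m1 + m2 + m3 := by
  rcases c1 with c1 | c1 | c1
  · rcases c2 with c2 | c2 | c2
    · rcases c3 with c3 | c3 | c3
      · linarith [sq_nonneg y0, sq_nonneg y1, sq_nonneg y2, sq_nonneg y3]
      · linarith [sq_nonneg (y0 - y3), sq_nonneg (y1 - y2), sq_nonneg y1, sq_nonneg y2]
      · linarith [sq_nonneg (y1 - y2), sq_nonneg (y0 - y3), sq_nonneg y0, sq_nonneg y3]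
    · rcases c3 with c3 | c3 | c3
      · linarith [sq_nonneg (y0 - y2), sq_nonneg (y1 - y3), sq_nonneg y1, sq_nonneg y3]
      · linarith [sq_nonneg (y0 - y2 - y3), sq_nonneg (y2 - y3), sq_nonneg (y2 + y3 - 2 * y1), sq_nonneg y1]
      · linarith [sq_nonneg (y2 - y0 - y1), sq_nonneg (y0 - y1), sq_nonneg (y0 + y1 - 2 * y3), sq_nonneg y3]
    · rcases c3 with c3 | c3 | c3
      · linarith [sq_nonneg (y1 - y3), sq_nonneg (y0 - y2), sq_nonneg y0, sq_nonneg y2]
      · linarith [sq_nonneg (y3 - y1 - y0), sq_nonneg (y1 - y0), sq_nonneg (y1 + y0 - 2 * y2), sq_nonneg y2]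
      · linarith [sq_nonneg (y1 - y3 - y2), sq_nonneg (y3 - y2), sq_nonneg (y3 + y2 - 2 * y0), sq_nonneg y0]
  · rcases c2 with c2 | c2 | c2
    · rcases c3 with c3 | c3 | c3
      · linarith [sq_nonneg (y0 - y1), sq_nonneg (y2 - y3), sq_nonneg y2, sq_nonneg y3]
      · linarith [sq_nonneg (y0 - y1 - y3), sq_nonneg (y1 - y3), sq_nonneg (y1 + y3 - 2 * y2), sq_nonneg y2]
      · linarith [sq_nonneg (y1 - y0 - y2), sq_nonneg (y0 - y2), sq_nonneg (y0 + y2 - 2 * y3), sq_nonneg y3]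
    · rcases c3 with c3 | c3 | c3
      · linarith [sq_nonneg (y0 - y1 - y2), sq_nonneg (y1 - y2), sq_nonneg (y1 + y2 - 2 * y3), sq_nonneg y3]
      · linarith [sq_nonneg (y0 - y1 - y2 - y3), sq_nonneg (y1 - y2), sq_nonneg (y1 - y3), sq_nonneg (y2 - y3)]
      · linarith [sq_nonneg (y0 + y1 + y2 - 3 * y3), sq_nonneg y3, sq_nonneg (y0 - y1), sq_nonneg (y0 - y2), sq_nonneg (y1 - y2)]
    · rcases c3 with c3 | c3 | c3
      · linarith [sq_nonneg (y1 - y0 - y3), sq_nonneg (y0 - y3), sq_nonneg (y0 + y3 - 2 * y2), sq_nonneg y2]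
      · linarith [sq_nonneg (y0 + y1 + y3 - 3 * y2), sq_nonneg y2, sq_nonneg (y0 - y1), sq_nonneg (y0 - y3), sq_nonneg (y1 - y3)]
      · linarith [sq_nonneg (y1 - y0 - y2 - y3), sq_nonneg (y0 - y2), sq_nonneg (y0 - y3), sq_nonneg (y2 - y3)]
  · rcases c2 with c2 | c2 | c2
    · rcases c3 with c3 | c3 | c3
      · linarith [sq_nonneg (y2 - y3), sq_nonneg (y0 - y1), sq_nonneg y0, sq_nonneg y1]
      · linarith [sq_nonneg (y3 - y2 - y0), sq_nonneg (y2 - y0), sq_nonneg (y2 + y0 - 2 * y1), sq_nonneg y1]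
      · linarith [sq_nonneg (y2 - y3 - y1), sq_nonneg (y3 - y1), sq_nonneg (y3 + y1 - 2 * y0), sq_nonneg y0]
    · rcases c3 with c3 | c3 | c3
      · linarith [sq_nonneg (y2 - y3 - y0), sq_nonneg (y3 - y0), sq_nonneg (y3 + y0 - 2 * y1), sq_nonneg y1]
      · linarith [sq_nonneg (y0 + y2 + y3 - 3 * y1), sq_nonneg y1, sq_nonneg (y0 - y2), sq_nonneg (y0 - y3), sq_nonneg (y2 - y3)]
      · linarith [sq_nonneg (y2 - y0 - y1 - y3), sq_nonneg (y0 - y1), sq_nonneg (y0 - y3), sq_nonneg (y1 - y3)]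
    · rcases c3 with c3 | c3 | c3
      · linarith [sq_nonneg (y3 - y2 - y1), sq_nonneg (y2 - y1), sq_nonneg (y2 + y1 - 2 * y0), sq_nonneg y0]
      · linarith [sq_nonneg (y3 - y0 - y1 - y2), sq_nonneg (y0 - y1), sq_nonneg (y0 - y2), sq_nonneg (y1 - y2)]
      · linarith [sq_nonneg (y1 + y2 + y3 - 3 * y0), sq_nonneg y0, sq_nonneg (y1 - y2), sq_nonneg (y1 - y3), sq_nonneg (y2 - y3)]

end Pool.HopfSix
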