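import Mathlib

/-!
Algebraic curvature tensors and 3-forms on `ℝ⁶`, in components with respect to the standard
orthonormal basis, sectional curvature bounds, and the Bochner curvature term on 3-forms.
-/

namespace Pool.HopfSix

open Finset

/-- Vectors of `ℝ⁶`. -/
abbrev Vec := Fin 6 → ℝ

/-- The Euclidean inner product of `ℝ⁶`. -/
def dot (u v : Vec) : ℝ := ∑ i, u i * v i

/-- `R` is an algebraic curvature tensor on `ℝ⁶`: skew in the first pair, skew in the second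
pair, first Bianchi identity (the pair symmetry follows). Convention: `R_{ijij}` is the sectional
curvature of the coordinate plane `i, j`. -/
structure IsCurvature (R : Fin 6 → Fin 6 → Fin 6 → Fin 6 → ℝ) : Prop where
  skew12 : ∀ i j k l, R j i k l = - R i j k l
  skew34 : ∀ i j k l, R i j l k = - R i j k l
  bianchi : ∀ i j k l, R i j k l + R j k i l + R k i j l = 0

/-- `R(u,v,w,z)` for vectors. -/
def ev4 (R : Fin 6 → Fin 6 → Fin 6 → Fin 6 → ℝ) (u v w z : Vec) : ℝ :=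
  ∑ i, ∑ j, ∑ k, ∑ l, R i j k l * u i * v j * w k * z l

/-- All sectional curvatures of `R` are at least `δ`. -/
def SecGE (R : Fin 6 → Fin 6 → Fin 6 → Fin 6 → ℝ) (δ : ℝ) : Prop :=
  ∀ u v : Vec, δ * (dot u u * dot v v - dot u v ^ 2) ≤ ev4 R u v u v

/-- All sectional curvatures of `R` are at most `Δ`. -/
def SecLE (R : Fin 6 → Fin 6 → Fin 6 → Fin 6 → ℝ) (Δ : ℝ) : Prop :=
  ∀ u v : Vec, ev4 R u v u v ≤ Δ * (dot u u * dot v v - dot u v ^ 2)

/-- The sectional curvatures of any two orthogonal planes add up to at most `2 Δ`. -/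
def OrthLE (R : Fin 6 → Fin 6 → Fin 6 → Fin 6 → ℝ) (Δ : ℝ) : Prop :=
  ∀ p : Fin 4 → Vec, (∀ i j, dot (p i) (p j) = if i = j then 1 else 0) →
    ev4 R (p 0) (p 1) (p 0) (p 1) + ev4 R (p 2) (p 3) (p 2) (p 3) ≤ 2 * Δ

/-- A 3-form on `ℝ⁶`, in components: an array that changes sign under transpositions. -/
structure IsThreeForm (φ : Fin 6 → Fin 6 → Fin 6 → ℝ) : Prop where
  skew12 : ∀ i j k, φ j i k = - φ i j k
  skew23 : ∀ i j k, φ i k j = - φ i j k

/-- The Ricci tensor `Ric_{ij} = ∑_a R_{iaja}`. -/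
def ricci (R : Fin 6 → Fin 6 → Fin 6 → Fin 6 → ℝ) (i j : Fin 6) : ℝ := ∑ a, R i a j a

/-- The Bochner-Yano curvature term of the Weitzenböck formula on 3-forms,
`F(R,φ) = ∑ Ric_{ij} φ_{ikl} φ_{jkl} - ∑ R_{ijkl} φ_{ijm} φ_{klm}`. -/
def bochner (R : Fin 6 → Fin 6 → Fin 6 → Fin 6 → ℝ) (φ : Fin 6 → Fin 6 → Fin 6 → ℝ) : ℝ :=
  (∑ i, ∑ j, ricci R i j * ∑ k, ∑ l, φ i k l * φ j k l)
    - ∑ m, ∑ i, ∑ j, ∑ k, ∑ l, R i j k l * φ i j m * φ k l m

end Pool.HopfSix
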