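import Pool.Agent.Lib.MP_4a593f_gt.Normal

/-!
The normal form, and the value of the curvature term on it.
-/

namespace Pool.HopfSix

open Finset

/-- Components of the normal form: a combination of `e012, e045, e135, e234` and of the
complementary triples, with a common phase `(c,s)`. -/
structure IsNormal (χ : Fin 6 → Fin 6 → Fin 6 → ℝ) (c s x0 x1 x2 x3 : ℝ) : Prop where
  form : IsThreeForm χ
  unit : c ^ 2 + s ^ 2 = 1
  h012 : χ 0 1 2 = c * x0
  h345 : χ 3 4 5 = s * x0
  h045 : χ 0 4 5 = c * x1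
  h123 : χ 1 2 3 = s * x1
  h135 : χ 1 3 5 = c * x2
  h024 : χ 0 2 4 = s * x2
  h234 : χ 2 3 4 = c * x3
  h015 : χ 0 1 5 = s * x3
  z013 : χ 0 1 3 = 0
  z014 : χ 0 1 4 = 0
  z023 : χ 0 2 3 = 0
  z025 : χ 0 2 5 = 0
  z034 : χ 0 3 4 = 0
  z035 : χ 0 3 5 = 0
  z124 : χ 1 2 4 = 0
  z125 : χ 1 2 5 = 0
  z134 : χ 1 3 4 = 0
  z145 : χ 1 4 5 = 0
  z235 : χ 2 3 5 = 0
  z245 : χ 2 4 5 = 0

theorem normal_of_crit {χ : Fin 6 → Fin 6 → Fin 6 → ℝ} (hχ : IsThreeForm χ) {c s : ℝ}
    (hcs : c ^ 2 + s ^ 2 = 1) (hp : ∀ {p q : Fin 6}, p ≠ q → obj c s (rho χ p q) = 0)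
    (ht : obj (-s) c χ = 0) :
    ∃ x0 x1 x2 x3 : ℝ, IsNormal χ c s x0 x1 x2 x3 := by
  have s12 : ∀ i j k : Fin 6, j < i → χ i j k = - χ j i k := fun i j k _ => hχ.skew12 j i k
  have s23 : ∀ i j k : Fin 6, k < j → χ i j k = - χ i k j := fun i j k _ => hχ.skew23 i k j
  have z12 := hχ.zero12
  have z23 := hχ.zero23
  have e01 := hp (p := 0) (q := 1) (by decide)
  have e02 := hp (p := 0) (q := 2) (by decide)
  have e03 := hp (p := 0) (q := 3) (by decide)
  have e04 := hp (p := 0) (q := 4) (by decide)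
  have e05 := hp (p := 0) (q := 5) (by decide)
  have e12 := hp (p := 1) (q := 2) (by decide)
  have e13 := hp (p := 1) (q := 3) (by decide)
  have e14 := hp (p := 1) (q := 4) (by decide)
  have e15 := hp (p := 1) (q := 5) (by decide)
  have e23 := hp (p := 2) (q := 3) (by decide)
  have e24 := hp (p := 2) (q := 4) (by decide)
  have e25 := hp (p := 2) (q := 5) (by decide)
  have e34 := hp (p := 3) (q := 4) (by decide)
  have e35 := hp (p := 3) (q := 5) (by decide)
  have e45 := hp (p := 4) (q := 5) (by decide)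
  clear hp
  simp (decide := true) only [obj, rho, ↓reduceIte, Fin.isValue, Fin.reduceLT, s12, s23, z12, z23] at e01 e02 e03 e04 e05 e12 e13 e14 e15 e23 e24 e25 e34 e35 e45 ht
  -- block (e1, e2)
  have XA : c * χ 1 4 5 - s * χ 0 2 3 = 0 := by linear_combination (2 * e01 + e34) / 3
  have YA : c * χ 0 3 5 - s * χ 1 2 4 = 0 := by linear_combination -(e01 + 2 * e34) / 3
  have WA : c * χ 1 2 4 + s * χ 0 3 5 = 0 := by linear_combination e04 / 4
  have VA : c * χ 0 2 3 + s * χ 1 4 5 = 0 := by linear_combination -e13 / 4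
  have z145 : χ 1 4 5 = 0 := by linear_combination c * XA + s * VA - χ 1 4 5 * hcs
  have z023 : χ 0 2 3 = 0 := by linear_combination c * VA - s * XA - χ 0 2 3 * hcs
  have z035 : χ 0 3 5 = 0 := by linear_combination c * YA + s * WA - χ 0 3 5 * hcs
  have z124 : χ 1 2 4 = 0 := by linear_combination c * WA - s * YA - χ 1 2 4 * hcs
  -- block (e1, e3)
  have PB : c * χ 2 4 5 + s * χ 0 1 3 = 0 := by linear_combination e02 / 2
  have QB : c * χ 0 3 4 + s * χ 1 2 5 = 0 := by linear_combination e35 / 2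
  have AB : c * χ 1 2 5 - s * χ 0 3 4 = 0 := by linear_combination (4 * e05 - e23) / 15
  have BB : c * χ 0 1 3 - s * χ 2 4 5 = 0 := by linear_combination (4 * e23 - e05) / 15
  have z245 : χ 2 4 5 = 0 := by linear_combination c * PB - s * BB - χ 2 4 5 * hcs
  have z013 : χ 0 1 3 = 0 := by linear_combination s * PB + c * BB - χ 0 1 3 * hcs
  have z034 : χ 0 3 4 = 0 := by linear_combination c * QB - s * AB - χ 0 3 4 * hcs
  have z125 : χ 1 2 5 = 0 := by linear_combination s * QB + c * AB - χ 1 2 5 * hcs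
  -- block (e2, e3)
  have GC : c * χ 2 3 5 - s * χ 0 1 4 = 0 := by linear_combination -e12
  have HC : c * χ 1 3 4 - s * χ 0 2 5 = 0 := by linear_combination e45
  have MC : c * χ 0 2 5 + s * χ 1 3 4 = 0 := by linear_combination (e24 - 2 * e15) / 6
  have NC : c * χ 0 1 4 + s * χ 2 3 5 = 0 := by linear_combination (2 * e24 - e15) / 6
  have z235 : χ 2 3 5 = 0 := by linear_combination c * GC + s * NC - χ 2 3 5 * hcs
  have z014 : χ 0 1 4 = 0 := by linear_combination c * NC - s * GC - χ 0 1 4 * hcs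
  have z134 : χ 1 3 4 = 0 := by linear_combination c * HC + s * MC - χ 1 3 4 * hcs
  have z025 : χ 0 2 5 = 0 := by linear_combination c * MC - s * HC - χ 0 2 5 * hcs
  -- torus and phase
  have Y0 : c * χ 3 4 5 - s * χ 0 1 2 = 0 := by
    linear_combination (-26 * e03 - 19 * e14 - 16 * e25 + 44 * ht) / 105
  have Y1 : c * χ 1 2 3 - s * χ 0 4 5 = 0 := by
    linear_combination (44 * e03 + 16 * e14 + 19 * e25 - 26 * ht) / 105
  have Y2 : c * χ 0 2 4 - s * χ 1 3 5 = 0 := by
    linear_combination (-16 * e03 - 44 * e14 - 26 * e25 + 19 * ht) / 105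
  have Y3 : c * χ 0 1 5 - s * χ 2 3 4 = 0 := by
    linear_combination (19 * e03 + 26 * e14 + 44 * e25 - 16 * ht) / 105
  refine ⟨c * χ 0 1 2 + s * χ 3 4 5, c * χ 0 4 5 + s * χ 1 2 3,
    c * χ 1 3 5 + s * χ 0 2 4, c * χ 2 3 4 + s * χ 0 1 5, ?_⟩
  exact
    { form := hχ
      unit := hcs
      h012 := by linear_combination (-χ 0 1 2) * hcs - s * Y0
      h345 := by linear_combination (-χ 3 4 5) * hcs + c * Y0
      h045 := by linear_combination (-χ 0 4 5) * hcs - s * Y1
      h123 := by linear_combination (-χ 1 2 3) * hcs + c * Y1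
      h135 := by linear_combination (-χ 1 3 5) * hcs - s * Y2
      h024 := by linear_combination (-χ 0 2 4) * hcs + c * Y2
      h234 := by linear_combination (-χ 2 3 4) * hcs - s * Y3
      h015 := by linear_combination (-χ 0 1 5) * hcs + c * Y3
      z013 := z013
      z014 := z014
      z023 := z023
      z025 := z025
      z034 := z034
      z035 := z035
      z124 := z124
      z125 := z125
      z134 := z134
      z145 := z145
      z235 := z235
      z245 := z245 }

theorem exists_normal {φ : Fin 6 → Fin 6 → Fin 6 → ℝ} (h : IsThreeForm φ) :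
    ∃ (O : Fin 6 → Vec) (c s x0 x1 x2 x3 : ℝ), IsFrame O ∧
      IsNormal (pull3 φ O) c s x0 x1 x2 x3 := by
  obtain ⟨c, s, O, hcs, hO, hmax⟩ := exists_max φ
  have hp : ∀ {p q : Fin 6}, p ≠ q → obj c s (rho (pull3 φ O) p q) = 0 := fun hpq =>
    crit_plane h hO (fun O' hO' => hmax c s O' hcs hO') hpq
  have ht := crit_angle (χ := pull3 φ O) hcs (fun c' s' h' => hmax c' s' O h' hO)
  obtain ⟨x0, x1, x2, x3, hN⟩ := normal_of_crit (pull3_isThreeForm h O) hcs hp ht
  exact ⟨O, c, s, x0, x1, x2, x3, hO, hN⟩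

end Pool.HopfSix
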