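import Pool.Agent.Lib.MP_4a593f_gt.Sharp

/-!
The Bochner (Weitzenböck) curvature term on 3-forms of a 6-dimensional Riemannian manifold is
bounded below in terms of the sum of the lowest four and a half eigenvalues of the curvature
operator. The number 4 (4.5) is optimal.
-/

namespace Pool.Agent.Results.MP_4a593f_gt.FourPositive

open Pool.HopfSix Finset

set_option linter.unusedSimpArgs false

/-- A 2-form on `ℝ⁶`, in components: a skew array. -/
def IsTwoForm (α : Fin 6 → Fin 6 → ℝ) : Prop := ∀ i j, α j i = - α i j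

/-- The inner product of 2-forms for which the `e_i ∧ e_j`, `i < j`, are orthonormal. -/
noncomputable def inner2 (α β : Fin 6 → Fin 6 → ℝ) : ℝ := 1 / 2 * ∑ i, ∑ j, α i j * β i j

/-- The quadratic form of the curvature operator on 2-forms: `∑_{i<j, k<l} R_{ijkl} α_{ij} α_{kl}`
(so its value on the unit simple 2-form `e_i ∧ e_j` is the sectional curvature `R_{ijij}`). -/
noncomputable def curvOp (R : Fin 6 → Fin 6 → Fin 6 → Fin 6 → ℝ) (α : Fin 6 → Fin 6 → ℝ) : ℝ :=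
  1 / 4 * ∑ i, ∑ j, ∑ k, ∑ l, R i j k l * α i j * α k l

/-- Five orthonormal 2-forms. -/
def Ortho5 (ω : Fin 5 → Fin 6 → Fin 6 → ℝ) : Prop :=
  (∀ a, IsTwoForm (ω a)) ∧ ∀ a b, inner2 (ω a) (ω b) = if a = b then 1 else 0

/-! ### Change of frame -/

/-- the 2-form with components `α` in the frame `O` -/
def push (O : Fin 6 → Vec) (α : Fin 6 → Fin 6 → ℝ) (i j : Fin 6) : ℝ :=
  ∑ a, ∑ b, α a b * O a i * O b j

theorem quad_sum {ι κ : Type*} [Fintype ι] [Fintype κ] (M : ι → ι → ℝ) (U : ι → κ → ℝ)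
    (α β : κ → ℝ) :
    ∑ p, ∑ q, M p q * (∑ r, U p r * α r) * (∑ s, U q s * β s)
      = ∑ r, ∑ s, (∑ p, ∑ q, M p q * U p r * U q s) * α r * β s := by
  have e1 : ∀ p q, M p q * (∑ r, U p r * α r) * (∑ s, U q s * β s)
      = ∑ r, ∑ s, M p q * U p r * U q s * α r * β s := by
    intro p q
    rw [Finset.mul_sum, Finset.sum_comm]
    refine Finset.sum_congr rfl fun s _ => ?_
    rw [Finset.mul_sum, Finset.sum_mul]
    refine Finset.sum_congr rfl fun r _ => by ring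
  simp only [e1]
  have e2 : ∀ p, (∑ q, ∑ r, ∑ s, M p q * U p r * U q s * α r * β s)
      = ∑ r, ∑ s, ∑ q, M p q * U p r * U q s * α r * β s := by
    intro p
    rw [Finset.sum_comm]
    exact Finset.sum_congr rfl fun r _ => Finset.sum_comm
  simp only [e2]
  rw [Finset.sum_comm]
  refine Finset.sum_congr rfl fun r _ => ?_
  rw [Finset.sum_comm]
  refine Finset.sum_congr rfl fun s _ => ?_
  rw [Finset.sum_mul, Finset.sum_mul]
  refine Finset.sum_congr rfl fun p _ => ?_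
  rw [Finset.sum_mul, Finset.sum_mul]

theorem push_two {O : Fin 6 → Vec} {α : Fin 6 → Fin 6 → ℝ} (h : IsTwoForm α) :
    IsTwoForm (push O α) := by
  intro i j
  unfold push
  rw [Finset.sum_comm, ← Finset.sum_neg_distrib]
  refine Finset.sum_congr rfl fun a _ => ?_
  rw [← Finset.sum_neg_distrib]
  refine Finset.sum_congr rfl fun b _ => ?_
  rw [h a b]; ring

theorem push_prod (O : Fin 6 → Vec) (α : Fin 6 → Fin 6 → ℝ) (p : Fin 6 × Fin 6) :
    push O α p.1 p.2 = ∑ r : Fin 6 × Fin 6, (O r.1 p.1 * O r.2 p.2) * α r.1 r.2 := by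
  rw [Fintype.sum_prod_type]
  unfold push
  refine Finset.sum_congr rfl fun a _ => Finset.sum_congr rfl fun b _ => by ring

theorem push_inner {O : Fin 6 → Vec} (hO : IsFrame O) (α β : Fin 6 → Fin 6 → ℝ) :
    inner2 (push O α) (push O β) = inner2 α β := by
  have key : ∑ p : Fin 6 × Fin 6, push O α p.1 p.2 * push O β p.1 p.2
      = ∑ r : Fin 6 × Fin 6, α r.1 r.2 * β r.1 r.2 := by
    have h1 := quad_sum (ι := Fin 6 × Fin 6) (κ := Fin 6 × Fin 6)
      (fun p q => if p = q then 1 else 0)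
      (fun p r => O r.1 p.1 * O r.2 p.2) (fun r => α r.1 r.2) (fun r => β r.1 r.2)
    have h2 : ∀ r s : Fin 6 × Fin 6, (∑ p : Fin 6 × Fin 6, ∑ q : Fin 6 × Fin 6,
        (if p = q then (1:ℝ) else 0) * (O r.1 p.1 * O r.2 p.2) * (O s.1 q.1 * O s.2 q.2))
        = if r = s then 1 else 0 := by
      intro r s
      have e1 : ∀ p : Fin 6 × Fin 6, (∑ q : Fin 6 × Fin 6,
          (if p = q then (1:ℝ) else 0) * (O r.1 p.1 * O r.2 p.2) * (O s.1 q.1 * O s.2 q.2))
          = (O r.1 p.1 * O s.1 p.1) * (O r.2 p.2 * O s.2 p.2) := by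
        intro p
        simp only [ite_mul, one_mul, zero_mul, Finset.sum_ite_eq, Finset.mem_univ, if_true]
        ring
      simp only [e1]
      rw [Fintype.sum_prod_type]
      have e2 : ∀ x : Fin 6, (∑ y, O r.1 (x, y).1 * O s.1 (x, y).1 *
          (O r.2 (x, y).2 * O s.2 (x, y).2)) = O r.1 x * O s.1 x * dot (O r.2) (O s.2) := by
        intro x
        unfold dot
        rw [Finset.mul_sum]
      simp only [e2]
      rw [← Finset.sum_mul]
      have e3 : (∑ i, O r.1 i * O s.1 i) = dot (O r.1) (O s.1) := rfl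
      rw [e3, hO, hO]
      by_cases h1 : r.1 = s.1 <;> by_cases h2 : r.2 = s.2 <;> simp [h1, h2, Prod.ext_iff]
    simp only [h2] at h1
    have h3 : ∀ p : Fin 6 × Fin 6, (∑ q : Fin 6 × Fin 6, (if p = q then (1:ℝ) else 0) *
        (∑ r : Fin 6 × Fin 6, (O r.1 p.1 * O r.2 p.2) * α r.1 r.2) *
        (∑ s : Fin 6 × Fin 6, (O s.1 q.1 * O s.2 q.2) * β s.1 s.2))
        = push O α p.1 p.2 * push O β p.1 p.2 := by
      intro p
      simp only [ite_mul, one_mul, zero_mul, Finset.sum_ite_eq, Finset.mem_univ, if_true]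
      rw [push_prod, push_prod]
    simp only [h3] at h1
    rw [h1]
    refine Finset.sum_congr rfl fun r _ => ?_
    simp
  unfold inner2
  rw [Fintype.sum_prod_type, Fintype.sum_prod_type] at key
  rw [key]

theorem push_curv (O : Fin 6 → Vec) (R : Fin 6 → Fin 6 → Fin 6 → Fin 6 → ℝ)
    (α : Fin 6 → Fin 6 → ℝ) : curvOp R (push O α) = curvOp (pull4 R O) α := by
  have h1 := quad_sum (ι := Fin 6 × Fin 6) (κ := Fin 6 × Fin 6)
    (fun p q => R p.1 p.2 q.1 q.2)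
    (fun p r => O r.1 p.1 * O r.2 p.2) (fun r => α r.1 r.2) (fun r => α r.1 r.2)
  have h2 : ∀ p : Fin 6 × Fin 6, (∑ r : Fin 6 × Fin 6, (O r.1 p.1 * O r.2 p.2) * α r.1 r.2)
      = push O α p.1 p.2 := fun p => (push_prod O α p).symm
  have h3 : ∀ r s : Fin 6 × Fin 6, (∑ p : Fin 6 × Fin 6, ∑ q : Fin 6 × Fin 6,
      R p.1 p.2 q.1 q.2 * (O r.1 p.1 * O r.2 p.2) * (O s.1 q.1 * O s.2 q.2))
      = pull4 R O r.1 r.2 s.1 s.2 := by
    intro r s
    unfold pull4 ev4
    rw [Fintype.sum_prod_type]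
    refine Finset.sum_congr rfl fun i _ => Finset.sum_congr rfl fun j _ => ?_
    rw [Fintype.sum_prod_type]
    refine Finset.sum_congr rfl fun k _ => Finset.sum_congr rfl fun l _ => ?_
    ring
  simp only [h2, h3] at h1
  unfold curvOp
  congr 1
  simp only [Fintype.sum_prod_type] at h1
  exact h1

/-! ### Coordinates on the space of 2-forms -/

/-- the fifteen coordinate planes, in the order of the blocks -/
def P (s : Fin 15) : Fin 6 × Fin 6 :=
  ![(0, 3), (1, 4), (2, 5), (1, 2), (4, 5), (1, 5), (2, 4), (0, 2), (3, 5), (0, 5), (2, 3),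
    (0, 1), (3, 4), (0, 4), (1, 3)] s

/-- the 2-form with coordinates `v` -/
def form (v : Fin 15 → ℝ) (i j : Fin 6) : ℝ :=
  ∑ s, v s * ((if i = (P s).1 ∧ j = (P s).2 then 1 else 0)
    - (if j = (P s).1 ∧ i = (P s).2 then 1 else 0))

theorem form_two (v : Fin 15 → ℝ) : IsTwoForm (form v) := by
  intro i j
  unfold form
  rw [← Finset.sum_neg_distrib]
  exact Finset.sum_congr rfl fun s _ => by ring

theorem form_contr (Y : Fin 6 → Fin 6 → ℝ) (v : Fin 15 → ℝ) :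
    ∑ i, ∑ j, Y i j * form v i j
      = ∑ s, (Y (P s).1 (P s).2 - Y (P s).2 (P s).1) * v s := by
  have e1 : ∀ i j, Y i j * form v i j = ∑ s, ((if i = (P s).1 ∧ j = (P s).2 then Y i j * v s else 0)
    - (if j = (P s).1 ∧ i = (P s).2 then Y i j * v s else 0)) := by
    intro i j
    unfold form
    rw [Finset.mul_sum]
    refine Finset.sum_congr rfl fun s _ => ?_
    split_ifs <;> ring
  simp only [e1]
  have e2 : ∀ i, (∑ j, ∑ s, ((if i = (P s).1 ∧ j = (P s).2 then Y i j * v s else 0)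
    - (if j = (P s).1 ∧ i = (P s).2 then Y i j * v s else 0)))
    = ∑ s, ((if i = (P s).1 then Y i (P s).2 * v s else 0)
      - (if i = (P s).2 then Y i (P s).1 * v s else 0)) := by
    intro i
    rw [Finset.sum_comm]
    refine Finset.sum_congr rfl fun s _ => ?_
    rw [Finset.sum_sub_distrib]
    congr 1
    · by_cases h : i = (P s).1 <;> simp [h]
    · by_cases h : i = (P s).2 <;> simp [h]
  simp only [e2]
  rw [Finset.sum_comm]
  refine Finset.sum_congr rfl fun s _ => ?_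
  rw [Finset.sum_sub_distrib]
  simp
  ring

theorem form_eval (v : Fin 15 → ℝ) (s : Fin 15) : form v (P s).1 (P s).2 = v s := by
  have h1 : ∀ s t : Fin 15, ((P s).1 = (P t).1 ∧ (P s).2 = (P t).2) ↔ s = t := by decide
  have h2 : ∀ s t : Fin 15, ¬ ((P s).2 = (P t).1 ∧ (P s).1 = (P t).2) := by decide
  unfold form
  simp [h1, h2]

theorem form_inner (u v : Fin 15 → ℝ) : inner2 (form u) (form v) = ∑ s, u s * v s := by
  unfold inner2
  rw [form_contr, Finset.mul_sum]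
  refine Finset.sum_congr rfl fun s _ => ?_
  rw [form_two u (P s).1 (P s).2, form_eval]
  ring

theorem form_curv {R : Fin 6 → Fin 6 → Fin 6 → Fin 6 → ℝ} (hR : IsCurvature R)
    (v : Fin 15 → ℝ) :
    curvOp R (form v) = ∑ s, ∑ t, R (P s).1 (P s).2 (P t).1 (P t).2 * v s * v t := by
  unfold curvOp
  have e1 : ∀ i j, (∑ k, ∑ l, R i j k l * form v i j * form v k l)
      = (∑ t, (R i j (P t).1 (P t).2 - R i j (P t).2 (P t).1) * v t) * form v i j := by
    intro i j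
    rw [← form_contr (fun k l => R i j k l), Finset.sum_mul]
    refine Finset.sum_congr rfl fun k _ => ?_
    rw [Finset.sum_mul]
    exact Finset.sum_congr rfl fun l _ => by ring
  simp only [e1]
  rw [form_contr (fun i j => ∑ t, (R i j (P t).1 (P t).2 - R i j (P t).2 (P t).1) * v t),
    Finset.mul_sum]
  refine Finset.sum_congr rfl fun s _ => ?_
  rw [← Finset.sum_sub_distrib, Finset.sum_mul, Finset.mul_sum]
  refine Finset.sum_congr rfl fun t _ => ?_
  rw [hR.skew34 (P s).1 (P s).2 (P t).1 (P t).2, hR.skew34 (P s).2 (P s).1 (P t).1 (P t).2,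
    hR.skew12 (P s).1 (P s).2 (P t).1 (P t).2]
  ring

/-! ### Diagonalisation of the curvature operator -/

/-- The hypothesis: the sum of the lowest four and a half eigenvalues of the curvature operator
is at least `9/2 κ`. -/
def LowGE (R : Fin 6 → Fin 6 → Fin 6 → Fin 6 → ℝ) (κ : ℝ) : Prop :=
  ∀ ω : Fin 5 → Fin 6 → Fin 6 → ℝ, Ortho5 ω →
    9 / 2 * κ ≤ curvOp R (ω 0) + curvOp R (ω 1) + curvOp R (ω 2) + curvOp R (ω 3)
      + 1 / 2 * curvOp R (ω 4)

theorem LowGE.frame {R : Fin 6 → Fin 6 → Fin 6 → Fin 6 → ℝ} {κ : ℝ} (h : LowGE R κ)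
    {O : Fin 6 → Vec} (hO : IsFrame O) : LowGE (pull4 R O) κ := by
  intro ω hω
  simp only [← push_curv]
  refine h (fun a => push O (ω a)) ⟨fun a => push_two (hω.1 a), fun a b => ?_⟩
  rw [push_inner hO]
  exact hω.2 a b

/-- An eigenbasis with ordered eigenvalues. -/
theorem exists_eigen {A : Fin 15 → Fin 15 → ℝ} (hA : ∀ s t, A s t = A t s) :
    ∃ (l : Fin 15 → ℝ) (b : Fin 15 → Fin 15 → ℝ), Antitone l ∧
      (∀ i j, ∑ s, b i s * b j s = if i = j then 1 else 0) ∧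
      (∀ s t, ∑ i, b i s * b i t = if s = t then 1 else 0) ∧
      (∀ s t, A s t = ∑ i, l i * (b i s * b i t)) := by
  let M : Matrix (Fin 15) (Fin 15) ℝ := Matrix.of A
  have hM : M.IsHermitian := by
    ext s t
    simp [M, hA s t]
  have hT : (Matrix.toEuclideanLin M).IsSymmetric := Matrix.isSymmetric_toEuclideanLin_iff.symm.mp hM
  have hn : Module.finrank ℝ (EuclideanSpace ℝ (Fin 15)) = 15 := by simp
  let b := hT.eigenvectorBasis hn
  refine ⟨hT.eigenvalues hn, fun i s => b i s, hT.eigenvalues_antitone hn, ?_, ?_, ?_⟩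
  · intro i j
    have h1 := orthonormal_iff_ite.mp b.orthonormal i j
    rw [PiLp.inner_apply] at h1
    simp only [RCLike.inner_apply, conj_trivial] at h1
    rw [← h1]
    exact Finset.sum_congr rfl fun s _ => by ring
  · intro s t
    have h1 := b.sum_inner_mul_inner (EuclideanSpace.single s 1) (EuclideanSpace.single t 1)
    simp only [EuclideanSpace.inner_single_left, EuclideanSpace.inner_single_right] at h1
    simpa [eq_comm] using h1
  · intro s t
    have h1 := b.sum_inner_mul_inner (EuclideanSpace.single s 1)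
      (Matrix.toEuclideanLin M (EuclideanSpace.single t 1))
    have h2 : ∀ i, inner ℝ (b i) (Matrix.toEuclideanLin M (EuclideanSpace.single t (1:ℝ)))
        = hT.eigenvalues hn i * b i t := by
      intro i
      rw [← hT (b i) (EuclideanSpace.single t 1), hT.apply_eigenvectorBasis hn i]
      simp [inner_smul_left, EuclideanSpace.inner_single_right, b]
    simp only [h2] at h1
    have h3 : inner ℝ (EuclideanSpace.single s (1:ℝ))
        (Matrix.toEuclideanLin M (EuclideanSpace.single t (1:ℝ))) = A s t := by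
      rw [EuclideanSpace.inner_single_left]
      simp [M, Matrix.toLpLin_apply, Matrix.mulVec_single_one]
    rw [h3] at h1
    rw [← h1]
    refine Finset.sum_congr rfl fun i _ => ?_
    rw [EuclideanSpace.inner_single_left]
    simp
    ring

/-- The elementary linear programming bound. -/
theorem lp_bound {l q : Fin 15 → ℝ} {N κ : ℝ} (hl : Antitone l) (h0 : ∀ i, 0 ≤ q i)
    (h2 : ∀ i, q i ≤ 2 * N) (hs : ∑ i, q i = 9 * N) (hN : 0 ≤ N)
    (hk : 9 / 2 * κ ≤ l 14 + l 13 + l 12 + l 11 + 1 / 2 * l 10) :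
    9 * κ * N ≤ ∑ i, l i * q i := by
  have u : ∀ i : Fin 15, i ≤ 10 → 0 ≤ (l i - l 10) * q i := fun i hi =>
    mul_nonneg (sub_nonneg.mpr (hl hi)) (h0 i)
  have w : ∀ i : Fin 15, 10 ≤ i → 0 ≤ (l 10 - l i) * (2 * N - q i) := fun i hi =>
    mul_nonneg (sub_nonneg.mpr (hl hi)) (sub_nonneg.mpr (h2 i))
  have u0 := u 0 (by decide)
  have u1 := u 1 (by decide)
  have u2 := u 2 (by decide)
  have u3 := u 3 (by decide)
  have u4 := u 4 (by decide)
  have u5 := u 5 (by decide)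
  have u6 := u 6 (by decide)
  have u7 := u 7 (by decide)
  have u8 := u 8 (by decide)
  have u9 := u 9 (by decide)
  have w1 := w 11 (by decide)
  have w2 := w 12 (by decide)
  have w3 := w 13 (by decide)
  have w4 := w 14 (by decide)
  have hk' := mul_le_mul_of_nonneg_right hk hN
  have e : ∀ f : Fin 15 → ℝ, ∑ i, f i = f 0 + f 1 + f 2 + f 3 + f 4 + f 5 + f 6 + f 7 + f 8 + f 9
      + f 10 + f 11 + f 12 + f 13 + f 14 := by
    intro f
    simp [Fin.sum_univ_succ]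
    ring
  rw [e] at hs
  rw [e]
  have hs' : l 10 * (q 0 + q 1 + q 2 + q 3 + q 4 + q 5 + q 6 + q 7 + q 8 + q 9
      + q 10 + q 11 + q 12 + q 13 + q 14) = l 10 * (9 * N) := by rw [hs]
  linarith

/-! ### The quadratic form representing the curvature term -/

/-- Quadratic form in a 2-form `v`; `t1, t2, t3` is the freedom given by the Bianchi identity. -/
def Q (x0 x1 x2 x3 t1 t2 t3 : ℝ) (v : Fin 15 → ℝ) : ℝ :=
  (x0 ^ 2 + x1 ^ 2 + x2 ^ 2 + x3 ^ 2) * (v 0 * v 0) + (x0 ^ 2 + x1 ^ 2 + x2 ^ 2 + x3 ^ 2) * (v 1 * v 1)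
  + (x0 ^ 2 + x1 ^ 2 + x2 ^ 2 + x3 ^ 2) * (v 2 * v 2)
  + (x2 ^ 2 + x3 ^ 2) * (v 3 * v 3) + (x2 ^ 2 + x3 ^ 2) * (v 4 * v 4)
  + (x0 ^ 2 + x1 ^ 2) * (v 5 * v 5) + (x0 ^ 2 + x1 ^ 2) * (v 6 * v 6)
  + (x1 ^ 2 + x3 ^ 2) * (v 7 * v 7) + (x1 ^ 2 + x3 ^ 2) * (v 8 * v 8)
  + (x0 ^ 2 + x2 ^ 2) * (v 9 * v 9) + (x0 ^ 2 + x2 ^ 2) * (v 10 * v 10)
  + (x1 ^ 2 + x2 ^ 2) * (v 11 * v 11) + (x1 ^ 2 + x2 ^ 2) * (v 12 * v 12)
  + (x0 ^ 2 + x3 ^ 2) * (v 13 * v 13) + (x0 ^ 2 + x3 ^ 2) * (v 14 * v 14)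
  + 2 * (-(2 * x0 * x1) - t1) * (v 3 * v 4) + 2 * (-(2 * x2 * x3) - t1) * (v 5 * v 6)
  + 2 * t1 * (v 1 * v 2)
  + 2 * (2 * x0 * x2 - t2) * (v 7 * v 8) + 2 * (2 * x1 * x3 - t2) * (v 9 * v 10)
  + 2 * t2 * (v 0 * v 2)
  + 2 * (-(2 * x0 * x3) - t3) * (v 11 * v 12) + 2 * (-(2 * x1 * x2) - t3) * (v 13 * v 14)
  + 2 * t3 * (v 0 * v 1)

theorem qform_eq {R : Fin 6 → Fin 6 → Fin 6 → Fin 6 → ℝ} (hR : IsCurvature R)
    {l : Fin 15 → ℝ} {b : Fin 15 → Fin 15 → ℝ}
    (hb : ∀ s t, R (P s).1 (P s).2 (P t).1 (P t).2 = ∑ i, l i * (b i s * b i t))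
    (x0 x1 x2 x3 t1 t2 t3 : ℝ) :
    qform R x0 x1 x2 x3 = ∑ i, l i * Q x0 x1 x2 x3 t1 t2 t3 (b i) := by
  have hk : ∀ (c : ℝ) (s t : Fin 15), ∑ i, l i * (c * (b i s * b i t))
      = c * R (P s).1 (P s).2 (P t).1 (P t).2 := by
    intro c s t
    rw [hb, Finset.mul_sum]
    exact Finset.sum_congr rfl fun i _ => by ring
  have bi : ∀ a b c d : Fin 6, R a c b d = R a b c d + R a d b c := by
    intro a b c d
    have b1 := hR.bianchi a b c d
    have b2 := hR.skew12 c a b d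
    have b3 := hR.pair a d b c
    linarith
  have b1 := bi 1 2 4 5
  have b2 := bi 0 2 3 5
  have b3 := bi 0 1 3 4
  simp only [Q, mul_add, Finset.sum_add_distrib, hk]
  simp only [P, Matrix.cons_val]
  unfold qform K
  rw [b1, b2, b3]
  ring

theorem block2 {d o N a b : ℝ} (h1 : |o| ≤ d) (h2 : d ≤ N) :
    0 ≤ d * (a * a) + d * (b * b) + 2 * o * (a * b) ∧
      d * (a * a) + d * (b * b) + 2 * o * (a * b) ≤ 2 * N * (a * a + b * b) := by
  rw [abs_le] at h1
  constructor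
  · nlinarith [mul_nonneg (by linarith [h1.1] : 0 ≤ d + o) (sq_nonneg (a + b)),
      mul_nonneg (by linarith [h1.2] : 0 ≤ d - o) (sq_nonneg (a - b))]
  · nlinarith [mul_nonneg (by linarith [h1.1] : 0 ≤ d + o) (sq_nonneg (a - b)),
      mul_nonneg (by linarith [h1.2] : 0 ≤ d - o) (sq_nonneg (a + b)),
      mul_nonneg (sub_nonneg.mpr h2) (sq_nonneg a), mul_nonneg (sub_nonneg.mpr h2) (sq_nonneg b)]

theorem cross_le (t a b : ℝ) : |2 * t * (a * b)| ≤ |t| * (a * a + b * b) := by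
  have h : |2 * t * (a * b)| = |t| * (2 * (|a| * |b|)) := by
    rw [abs_mul, abs_mul, abs_mul, abs_of_pos (by norm_num : (0:ℝ) < 2)]; ring
  rw [h]
  refine mul_le_mul_of_nonneg_left ?_ (abs_nonneg t)
  nlinarith [sq_nonneg (|a| - |b|), sq_abs a, sq_abs b]

theorem block3 {N t1 t2 t3 a b c : ℝ} (h12 : |t1| + |t2| ≤ N) (h13 : |t1| + |t3| ≤ N)
    (h23 : |t2| + |t3| ≤ N) :
    0 ≤ N * (a * a) + N * (b * b) + N * (c * c) + 2 * t1 * (b * c) + 2 * t2 * (a * c)
        + 2 * t3 * (a * b) ∧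
      N * (a * a) + N * (b * b) + N * (c * c) + 2 * t1 * (b * c) + 2 * t2 * (a * c)
        + 2 * t3 * (a * b) ≤ 2 * N * (a * a + b * b + c * c) := by
  have c1 := abs_le.mp (cross_le t1 b c)
  have c2 := abs_le.mp (cross_le t2 a c)
  have c3 := abs_le.mp (cross_le t3 a b)
  have m1 := mul_nonneg (sub_nonneg.mpr h12) (mul_self_nonneg c)
  have m2 := mul_nonneg (sub_nonneg.mpr h13) (mul_self_nonneg b)
  have m3 := mul_nonneg (sub_nonneg.mpr h23) (mul_self_nonneg a)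
  constructor
  · linarith [c1.1, c2.1, c3.1]
  · linarith [c1.2, c2.2, c3.2]

/-- Choice of the free parameter. -/
theorem exists_tau {u v D1 D2 : ℝ} (hu : |u| ≤ D2) (hv : |v| ≤ D1) :
    ∃ t : ℝ, |u - t| ≤ D1 ∧ |v - t| ≤ D2 ∧ (|t| ≤ 0 ∨ |t| ≤ |u| - D1 ∨ |t| ≤ |v| - D2) := by
  have hD1 : 0 ≤ D1 := (abs_nonneg v).trans hv
  have hD2 : 0 ≤ D2 := (abs_nonneg u).trans hu
  by_cases h1 : D1 < |u|
  · rcases le_total 0 u with h | h
    · rw [abs_of_nonneg h] at h1 hu ⊢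
      refine ⟨u - D1, ?_, ?_, Or.inr (Or.inl ?_)⟩
      · rw [sub_sub_cancel, abs_of_nonneg hD1]
      · rw [abs_le] at hv ⊢
        constructor <;> linarith [hv.1, hv.2]
      · rw [abs_of_pos (by linarith)]
    · rw [abs_of_nonpos h] at h1 hu ⊢
      refine ⟨u + D1, ?_, ?_, Or.inr (Or.inl ?_)⟩
      · rw [sub_add_cancel_left, abs_neg, abs_of_nonneg hD1]
      · rw [abs_le] at hv ⊢
        constructor <;> linarith [hv.1, hv.2]
      · rw [abs_of_neg (by linarith)]; linarith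
  · by_cases h2 : D2 < |v|
    · rcases le_total 0 v with h | h
      · rw [abs_of_nonneg h] at h2 hv ⊢
        refine ⟨v - D2, ?_, ?_, Or.inr (Or.inr ?_)⟩
        · rw [abs_le] at hu ⊢
          constructor <;> linarith [hu.1, hu.2]
        · rw [sub_sub_cancel, abs_of_nonneg hD2]
        · rw [abs_of_pos (by linarith)]
      · rw [abs_of_nonpos h] at h2 hv ⊢
        refine ⟨v + D2, ?_, ?_, Or.inr (Or.inr ?_)⟩
        · rw [abs_le] at hu ⊢
          constructor <;> linarith [hu.1, hu.2]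
        · rw [sub_add_cancel_left, abs_neg, abs_of_nonneg hD2]
        · rw [abs_of_neg (by linarith)]; linarith
    · refine ⟨0, ?_, ?_, Or.inl (by simp)⟩
      · rw [sub_zero]; exact not_lt.mp h1
      · rw [sub_zero]; exact not_lt.mp h2

/-- Two of the free parameters, for pairs sharing one index. -/
theorem tau_pair {p q r s t t' : ℝ}
    (h : |t| ≤ 0 ∨ |t| ≤ 2 * p * q - (r ^ 2 + s ^ 2) ∨ |t| ≤ 2 * r * s - (p ^ 2 + q ^ 2))
    (h' : |t'| ≤ 0 ∨ |t'| ≤ 2 * p * r - (q ^ 2 + s ^ 2) ∨ |t'| ≤ 2 * q * s - (p ^ 2 + r ^ 2)) :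
    |t| + |t'| ≤ p ^ 2 + q ^ 2 + r ^ 2 + s ^ 2 := by
  rcases h with h | h | h <;> rcases h' with h' | h' | h' <;>
    linarith [sq_nonneg p, sq_nonneg q, sq_nonneg r, sq_nonneg s, sq_nonneg (p - q),
      sq_nonneg (p - r), sq_nonneg (q - r), sq_nonneg (r - s), sq_nonneg (q - s),
      sq_nonneg (p - q - r), sq_nonneg (q - p - s), sq_nonneg (p - s), sq_nonneg (r - p - s),
      sq_nonneg (s - q - r)]

theorem exists_params (x0 x1 x2 x3 : ℝ) : ∃ t1 t2 t3 : ℝ, ∀ v : Fin 15 → ℝ,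
    0 ≤ Q x0 x1 x2 x3 t1 t2 t3 v ∧
      Q x0 x1 x2 x3 t1 t2 t3 v ≤ 2 * (x0 ^ 2 + x1 ^ 2 + x2 ^ 2 + x3 ^ 2) * ∑ s, v s * v s := by
  have am : ∀ a b : ℝ, |2 * a * b| ≤ a ^ 2 + b ^ 2 := by
    intro a b
    rw [abs_le]
    constructor <;> nlinarith [sq_nonneg (a - b), sq_nonneg (a + b)]
  have ab : ∀ a b : ℝ, |2 * a * b| = 2 * |a| * |b| := by
    intro a b
    rw [abs_mul, abs_mul, abs_of_pos (by norm_num : (0:ℝ) < 2)]
  obtain ⟨t1, p1, q1, r1⟩ := exists_tau (u := -(2 * x0 * x1)) (v := -(2 * x2 * x3))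
    (D1 := x2 ^ 2 + x3 ^ 2) (D2 := x0 ^ 2 + x1 ^ 2) (by rw [abs_neg]; exact am _ _)
    (by rw [abs_neg]; exact am _ _)
  obtain ⟨t2, p2, q2, r2⟩ := exists_tau (u := 2 * x0 * x2) (v := 2 * x1 * x3)
    (D1 := x1 ^ 2 + x3 ^ 2) (D2 := x0 ^ 2 + x2 ^ 2) (am _ _) (am _ _)
  obtain ⟨t3, p3, q3, r3⟩ := exists_tau (u := -(2 * x0 * x3)) (v := -(2 * x1 * x2))
    (D1 := x1 ^ 2 + x2 ^ 2) (D2 := x0 ^ 2 + x3 ^ 2) (by rw [abs_neg]; exact am _ _)
    (by rw [abs_neg]; exact am _ _)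
  have a0 := sq_abs x0
  have a1 := sq_abs x1
  have a2 := sq_abs x2
  have a3 := sq_abs x3
  have h12 : |t1| + |t2| ≤ x0 ^ 2 + x1 ^ 2 + x2 ^ 2 + x3 ^ 2 := by
    have := tau_pair (p := |x0|) (q := |x1|) (r := |x2|) (s := |x3|) (t := t1) (t' := t2)
      (by rw [abs_neg, abs_neg, ab, ab] at r1; rw [a0, a1, a2, a3]; exact r1)
      (by rw [ab, ab] at r2; rw [a0, a1, a2, a3]; exact r2)
    rw [a0, a1, a2, a3] at this
    exact this
  have h13 : |t1| + |t3| ≤ x0 ^ 2 + x1 ^ 2 + x2 ^ 2 + x3 ^ 2 := by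
    have := tau_pair (p := |x0|) (q := |x1|) (r := |x3|) (s := |x2|) (t := t1) (t' := t3)
      (by
        rw [abs_neg, abs_neg, ab, ab] at r1; rw [a0, a1, a2, a3]
        rcases r1 with r1 | r1 | r1
        · exact Or.inl r1
        · exact Or.inr (Or.inl (by linarith))
        · exact Or.inr (Or.inr (by linarith)))
      (by
        rw [abs_neg, abs_neg, ab, ab] at r3; rw [a0, a1, a2, a3]
        rcases r3 with r3 | r3 | r3
        · exact Or.inl r3
        · exact Or.inr (Or.inl (by linarith))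
        · exact Or.inr (Or.inr (by linarith)))
    rw [a0, a1, a2, a3] at this
    linarith
  have h23 : |t2| + |t3| ≤ x0 ^ 2 + x1 ^ 2 + x2 ^ 2 + x3 ^ 2 := by
    have := tau_pair (p := |x0|) (q := |x2|) (r := |x3|) (s := |x1|) (t := t2) (t' := t3)
      (by
        rw [ab, ab] at r2; rw [a0, a1, a2, a3]
        rcases r2 with r2 | r2 | r2
        · exact Or.inl r2
        · exact Or.inr (Or.inl (by linarith))
        · exact Or.inr (Or.inr (by linarith)))
      (by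
        rw [abs_neg, abs_neg, ab, ab] at r3; rw [a0, a1, a2, a3]
        rcases r3 with r3 | r3 | r3
        · exact Or.inl r3
        · exact Or.inr (Or.inl (by linarith))
        · exact Or.inr (Or.inr (by linarith)))
    rw [a0, a1, a2, a3] at this
    linarith
  refine ⟨t1, t2, t3, fun v => ?_⟩
  have hN0 : x2 ^ 2 + x3 ^ 2 ≤ x0 ^ 2 + x1 ^ 2 + x2 ^ 2 + x3 ^ 2 := by
    nlinarith [sq_nonneg x0, sq_nonneg x1]
  have hN1 : x0 ^ 2 + x1 ^ 2 ≤ x0 ^ 2 + x1 ^ 2 + x2 ^ 2 + x3 ^ 2 := by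
    nlinarith [sq_nonneg x2, sq_nonneg x3]
  have hN2 : x1 ^ 2 + x3 ^ 2 ≤ x0 ^ 2 + x1 ^ 2 + x2 ^ 2 + x3 ^ 2 := by
    nlinarith [sq_nonneg x0, sq_nonneg x2]
  have hN3 : x0 ^ 2 + x2 ^ 2 ≤ x0 ^ 2 + x1 ^ 2 + x2 ^ 2 + x3 ^ 2 := by
    nlinarith [sq_nonneg x1, sq_nonneg x3]
  have hN4 : x1 ^ 2 + x2 ^ 2 ≤ x0 ^ 2 + x1 ^ 2 + x2 ^ 2 + x3 ^ 2 := by
    nlinarith [sq_nonneg x0, sq_nonneg x3]
  have hN5 : x0 ^ 2 + x3 ^ 2 ≤ x0 ^ 2 + x1 ^ 2 + x2 ^ 2 + x3 ^ 2 := by
    nlinarith [sq_nonneg x1, sq_nonneg x2]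
  have B0 := block3 (a := v 0) (b := v 1) (c := v 2) h12 h13 h23
  have B1 := block2 (a := v 3) (b := v 4) p1 hN0
  have B2 := block2 (a := v 5) (b := v 6) q1 hN1
  have B3 := block2 (a := v 7) (b := v 8) p2 hN2
  have B4 := block2 (a := v 9) (b := v 10) q2 hN3
  have B5 := block2 (a := v 11) (b := v 12) p3 hN4
  have B6 := block2 (a := v 13) (b := v 14) q3 hN5
  have e : ∑ s, v s * v s = v 0 * v 0 + v 1 * v 1 + v 2 * v 2 + (v 3 * v 3 + v 4 * v 4)
      + (v 5 * v 5 + v 6 * v 6) + (v 7 * v 7 + v 8 * v 8) + (v 9 * v 9 + v 10 * v 10)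
      + (v 11 * v 11 + v 12 * v 12) + (v 13 * v 13 + v 14 * v 14) := by
    simp [Fin.sum_univ_succ]
    ring
  rw [e]
  unfold Q
  constructor
  · linarith [B0.1, B1.1, B2.1, B3.1, B4.1, B5.1, B6.1]
  · linarith [B0.2, B1.2, B2.2, B3.2, B4.2, B5.2, B6.2]

theorem qform_low {R : Fin 6 → Fin 6 → Fin 6 → Fin 6 → ℝ} (hR : IsCurvature R) {κ : ℝ}
    (h : LowGE R κ) (x0 x1 x2 x3 : ℝ) :
    9 * κ * (x0 ^ 2 + x1 ^ 2 + x2 ^ 2 + x3 ^ 2) ≤ qform R x0 x1 x2 x3 := by
  obtain ⟨l, b, hl, hb1, hb2, hb3⟩ := exists_eigen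
    (A := fun s t => R (P s).1 (P s).2 (P t).1 (P t).2) (fun s t => hR.pair _ _ _ _)
  obtain ⟨t1, t2, t3, ht⟩ := exists_params x0 x1 x2 x3
  rw [qform_eq hR hb3 x0 x1 x2 x3 t1 t2 t3]
  have hc : ∀ i, curvOp R (form (b i)) = l i := by
    intro i
    rw [form_curv hR]
    simp only [hb3]
    have e1 : ∀ s, (∑ t, (∑ j, l j * (b j s * b j t)) * b i s * b i t)
        = ∑ j, l j * (b j s * b i s) * ∑ t, b j t * b i t := by
      intro s
      simp only [Finset.sum_mul, Finset.mul_sum]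
      rw [Finset.sum_comm]
      exact Finset.sum_congr rfl fun j _ => Finset.sum_congr rfl fun t _ => by ring
    simp only [e1, hb1]
    simp only [mul_ite, mul_one, mul_zero, Finset.sum_ite_eq', Finset.mem_univ, if_true]
    rw [← Finset.mul_sum, hb1]
    simp
  refine lp_bound hl (fun i => (ht (b i)).1) (fun i => ?_) ?_ (by positivity) ?_
  · have := (ht (b i)).2
    rw [hb1 i i] at this
    simpa using this
  · have hk : ∀ (c : ℝ) (s t : Fin 15), ∑ i, (c * (b i s * b i t))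
        = c * if s = t then 1 else 0 := by
      intro c s t
      rw [← hb2, Finset.mul_sum]
    simp only [Q, Finset.sum_add_distrib, hk]
    simp
    ring
  · have := h (fun a => form (b (![14, 13, 12, 11, 10] a))) ⟨fun a => form_two _, fun a c => by
      rw [form_inner, hb1]
      have hinj : ∀ a c : Fin 5, (![14, 13, 12, 11, 10] a : Fin 15) = ![14, 13, 12, 11, 10] c
          ↔ a = c := by decide
      simp only [hinj]⟩
    simp only [hc] at this
    simpa using this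

theorem bochner_low {R : Fin 6 → Fin 6 → Fin 6 → Fin 6 → ℝ} (hR : IsCurvature R) {κ : ℝ}
    (h : LowGE R κ) {φ : Fin 6 → Fin 6 → Fin 6 → ℝ} (hφ : IsThreeForm φ) :
    3 * κ * ∑ i, ∑ j, ∑ k, φ i j k ^ 2 ≤ bochner R φ := by
  obtain ⟨O, c, s, x0, x1, x2, x3, hO, hN⟩ := exists_normal hφ
  rw [← bochner_frame R φ hO, ← norm_frame φ hO, bochner_normal (hR.frame O) hN,
    norm_normal hN]
  have := qform_low (hR.frame O) (h.frame hO) x0 x1 x2 x3
  linarith

/-! ### Sharpness -/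

/-- the orthogonal projection onto the span of `e_1, e_2, e_4, e_5` -/
def pr (i j : Fin 6) : ℝ :=
  if i = 1 ∧ j = 1 then 1 else if i = 2 ∧ j = 2 then 1 else
  if i = 4 ∧ j = 4 then 1 else if i = 5 ∧ j = 5 then 1 else 0

theorem pr_symm (i j : Fin 6) : pr j i = pr i j := by
  fin_cases i <;> fin_cases j <;> simp [pr]

/-- A constant curvature tensor plus a multiple of the (self-dual) Weyl tensor of the complex
projective plane in four directions. Its curvature operator has the eigenvalues `-a` (twice),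
`2 a + 6` and `2` (twelve times). -/
noncomputable def exS (a : ℝ) (i j k l : Fin 6) : ℝ :=
  2 * (kd i k * kd j l - kd i l * kd j k)
    + (a + 2) / 2 * (om i k * om j l - om i l * om j k + 2 * (om i j * om k l)
      - (pr i k * pr j l - pr i l * pr j k))

theorem exS_curv (a : ℝ) : IsCurvature (exS a) := by
  constructor
  · intro i j k l
    unfold exS
    rw [om_skew i j]; ring
  · intro i j k l
    unfold exS
    rw [om_skew k l]; ring
  · intro i j k l
    have k1 : ∀ a b : Fin 6, kd a b = kd b a := by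
      intro a b; unfold kd; simp [eq_comm]
    unfold exS
    rw [om_skew i k, om_skew i j, om_skew j k, k1 j i, k1 k j, k1 k i, pr_symm i j, pr_symm j k,
      pr_symm i k]
    ring

theorem exS_form (a : ℝ) {α : Fin 6 → Fin 6 → ℝ} (h : IsTwoForm α) :
    curvOp (exS a) α = 2 * inner2 α α + (a + 2) * ((α 1 2 + α 4 5) ^ 2 - (α 1 4 - α 2 5) ^ 2 / 2
      - (α 1 5 + α 2 4) ^ 2 / 2) := by
  have s12 : ∀ i j : Fin 6, j < i → α i j = - α j i := fun i j _ => h j i
  have z : ∀ i : Fin 6, α i i = 0 := fun i => by have := h i i; linarith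
  unfold curvOp inner2 exS kd om pr
  simp only [Fin.sum_univ_six, Fin.isValue, Fin.reduceEq, ↓reduceIte, and_true, and_false,
    true_and, false_and]
  simp (decide := true) only [Fin.isValue, Fin.reduceLT, s12, z]
  ring

theorem bessel5 {ω : Fin 5 → Fin 6 → Fin 6 → ℝ}
    (h : ∀ a b, inner2 (ω a) (ω b) = if a = b then 1 else 0) (v : Fin 6 → Fin 6 → ℝ) :
    ∑ a, inner2 v (ω a) ^ 2 ≤ inner2 v v := by
  have h0 : 0 ≤ ∑ i, ∑ j, (v i j - ∑ a, inner2 v (ω a) * ω a i j) ^ 2 :=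
    Finset.sum_nonneg fun i _ => Finset.sum_nonneg fun j _ => sq_nonneg _
  have e1 : ∀ i j, (v i j - ∑ a, inner2 v (ω a) * ω a i j) ^ 2
      = v i j * v i j - 2 * (∑ a, inner2 v (ω a) * (v i j * ω a i j))
        + ∑ a, ∑ b, inner2 v (ω a) * inner2 v (ω b) * (ω a i j * ω b i j) := by
    intro i j
    have e2 : (∑ a, ∑ b, inner2 v (ω a) * inner2 v (ω b) * (ω a i j * ω b i j))
        = (∑ a, inner2 v (ω a) * ω a i j) * (∑ a, inner2 v (ω a) * ω a i j) := by
      rw [Finset.sum_mul]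
      refine Finset.sum_congr rfl fun a _ => ?_
      rw [Finset.mul_sum]
      exact Finset.sum_congr rfl fun b _ => by ring
    have e3 : (∑ a, inner2 v (ω a) * (v i j * ω a i j))
        = v i j * ∑ a, inner2 v (ω a) * ω a i j := by
      rw [Finset.mul_sum]
      exact Finset.sum_congr rfl fun b _ => by ring
    rw [e2, e3]; ring
  have swap : ∀ {ι : Type} [Fintype ι] (f : ι → Fin 6 → Fin 6 → ℝ),
      ∑ i, ∑ j, ∑ a, f a i j = ∑ a, ∑ i, ∑ j, f a i j := by
    intro ι _ f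
    have : ∀ i, (∑ j, ∑ a, f a i j) = ∑ a, ∑ j, f a i j := fun i => Finset.sum_comm
    simp only [this]
    exact Finset.sum_comm
  have i2 : ∀ α β : Fin 6 → Fin 6 → ℝ, ∑ i, ∑ j, α i j * β i j = 2 * inner2 α β := by
    intro α β; unfold inner2; ring
  simp only [e1, Finset.sum_add_distrib, Finset.sum_sub_distrib, ← Finset.mul_sum] at h0
  rw [swap, swap] at h0
  have e4 : ∀ a, (∑ i, ∑ j, inner2 v (ω a) * (v i j * ω a i j)) = 2 * inner2 v (ω a) ^ 2 := by
    intro a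
    simp only [← Finset.mul_sum]
    rw [i2]; ring
  have e5 : ∀ a, (∑ i, ∑ j, ∑ b, inner2 v (ω a) * inner2 v (ω b) * (ω a i j * ω b i j))
      = 2 * inner2 v (ω a) ^ 2 := by
    intro a
    rw [swap]
    simp only [← Finset.mul_sum]
    simp only [i2, h]
    simp
    ring
  simp only [e4, e5, i2, ← Finset.mul_sum] at h0
  have e6 : ∑ x, inner2 v (ω x) * (2 * inner2 v (ω x)) = 2 * ∑ x, inner2 v (ω x) ^ 2 := by
    rw [Finset.mul_sum]
    exact Finset.sum_congr rfl fun x _ => by ring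
  rw [e6] at h0
  linarith

theorem exS_pos {t a : ℝ} (h0 : 0 ≤ t) (h1 : t ≤ 1) (ha : -2 ≤ a) (hat : a < 2 + t)
    {ω : Fin 5 → Fin 6 → Fin 6 → ℝ} (h : Ortho5 ω) :
    0 < curvOp (exS a) (ω 0) + curvOp (exS a) (ω 1) + curvOp (exS a) (ω 2)
      + curvOp (exS a) (ω 3) + t * curvOp (exS a) (ω 4) := by
  let v1 : Fin 6 → Fin 6 → ℝ := fun i j =>
    if i = 1 ∧ j = 4 then 1 else if i = 4 ∧ j = 1 then -1 else
    if i = 2 ∧ j = 5 then -1 else if i = 5 ∧ j = 2 then 1 else 0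
  let v2 : Fin 6 → Fin 6 → ℝ := fun i j =>
    if i = 1 ∧ j = 5 then 1 else if i = 5 ∧ j = 1 then -1 else
    if i = 2 ∧ j = 4 then 1 else if i = 4 ∧ j = 2 then -1 else 0
  have b1 := bessel5 h.2 v1
  have b2 := bessel5 h.2 v2
  have n1 : inner2 v1 v1 = 2 := by
    unfold inner2
    simp [Fin.sum_univ_six, v1]
    norm_num
  have n2 : inner2 v2 v2 = 2 := by
    unfold inner2
    simp [Fin.sum_univ_six, v2]
    norm_num
  have c1 : ∀ a, inner2 v1 (ω a) = ω a 1 4 - ω a 2 5 := by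
    intro a
    unfold inner2
    simp [Fin.sum_univ_six, v1]
    rw [h.1 a 1 4, h.1 a 2 5]
    ring
  have c2 : ∀ a, inner2 v2 (ω a) = ω a 1 5 + ω a 2 4 := by
    intro a
    unfold inner2
    simp [Fin.sum_univ_six, v2]
    rw [h.1 a 1 5, h.1 a 2 4]
    ring
  simp only [c1, n1, Fin.sum_univ_five] at b1
  simp only [c2, n2, Fin.sum_univ_five] at b2
  have e : ∀ i, 2 - (a + 2) / 2 * ((ω i 1 4 - ω i 2 5) ^ 2 + (ω i 1 5 + ω i 2 4) ^ 2)
      ≤ curvOp (exS a) (ω i) := by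
    intro i
    rw [exS_form a (h.1 i), h.2 i i]
    simp only [if_true]
    linarith [mul_nonneg (by linarith : 0 ≤ a + 2) (sq_nonneg (ω i 1 2 + ω i 4 5))]
  have e4 := mul_le_mul_of_nonneg_left (e 4) h0
  have f := mul_nonneg (mul_nonneg (by linarith : 0 ≤ a + 2) (sub_nonneg.mpr h1))
    (add_nonneg (sq_nonneg (ω 4 1 4 - ω 4 2 5)) (sq_nonneg (ω 4 1 5 + ω 4 2 4)))
  have g := mul_le_mul_of_nonneg_left (add_le_add b1 b2) (by linarith : 0 ≤ a + 2)
  linarith [e 0, e 1, e 2, e 3]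

theorem exS_value {a : ℝ} (ha : 5 / 2 < a) : bochner (exS a) exφ < 0 := by
  rw [bochner_normal (exS_curv a) exφ_normal]
  unfold qform K exS
  simp [kd, om, pr]
  linarith

/-- (1) If the curvature operator of an algebraic curvature tensor `R` on `ℝ⁶` has eigenvalues
`λ₁ ≤ λ₂ ≤ …` with `λ₁ + λ₂ + λ₃ + λ₄ + λ₅ / 2 ≥ 9/2 κ` (stated without eigenvalues: for every
orthonormal 5-tuple of 2-forms), then
`Ric_{ij} φ_{ikl} φ_{jkl} - R_{ijkl} φ_{ijm} φ_{klm} ≥ 3 κ ∑ φ_{ijk}²` for all 3-forms `φ`.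
In particular, the left side is positive for `φ ≠ 0` if the curvature operator is 4-positive.
(2) The weight `1/2` is optimal: for `1/2 < t ≤ 1` (in particular for `t = 1`, the case of a
5-positive curvature operator), positivity of `λ₁ + λ₂ + λ₃ + λ₄ + t λ₅` does not imply that
the left side is nonnegative. -/
theorem result :
    (∀ (κ : ℝ) (R : Fin 6 → Fin 6 → Fin 6 → Fin 6 → ℝ) (φ : Fin 6 → Fin 6 → Fin 6 → ℝ),
      IsCurvature R → LowGE R κ → IsThreeForm φ →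
        3 * κ * ∑ i, ∑ j, ∑ k, φ i j k ^ 2 ≤ bochner R φ) ∧
    (∀ t : ℝ, 1 / 2 < t → t ≤ 1 →
      ∃ (R : Fin 6 → Fin 6 → Fin 6 → Fin 6 → ℝ) (φ : Fin 6 → Fin 6 → Fin 6 → ℝ),
        IsCurvature R ∧
        (∀ ω : Fin 5 → Fin 6 → Fin 6 → ℝ, Ortho5 ω → 0 < curvOp R (ω 0) + curvOp R (ω 1)
          + curvOp R (ω 2) + curvOp R (ω 3) + t * curvOp R (ω 4)) ∧
        IsThreeForm φ ∧ bochner R φ < 0) :=
  ⟨fun _ _ _ hR h hφ => bochner_low hR h hφ, fun t h0 h1 =>
    ⟨exS ((9 / 2 + t) / 2), exφ, exS_curv _,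
      fun _ h => exS_pos (by linarith) h1 (by linarith) (by linarith) h, exφ_form,
      exS_value (by linarith)⟩⟩

end Pool.Agent.Results.MP_4a593f_gt.FourPositive
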