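import Pool.Agent.Lib.MP_4a593f_gt.Defs

/-!
Invariance of the Bochner curvature term under a change of orthonormal frame.
-/

namespace Pool.HopfSix

open Finset

/-- `φ(u,v,w)` for vectors. -/
def ev3 (φ : Fin 6 → Fin 6 → Fin 6 → ℝ) (u v w : Vec) : ℝ :=
  ∑ i, ∑ j, ∑ k, φ i j k * u i * v j * w k

/-! ### Linear functions -/

/-- linear function of a vector -/
def Lin (g : Vec → ℝ) : Prop :=
  (∀ x y, g (x + y) = g x + g y) ∧ ∀ (c : ℝ) (x : Vec), g (c • x) = c * g x

/-- the standard basis -/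
def bas (i : Fin 6) : Vec := Pi.single i 1

theorem Lin.sum {ι : Type*} {s : Finset ι} {g : ι → Vec → ℝ} (h : ∀ i, Lin (g i)) :
    Lin (fun x => ∑ i ∈ s, g i x) := by
  refine ⟨fun x y => ?_, fun c x => ?_⟩
  · rw [← Finset.sum_add_distrib]
    exact Finset.sum_congr rfl fun i _ => (h i).1 x y
  · rw [Finset.mul_sum]
    exact Finset.sum_congr rfl fun i _ => (h i).2 c x

theorem Lin.mul_const {g : Vec → ℝ} (h : Lin g) (c : ℝ) : Lin (fun x => g x * c) :=
  ⟨fun x y => by simp only [h.1]; ring, fun d x => by simp only [h.2]; ring⟩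

theorem Lin.const_mul {g : Vec → ℝ} (h : Lin g) (c : ℝ) : Lin (fun x => c * g x) :=
  ⟨fun x y => by simp only [h.1]; ring, fun d x => by simp only [h.2]; ring⟩

theorem Lin.coord (i : Fin 6) : Lin (fun x => x i) :=
  ⟨fun _ _ => rfl, fun _ _ => rfl⟩

theorem Lin.zero {g : Vec → ℝ} (h : Lin g) : g 0 = 0 := by
  have := h.2 0 0
  simpa using this

theorem Lin.map_sum {g : Vec → ℝ} (h : Lin g) {ι : Type*} (s : Finset ι) (c : ι → ℝ)
    (v : ι → Vec) : g (∑ i ∈ s, c i • v i) = ∑ i ∈ s, c i * g (v i) := by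
  classical
  induction s using Finset.induction_on with
  | empty => simpa using h.zero
  | insert a s ha ih => rw [Finset.sum_insert ha, Finset.sum_insert ha, h.1, h.2, ih]

theorem vec_eq (x : Vec) : x = ∑ i, x i • bas i := by
  ext j
  simp [bas, Finset.sum_apply, Pi.single_apply]

theorem Lin.expand {g : Vec → ℝ} (h : Lin g) (x : Vec) : g x = ∑ i, x i * g (bas i) := by
  conv_lhs => rw [vec_eq x]
  exact h.map_sum _ _ _

theorem ev4_lin1 (R : Fin 6 → Fin 6 → Fin 6 → Fin 6 → ℝ) (v w z : Vec) :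
    Lin (fun x => ev4 R x v w z) := by
  unfold ev4
  refine Lin.sum fun i => Lin.sum fun j => Lin.sum fun k => Lin.sum fun l => ?_
  exact (((Lin.coord i).const_mul _).mul_const _ |>.mul_const _ |>.mul_const _)

theorem ev4_lin2 (R : Fin 6 → Fin 6 → Fin 6 → Fin 6 → ℝ) (u w z : Vec) :
    Lin (fun x => ev4 R u x w z) := by
  unfold ev4
  refine Lin.sum fun i => Lin.sum fun j => Lin.sum fun k => Lin.sum fun l => ?_
  exact (((Lin.coord j).const_mul _).mul_const _ |>.mul_const _)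

theorem ev4_lin3 (R : Fin 6 → Fin 6 → Fin 6 → Fin 6 → ℝ) (u v z : Vec) :
    Lin (fun x => ev4 R u v x z) := by
  unfold ev4
  refine Lin.sum fun i => Lin.sum fun j => Lin.sum fun k => Lin.sum fun l => ?_
  exact (((Lin.coord k).const_mul _).mul_const _)

theorem ev4_lin4 (R : Fin 6 → Fin 6 → Fin 6 → Fin 6 → ℝ) (u v w : Vec) :
    Lin (fun x => ev4 R u v w x) := by
  unfold ev4
  refine Lin.sum fun i => Lin.sum fun j => Lin.sum fun k => Lin.sum fun l => ?_
  exact (Lin.coord l).const_mul _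

theorem ev3_lin1 (φ : Fin 6 → Fin 6 → Fin 6 → ℝ) (v w : Vec) :
    Lin (fun x => ev3 φ x v w) := by
  unfold ev3
  refine Lin.sum fun i => Lin.sum fun j => Lin.sum fun k => ?_
  exact (((Lin.coord i).const_mul _).mul_const _ |>.mul_const _)

theorem ev3_lin2 (φ : Fin 6 → Fin 6 → Fin 6 → ℝ) (u w : Vec) :
    Lin (fun x => ev3 φ u x w) := by
  unfold ev3
  refine Lin.sum fun i => Lin.sum fun j => Lin.sum fun k => ?_
  exact (((Lin.coord j).const_mul _).mul_const _)

theorem ev3_lin3 (φ : Fin 6 → Fin 6 → Fin 6 → ℝ) (u v : Vec) :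
    Lin (fun x => ev3 φ u v x) := by
  unfold ev3
  refine Lin.sum fun i => Lin.sum fun j => Lin.sum fun k => ?_
  exact (Lin.coord k).const_mul _

theorem ev4_bas (R : Fin 6 → Fin 6 → Fin 6 → Fin 6 → ℝ) (i j k l : Fin 6) :
    ev4 R (bas i) (bas j) (bas k) (bas l) = R i j k l := by
  simp [ev4, bas, Pi.single_apply]

theorem ev3_bas (φ : Fin 6 → Fin 6 → Fin 6 → ℝ) (i j k : Fin 6) :
    ev3 φ (bas i) (bas j) (bas k) = φ i j k := by
  simp [ev3, bas, Pi.single_apply]

/-! ### Orthonormal frames -/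

/-- `O 0, …, O 5` is an orthonormal frame of `ℝ⁶`. -/
def IsFrame (O : Fin 6 → Vec) : Prop := ∀ a b, dot (O a) (O b) = if a = b then 1 else 0

theorem IsFrame.cols {O : Fin 6 → Vec} (h : IsFrame O) (i j : Fin 6) :
    ∑ a, O a i * O a j = if i = j then 1 else 0 := by
  have h1 : (Matrix.of O) * (Matrix.of O).transpose = 1 := by
    ext a b
    rw [Matrix.mul_apply, Matrix.one_apply]
    simpa [dot] using h a b
  have h2 : (Matrix.of O).transpose * (Matrix.of O) = 1 := by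
    exact mul_eq_one_comm.mp h1
  have h3 := congrFun (congrFun h2 i) j
  rw [Matrix.mul_apply, Matrix.one_apply] at h3
  simpa using h3

/-- A contraction does not depend on the orthonormal frame. -/
theorem contr {O : Fin 6 → Vec} (h : IsFrame O) {f : Vec → Vec → ℝ}
    (h1 : ∀ y, Lin (fun x => f x y)) (h2 : ∀ x, Lin (f x)) :
    ∑ a, f (O a) (O a) = ∑ i, f (bas i) (bas i) := by
  have e1 : ∀ a, f (O a) (O a) = ∑ i, ∑ j, (O a i * O a j) * f (bas i) (bas j) := by
    intro a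
    rw [(h1 (O a)).expand (O a)]
    refine Finset.sum_congr rfl fun i _ => ?_
    rw [(h2 (bas i)).expand (O a), Finset.mul_sum]
    refine Finset.sum_congr rfl fun j _ => by ring
  simp only [e1]
  rw [Finset.sum_comm]
  refine Finset.sum_congr rfl fun i _ => ?_
  rw [Finset.sum_comm]
  have e2 : ∀ j, ∑ a, O a i * O a j * f (bas i) (bas j)
      = if i = j then f (bas i) (bas j) else 0 := by
    intro j
    rw [← Finset.sum_mul, h.cols i j]
    split_ifs <;> simp
  simp only [e2]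
  simp

/-- Components of `R` in the frame `O`. -/
def pull4 (R : Fin 6 → Fin 6 → Fin 6 → Fin 6 → ℝ) (O : Fin 6 → Vec) :
    Fin 6 → Fin 6 → Fin 6 → Fin 6 → ℝ := fun a b c d => ev4 R (O a) (O b) (O c) (O d)

/-- Components of `φ` in the frame `O`. -/
def pull3 (φ : Fin 6 → Fin 6 → Fin 6 → ℝ) (O : Fin 6 → Vec) :
    Fin 6 → Fin 6 → Fin 6 → ℝ := fun a b c => ev3 φ (O a) (O b) (O c)

theorem bochner_frame (R : Fin 6 → Fin 6 → Fin 6 → Fin 6 → ℝ) (φ : Fin 6 → Fin 6 → Fin 6 → ℝ)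
    {O : Fin 6 → Vec} (h : IsFrame O) :
    bochner (pull4 R O) (pull3 φ O) = bochner R φ := by
  -- Ricci as a function of vectors
  have hRic : ∀ x y, ∑ b, ev4 R x (O b) y (O b) = ∑ b, ev4 R x (bas b) y (bas b) := by
    intro x y
    exact contr h (f := fun u v => ev4 R x u y v) (fun v => ev4_lin2 R x y v)
      (fun u => ev4_lin4 R x u y)
  have hS : ∀ x y, ∑ k, ∑ l, ev3 φ x (O k) (O l) * ev3 φ y (O k) (O l)
      = ∑ k, ∑ l, ev3 φ x (bas k) (bas l) * ev3 φ y (bas k) (bas l) := by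
    intro x y
    have e1 : ∀ k, ∑ l, ev3 φ x (O k) (O l) * ev3 φ y (O k) (O l)
        = ∑ l, ev3 φ x (O k) (bas l) * ev3 φ y (O k) (bas l) := fun k =>
      contr h (f := fun u v => ev3 φ x (O k) u * ev3 φ y (O k) v)
        (fun v => (ev3_lin3 φ x (O k)).mul_const _) (fun u => (ev3_lin3 φ y (O k)).const_mul _)
    simp only [e1]
    exact contr h (f := fun u v => ∑ l, ev3 φ x u (bas l) * ev3 φ y v (bas l))
      (fun v => Lin.sum fun l => (ev3_lin2 φ x (bas l)).mul_const _)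
      (fun u => Lin.sum fun l => (ev3_lin2 φ y (bas l)).const_mul _)
  have t1 : (∑ i, ∑ j, ricci (pull4 R O) i j * ∑ k, ∑ l, pull3 φ O i k l * pull3 φ O j k l)
      = ∑ i, ∑ j, ricci R i j * ∑ k, ∑ l, φ i k l * φ j k l := by
    have e0 : ∀ i j, ricci (pull4 R O) i j * ∑ k, ∑ l, pull3 φ O i k l * pull3 φ O j k l
        = (∑ b, ev4 R (O i) (bas b) (O j) (bas b)) *
          ∑ k, ∑ l, ev3 φ (O i) (bas k) (bas l) * ev3 φ (O j) (bas k) (bas l) := by
      intro i j
      rw [← hRic, ← hS]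
      rfl
    simp only [e0]
    have e1 : ∀ i, (∑ j, (∑ b, ev4 R (O i) (bas b) (O j) (bas b)) *
          ∑ k, ∑ l, ev3 φ (O i) (bas k) (bas l) * ev3 φ (O j) (bas k) (bas l))
        = ∑ j, (∑ b, ev4 R (O i) (bas b) (bas j) (bas b)) *
          ∑ k, ∑ l, ev3 φ (O i) (bas k) (bas l) * ev3 φ (bas j) (bas k) (bas l) := fun i =>
      contr h (f := fun u v => (∑ b, ev4 R (O i) (bas b) u (bas b)) *
          ∑ k, ∑ l, ev3 φ (O i) (bas k) (bas l) * ev3 φ v (bas k) (bas l))
        (fun v => (Lin.sum fun b => ev4_lin3 R (O i) (bas b) (bas b)).mul_const _)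
        (fun u => (Lin.sum fun k => Lin.sum fun l =>
          (ev3_lin1 φ (bas k) (bas l)).const_mul _).const_mul _)
    simp only [e1]
    have e2 := contr h (f := fun u v => ∑ j, (∑ b, ev4 R u (bas b) (bas j) (bas b)) *
          ∑ k, ∑ l, ev3 φ v (bas k) (bas l) * ev3 φ (bas j) (bas k) (bas l))
        (fun v => Lin.sum fun j => (Lin.sum fun b => ev4_lin1 R (bas b) (bas j) (bas b)).mul_const _)
        (fun u => Lin.sum fun j => (Lin.sum fun k => Lin.sum fun l =>
          (ev3_lin1 φ (bas k) (bas l)).mul_const _).const_mul _)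

    rw [e2]
    simp only [ev4_bas, ev3_bas]
    rfl
  have t2 : (∑ m, ∑ i, ∑ j, ∑ k, ∑ l, pull4 R O i j k l * pull3 φ O i j m * pull3 φ O k l m)
      = ∑ m, ∑ i, ∑ j, ∑ k, ∑ l, R i j k l * φ i j m * φ k l m := by
    have e1 : ∀ m i j k, (∑ l, ev4 R (O i) (O j) (O k) (O l) * ev3 φ (O i) (O j) (O m)
          * ev3 φ (O k) (O l) (O m))
        = ∑ l, ev4 R (O i) (O j) (O k) (bas l) * ev3 φ (O i) (O j) (O m)
          * ev3 φ (O k) (bas l) (O m) := fun m i j k =>
      contr h (f := fun u v => ev4 R (O i) (O j) (O k) u * ev3 φ (O i) (O j) (O m)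
          * ev3 φ (O k) v (O m))
        (fun v => ((ev4_lin4 R (O i) (O j) (O k)).mul_const _).mul_const _)
        (fun u => (ev3_lin2 φ (O k) (O m)).const_mul _)
    have e2 : ∀ m i j, (∑ k, ∑ l, ev4 R (O i) (O j) (O k) (bas l) * ev3 φ (O i) (O j) (O m)
          * ev3 φ (O k) (bas l) (O m))
        = ∑ k, ∑ l, ev4 R (O i) (O j) (bas k) (bas l) * ev3 φ (O i) (O j) (O m)
          * ev3 φ (bas k) (bas l) (O m) := fun m i j =>
      contr h (f := fun u v => ∑ l, ev4 R (O i) (O j) u (bas l) * ev3 φ (O i) (O j) (O m)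
          * ev3 φ v (bas l) (O m))
        (fun v => Lin.sum fun l => ((ev4_lin3 R (O i) (O j) (bas l)).mul_const _).mul_const _)
        (fun u => Lin.sum fun l => (ev3_lin1 φ (bas l) (O m)).const_mul _)
    have e3 : ∀ m i, (∑ j, ∑ k, ∑ l, ev4 R (O i) (O j) (bas k) (bas l) * ev3 φ (O i) (O j) (O m)
          * ev3 φ (bas k) (bas l) (O m))
        = ∑ j, ∑ k, ∑ l, ev4 R (O i) (bas j) (bas k) (bas l) * ev3 φ (O i) (bas j) (O m)
          * ev3 φ (bas k) (bas l) (O m) := fun m i =>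
      contr h (f := fun u v => ∑ k, ∑ l, ev4 R (O i) u (bas k) (bas l) * ev3 φ (O i) v (O m)
          * ev3 φ (bas k) (bas l) (O m))
        (fun v => Lin.sum fun k => Lin.sum fun l =>
          ((ev4_lin2 R (O i) (bas k) (bas l)).mul_const _).mul_const _)
        (fun u => Lin.sum fun k => Lin.sum fun l =>
          ((ev3_lin2 φ (O i) (O m)).const_mul _).mul_const _)
    have e4 : ∀ m, (∑ i, ∑ j, ∑ k, ∑ l, ev4 R (O i) (bas j) (bas k) (bas l)
          * ev3 φ (O i) (bas j) (O m) * ev3 φ (bas k) (bas l) (O m))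
        = ∑ i, ∑ j, ∑ k, ∑ l, ev4 R (bas i) (bas j) (bas k) (bas l)
          * ev3 φ (bas i) (bas j) (O m) * ev3 φ (bas k) (bas l) (O m) := fun m =>
      contr h (f := fun u v => ∑ j, ∑ k, ∑ l, ev4 R u (bas j) (bas k) (bas l)
          * ev3 φ v (bas j) (O m) * ev3 φ (bas k) (bas l) (O m))
        (fun v => Lin.sum fun j => Lin.sum fun k => Lin.sum fun l =>
          ((ev4_lin1 R (bas j) (bas k) (bas l)).mul_const _).mul_const _)
        (fun u => Lin.sum fun j => Lin.sum fun k => Lin.sum fun l =>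
          ((ev3_lin1 φ (bas j) (O m)).const_mul _).mul_const _)
    have e5 : (∑ m, ∑ i, ∑ j, ∑ k, ∑ l, ev4 R (bas i) (bas j) (bas k) (bas l)
          * ev3 φ (bas i) (bas j) (O m) * ev3 φ (bas k) (bas l) (O m))
        = ∑ m, ∑ i, ∑ j, ∑ k, ∑ l, ev4 R (bas i) (bas j) (bas k) (bas l)
          * ev3 φ (bas i) (bas j) (bas m) * ev3 φ (bas k) (bas l) (bas m) :=
      contr h (f := fun u v => ∑ i, ∑ j, ∑ k, ∑ l, ev4 R (bas i) (bas j) (bas k) (bas l)
          * ev3 φ (bas i) (bas j) u * ev3 φ (bas k) (bas l) v)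
        (fun v => Lin.sum fun i => Lin.sum fun j => Lin.sum fun k => Lin.sum fun l =>
          ((ev3_lin3 φ (bas i) (bas j)).const_mul _).mul_const _)
        (fun u => Lin.sum fun i => Lin.sum fun j => Lin.sum fun k => Lin.sum fun l =>
          (ev3_lin3 φ (bas k) (bas l)).const_mul _)
    unfold pull4 pull3
    simp only [e1, e2, e3, e4, e5]
    simp only [ev4_bas, ev3_bas]
  unfold bochner
  rw [t1, t2]

theorem norm_frame (φ : Fin 6 → Fin 6 → Fin 6 → ℝ) {O : Fin 6 → Vec} (h : IsFrame O) :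
    ∑ i, ∑ j, ∑ k, pull3 φ O i j k ^ 2 = ∑ i, ∑ j, ∑ k, φ i j k ^ 2 := by
  have e1 : ∀ i j, (∑ k, ev3 φ (O i) (O j) (O k) ^ 2)
      = ∑ k, ev3 φ (O i) (O j) (bas k) ^ 2 := by
    intro i j
    simp only [sq]
    exact contr h (f := fun u v => ev3 φ (O i) (O j) u * ev3 φ (O i) (O j) v)
      (fun v => (ev3_lin3 φ (O i) (O j)).mul_const _)
      (fun u => (ev3_lin3 φ (O i) (O j)).const_mul _)
  have e2 : ∀ i, (∑ j, ∑ k, ev3 φ (O i) (O j) (bas k) ^ 2)
      = ∑ j, ∑ k, ev3 φ (O i) (bas j) (bas k) ^ 2 := by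
    intro i
    simp only [sq]
    exact contr h (f := fun u v => ∑ k, ev3 φ (O i) u (bas k) * ev3 φ (O i) v (bas k))
      (fun v => Lin.sum fun k => (ev3_lin2 φ (O i) (bas k)).mul_const _)
      (fun u => Lin.sum fun k => (ev3_lin2 φ (O i) (bas k)).const_mul _)
  have e3 : (∑ i, ∑ j, ∑ k, ev3 φ (O i) (bas j) (bas k) ^ 2)
      = ∑ i, ∑ j, ∑ k, ev3 φ (bas i) (bas j) (bas k) ^ 2 := by
    simp only [sq]
    exact contr h (f := fun u v => ∑ j, ∑ k, ev3 φ u (bas j) (bas k) * ev3 φ v (bas j) (bas k))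
      (fun v => Lin.sum fun j => Lin.sum fun k => (ev3_lin1 φ (bas j) (bas k)).mul_const _)
      (fun u => Lin.sum fun j => Lin.sum fun k => (ev3_lin1 φ (bas j) (bas k)).const_mul _)
  unfold pull3
  simp only [e1, e2, e3, ev3_bas]

end Pool.HopfSix
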