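import Mathlib

set_option autoImplicit false
set_option linter.unusedSimpArgs false
set_option linter.unusedVariables false

namespace Pool.Agent.Lib.MP_4a593f_gt.HypersurfacePinching

/-- Algebraic curvature tensors: four-linear, skew in the first two arguments, symmetric under
exchange of the two pairs, first Bianchi identity.  (Linearity in the first argument and the
symmetries give linearity in every argument.)  The sectional curvature of an orthonormal pair
`x, y` is `R x y x y`. -/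
structure IsCurvatureTensor {V : Type*} [AddCommGroup V] [Module ℝ V]
    (R : V → V → V → V → ℝ) : Prop where
  add_left : ∀ x x' y z w, R (x + x') y z w = R x y z w + R x' y z w
  smul_left : ∀ (t : ℝ) (x y z w : V), R (t • x) y z w = t * R x y z w
  skew : ∀ x y z w, R x y z w = -R y x z w
  pair : ∀ x y z w, R x y z w = R z w x y
  bianchi : ∀ x y z w, R x y z w + R y z x w + R z x y w = 0

/-- The Kulkarni-Nomizu product of two bilinear forms. -/
def kn {V : Type*} [AddCommGroup V] [Module ℝ V] (a b : LinearMap.BilinForm ℝ V)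
    (x y z w : V) : ℝ :=
  a x z * b y w + a y w * b x z - a x w * b y z - a y z * b x w

section eigen

theorem exists_eigen (B : EuclideanSpace ℝ (Fin 4) →ₗ[ℝ] EuclideanSpace ℝ (Fin 4) →ₗ[ℝ] ℝ)
    (hB : ∀ x y, B x y = B y x) :
    ∃ v : EuclideanSpace ℝ (Fin 4), ‖v‖ = 1 ∧ ∀ w, inner ℝ v w = 0 → B v w = 0 := by
  classical
  let S := Metric.sphere (0 : EuclideanSpace ℝ (Fin 4)) 1
  have hS : IsCompact S := isCompact_sphere _ _
  have hne : S.Nonempty := NormedSpace.sphere_nonempty.2 zero_le_one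
  let Q : EuclideanSpace ℝ (Fin 4) → ℝ := fun v => B v v
  have hQ : Continuous Q := by
    have h1 : Continuous (fun v : EuclideanSpace ℝ (Fin 4) => LinearMap.toContinuousLinearMap (B v)) := by
      have : (fun v : EuclideanSpace ℝ (Fin 4) => LinearMap.toContinuousLinearMap (B v))
          = ((LinearMap.toContinuousLinearMap : (EuclideanSpace ℝ (Fin 4) →ₗ[ℝ] ℝ) ≃ₗ[ℝ] _).toLinearMap ∘ₗ B) := rfl
      rw [this]
      exact LinearMap.continuous_of_finiteDimensional _
    exact h1.clm_apply continuous_id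
  obtain ⟨v, hv, hmax⟩ := hS.exists_isMaxOn hne hQ.continuousOn
  have hv1 : ‖v‖ = 1 := by simpa [S] using hv
  refine ⟨v, hv1, fun w hw => ?_⟩
  -- Q(v + t w) ≤ Q(v) (1 + t^2 |w|^2)
  have key : ∀ t : ℝ, 2 * t * B v w + t ^ 2 * B w w ≤ B v v * (t ^ 2 * ‖w‖ ^ 2) := by
    intro t
    have hn : ‖v + t • w‖ ^ 2 = 1 + t ^ 2 * ‖w‖ ^ 2 := by
      rw [norm_add_sq_real, inner_smul_right, hw, hv1, norm_smul, mul_pow, Real.norm_eq_abs,
        sq_abs]
      ring
    have hpos : 0 < ‖v + t • w‖ ^ 2 := by rw [hn]; positivity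
    have hpos' : 0 < ‖v + t • w‖ := by
      by_contra h
      have : ‖v + t • w‖ = 0 := le_antisymm (not_lt.1 h) (norm_nonneg _)
      rw [this] at hpos
      simp at hpos
    have hm := hmax (a := (‖v + t • w‖⁻¹) • (v + t • w)) (by
      simp only [S, mem_sphere_zero_iff_norm, norm_smul, norm_inv, norm_norm]
      exact inv_mul_cancel₀ hpos'.ne')
    simp only [Set.mem_ofPred_eq, Q, map_smul, LinearMap.smul_apply, smul_eq_mul] at hm
    have e1 : B (v + t • w) (v + t • w) = B v v + 2 * t * B v w + t ^ 2 * B w w := by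
      simp only [map_add, LinearMap.add_apply, map_smul, LinearMap.smul_apply, smul_eq_mul,
        hB w v]
      ring
    rw [e1] at hm
    have e2 : B v v + 2 * t * B v w + t ^ 2 * B w w ≤ B v v * ‖v + t • w‖ ^ 2 := by
      have h3 : ‖v + t • w‖⁻¹ * (‖v + t • w‖⁻¹ * (B v v + 2 * t * B v w + t ^ 2 * B w w))
          = (B v v + 2 * t * B v w + t ^ 2 * B w w) / ‖v + t • w‖ ^ 2 := by
        field_simp
      rw [h3, div_le_iff₀ hpos] at hm
      exact hm
    rw [hn] at e2
    linarith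
  by_contra hne0
  -- choose small t
  set β := B v w with hβ
  set γ := B v v * ‖w‖ ^ 2 - B w w with hγ
  have key2 : ∀ t : ℝ, 2 * t * β ≤ t ^ 2 * γ := by
    intro t
    have := key t
    rw [hγ]
    nlinarith
  have hγ0 : 0 < |γ| + 1 := by positivity
  have h5 := key2 (β / (|γ| + 1))
  have h6 : (β / (|γ| + 1)) ^ 2 * γ ≤ (β / (|γ| + 1)) ^ 2 * |γ| :=
    mul_le_mul_of_nonneg_left (le_abs_self _) (sq_nonneg _)
  have h7 : (β / (|γ| + 1)) ^ 2 * |γ| ≤ (β / (|γ| + 1)) ^ 2 * (|γ| + 1) :=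
    mul_le_mul_of_nonneg_left (by linarith) (sq_nonneg _)
  have h8 : (β / (|γ| + 1)) ^ 2 * (|γ| + 1) = β ^ 2 / (|γ| + 1) := by
    field_simp
  have h9 : 2 * (β / (|γ| + 1)) * β = 2 * (β ^ 2 / (|γ| + 1)) := by
    field_simp
  have h10 : 0 < β ^ 2 / (|γ| + 1) := by positivity
  linarith

end eigen

section frame

variable {V : Type*} [AddCommGroup V] [Module ℝ V]

/-- The rotated frame. -/
def rot (a b c d : ℝ) (e : Fin 4 → V) : Fin 4 → V :=
  ![a • e 0 - b • e 1 + c • e 2 - d • e 3,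
    b • e 0 + a • e 1 + d • e 2 + c • e 3,
    -(c • e 0) - d • e 1 + a • e 2 + b • e 3,
    d • e 0 - c • e 1 - b • e 2 + a • e 3]

theorem rot_zero (a b c d : ℝ) (e : Fin 4 → V) :
    rot a b c d e 0 = a • e 0 - b • e 1 + c • e 2 - d • e 3 := rfl
theorem rot_one (a b c d : ℝ) (e : Fin 4 → V) :
    rot a b c d e 1 = b • e 0 + a • e 1 + d • e 2 + c • e 3 := rfl
theorem rot_two (a b c d : ℝ) (e : Fin 4 → V) :
    rot a b c d e 2 = -(c • e 0) - d • e 1 + a • e 2 + b • e 3 := rfl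
theorem rot_three (a b c d : ℝ) (e : Fin 4 → V) :
    rot a b c d e 3 = d • e 0 - c • e 1 - b • e 2 + a • e 3 := rfl

/-- choice of the frame -/
theorem exists_rot (k : LinearMap.BilinForm ℝ V) (hk : ∀ x y, k x y = k y x) (σ : ℝ)
    (e : Fin 4 → V) : ∃ a b c d : ℝ, a ^ 2 + b ^ 2 + c ^ 2 + d ^ 2 = 1 ∧
      k (rot a b c d e 0) (rot a b c d e 2) + σ * k (rot a b c d e 1) (rot a b c d e 3) = 0 ∧
      k (rot a b c d e 0) (rot a b c d e 3) - σ * k (rot a b c d e 1) (rot a b c d e 2) = 0 := by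
  classical
  let p : Fin 4 → (EuclideanSpace ℝ (Fin 4) →ₗ[ℝ] ℝ) := fun i =>
    (EuclideanSpace.proj i : EuclideanSpace ℝ (Fin 4) →L[ℝ] ℝ).toLinearMap
  let Y1 : EuclideanSpace ℝ (Fin 4) →ₗ[ℝ] V :=
    (p 0).smulRight (e 0) - (p 1).smulRight (e 1) + (p 2).smulRight (e 2) - (p 3).smulRight (e 3)
  let Y2 : EuclideanSpace ℝ (Fin 4) →ₗ[ℝ] V :=
    (p 1).smulRight (e 0) + (p 0).smulRight (e 1) + (p 3).smulRight (e 2) + (p 2).smulRight (e 3)
  have hY1 : ∀ v, Y1 v = v 0 • e 0 - v 1 • e 1 + v 2 • e 2 - v 3 • e 3 := fun v => rfl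
  have hY2 : ∀ v, Y2 v = v 1 • e 0 + v 0 • e 1 + v 3 • e 2 + v 2 • e 3 := fun v => rfl
  let B : EuclideanSpace ℝ (Fin 4) →ₗ[ℝ] EuclideanSpace ℝ (Fin 4) →ₗ[ℝ] ℝ :=
    k.compl₁₂ Y1 Y1 + σ • k.compl₁₂ Y2 Y2
  have hB : ∀ v w, B v w = k (Y1 v) (Y1 w) + σ * k (Y2 v) (Y2 w) := fun v w => rfl
  obtain ⟨v, hv, hw⟩ := exists_eigen B (fun x y => by rw [hB, hB, hk (Y1 x), hk (Y2 x)])
  have hn : v 0 ^ 2 + v 1 ^ 2 + v 2 ^ 2 + v 3 ^ 2 = 1 := by
    have h1 := EuclideanSpace.norm_sq_eq v
    rw [hv, Fin.sum_univ_four] at h1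
    simp only [Real.norm_eq_abs, sq_abs] at h1
    linarith
  refine ⟨v 0, v 1, v 2, v 3, hn, ?_, ?_⟩
  · have h1 := hw (WithLp.toLp 2 ![-v 2, v 3, v 0, -v 1]) (by
      rw [PiLp.inner_apply, Fin.sum_univ_four]
      simp
      ring)
    rw [hB, hY1, hY2, hY1, hY2] at h1
    rw [rot_zero, rot_one, rot_two, rot_three]
    simp only [Matrix.cons_val] at h1
    have e1 : -(v 2 • e 0) - v 3 • e 1 + v 0 • e 2 + v 1 • e 3
        = -v 2 • e 0 - v 3 • e 1 + v 0 • e 2 - -v 1 • e 3 := by module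
    have e2 : v 3 • e 0 - v 2 • e 1 - v 1 • e 2 + v 0 • e 3
        = v 3 • e 0 + -v 2 • e 1 + -v 1 • e 2 + v 0 • e 3 := by module
    rw [e1, e2]
    exact h1
  · have h1 := hw (WithLp.toLp 2 ![-v 3, -v 2, v 1, v 0]) (by
      rw [PiLp.inner_apply, Fin.sum_univ_four]
      simp
      ring)
    rw [hB, hY1, hY2, hY1, hY2] at h1
    rw [rot_zero, rot_one, rot_two, rot_three]
    simp only [Matrix.cons_val] at h1
    have e1 : v 3 • e 0 - v 2 • e 1 - v 1 • e 2 + v 0 • e 3
        = -(-v 3 • e 0 - -v 2 • e 1 + v 1 • e 2 - v 0 • e 3) := by module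
    have e2 : -(v 2 • e 0) - v 3 • e 1 + v 0 • e 2 + v 1 • e 3
        = -v 2 • e 0 + -v 3 • e 1 + v 0 • e 2 + v 1 • e 3 := by module
    rw [e1, e2, map_neg]
    linarith

end frame

section curvature

variable {V : Type*} [AddCommGroup V] [Module ℝ V]

theorem kn_curv (a b : LinearMap.BilinForm ℝ V) (ha : ∀ x y, a x y = a y x)
    (hb : ∀ x y, b x y = b y x) : IsCurvatureTensor (kn a b) where
  add_left x x' y z w := by simp [kn]; ring
  smul_left t x y z w := by simp [kn]; ring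
  skew x y z w := by simp [kn]; ring
  pair x y z w := by
    simp only [kn]
    rw [ha z x, ha w y, ha z y, ha w x, hb z x, hb w y, hb z y, hb w x]
    ring
  bianchi x y z w := by
    simp only [kn]
    rw [ha y x, ha z x, ha z y, hb y x, hb z x, hb z y]
    ring

variable {R S : V → V → V → V → ℝ}

theorem IsCurvatureTensor.sub' (hR : IsCurvatureTensor R) (hS : IsCurvatureTensor S) (t : ℝ) :
    IsCurvatureTensor (fun x y z w => R x y z w - t * S x y z w) where
  add_left x x' y z w := by simp only [hR.add_left, hS.add_left]; ring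
  smul_left c x y z w := by simp only [hR.smul_left, hS.smul_left]; ring
  skew x y z w := by simp only [hR.skew x y z w, hS.skew x y z w]; ring
  pair x y z w := by simp only [hR.pair x y z w, hS.pair x y z w]
  bianchi x y z w := by
    have h1 := hR.bianchi x y z w
    have h2 := hS.bianchi x y z w
    linear_combination h1 - t * h2

namespace IsCurvatureTensor

variable (hR : IsCurvatureTensor R)
include hR

theorem neg1 (x y z w : V) : R (-x) y z w = -R x y z w := by
  have h := hR.smul_left (-1) x y z w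
  rw [neg_one_smul] at h
  linarith

theorem sub1 (x x' y z w : V) : R (x - x') y z w = R x y z w - R x' y z w := by
  rw [sub_eq_add_neg, hR.add_left, hR.neg1]
  ring

theorem add2 (x y y' z w : V) : R x (y + y') z w = R x y z w + R x y' z w := by
  rw [hR.skew, hR.add_left, hR.skew x y, hR.skew x y']
  ring

theorem smul2 (t : ℝ) (x y z w : V) : R x (t • y) z w = t * R x y z w := by
  rw [hR.skew, hR.smul_left, hR.skew x y]
  ring

theorem neg2 (x y z w : V) : R x (-y) z w = -R x y z w := by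
  rw [hR.skew, hR.neg1, hR.skew x y]

theorem sub2 (x y y' z w : V) : R x (y - y') z w = R x y z w - R x y' z w := by
  rw [sub_eq_add_neg, hR.add2, hR.neg2]
  ring

theorem add3 (x y z z' w : V) : R x y (z + z') w = R x y z w + R x y z' w := by
  rw [hR.pair, hR.add_left, hR.pair z w, hR.pair z' w]

theorem smul3 (t : ℝ) (x y z w : V) : R x y (t • z) w = t * R x y z w := by
  rw [hR.pair, hR.smul_left, hR.pair z w]

theorem sub3 (x y z z' w : V) : R x y (z - z') w = R x y z w - R x y z' w := by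
  rw [hR.pair, hR.sub1, hR.pair z w, hR.pair z' w]

theorem add4 (x y z w w' : V) : R x y z (w + w') = R x y z w + R x y z w' := by
  rw [hR.pair, hR.add2, hR.pair z w, hR.pair z w']

theorem smul4 (t : ℝ) (x y z w : V) : R x y z (t • w) = t * R x y z w := by
  rw [hR.pair, hR.smul2, hR.pair z w]

theorem sub4 (x y z w w' : V) : R x y z (w - w') = R x y z w - R x y z w' := by
  rw [hR.pair, hR.sub2, hR.pair z w, hR.pair z w']

theorem self_zero (x z w : V) : R x x z w = 0 := by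
  have := hR.skew x x z w
  linarith

theorem slot_a (a b c d : ℝ) (e : Fin 4 → V) (x y : V) :
    R (rot a b c d e 0) (rot a b c d e 2) x y - R (rot a b c d e 1) (rot a b c d e 3) x y
      = (a ^ 2 + b ^ 2 + c ^ 2 + d ^ 2) * (R (e 0) (e 2) x y - R (e 1) (e 3) x y) := by
  rw [rot_zero, rot_one, rot_two, rot_three]
  simp only [hR.add_left, hR.sub1, hR.neg1, hR.smul_left, hR.add2, hR.sub2, hR.neg2, hR.smul2,
    hR.self_zero, hR.skew (e 1) (e 0), hR.skew (e 2) (e 0), hR.skew (e 3) (e 0),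
    hR.skew (e 2) (e 1), hR.skew (e 3) (e 1), hR.skew (e 3) (e 2)]
  ring

theorem slot_b (a b c d : ℝ) (e : Fin 4 → V) (x y : V) :
    R (rot a b c d e 0) (rot a b c d e 3) x y + R (rot a b c d e 1) (rot a b c d e 2) x y
      = (a ^ 2 + b ^ 2 + c ^ 2 + d ^ 2) * (R (e 0) (e 3) x y + R (e 1) (e 2) x y) := by
  rw [rot_zero, rot_one, rot_two, rot_three]
  simp only [hR.add_left, hR.sub1, hR.neg1, hR.smul_left, hR.add2, hR.sub2, hR.neg2, hR.smul2,
    hR.self_zero, hR.skew (e 1) (e 0), hR.skew (e 2) (e 0), hR.skew (e 3) (e 0),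
    hR.skew (e 2) (e 1), hR.skew (e 3) (e 1), hR.skew (e 3) (e 2)]
  ring

theorem iso_eq (e : Fin 4 → V) :
    R (e 0) (e 2) (e 0) (e 2) + R (e 0) (e 3) (e 0) (e 3)
      + R (e 1) (e 2) (e 1) (e 2) + R (e 1) (e 3) (e 1) (e 3)
      - 2 * R (e 0) (e 1) (e 2) (e 3)
    = (R (e 0) (e 2) (e 0) (e 2) - R (e 1) (e 3) (e 0) (e 2))
      - (R (e 0) (e 2) (e 1) (e 3) - R (e 1) (e 3) (e 1) (e 3))
      + (R (e 0) (e 3) (e 0) (e 3) + R (e 1) (e 2) (e 0) (e 3))
      + (R (e 0) (e 3) (e 1) (e 2) + R (e 1) (e 2) (e 1) (e 2)) := by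
  have h1 := hR.bianchi (e 0) (e 1) (e 2) (e 3)
  have h2 := hR.skew (e 2) (e 0) (e 1) (e 3)
  have h3 := hR.pair (e 1) (e 3) (e 0) (e 2)
  have h4 := hR.pair (e 1) (e 2) (e 0) (e 3)
  linarith

theorem iso_rot (a b c d : ℝ) (h1 : a ^ 2 + b ^ 2 + c ^ 2 + d ^ 2 = 1) (e f : Fin 4 → V)
    (hf : f = rot a b c d e) :
    R (f 0) (f 2) (f 0) (f 2) + R (f 0) (f 3) (f 0) (f 3)
      + R (f 1) (f 2) (f 1) (f 2) + R (f 1) (f 3) (f 1) (f 3)
      - 2 * R (f 0) (f 1) (f 2) (f 3)
    = R (e 0) (e 2) (e 0) (e 2) + R (e 0) (e 3) (e 0) (e 3)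
      + R (e 1) (e 2) (e 1) (e 2) + R (e 1) (e 3) (e 1) (e 3)
      - 2 * R (e 0) (e 1) (e 2) (e 3) := by
  have ha : ∀ x y, R (f 0) (f 2) x y - R (f 1) (f 3) x y
      = R (e 0) (e 2) x y - R (e 1) (e 3) x y := by
    intro x y
    rw [hf, hR.slot_a, h1, one_mul]
  have hb : ∀ x y, R (f 0) (f 3) x y + R (f 1) (f 2) x y
      = R (e 0) (e 3) x y + R (e 1) (e 2) x y := by
    intro x y
    rw [hf, hR.slot_b, h1, one_mul]
  rw [hR.iso_eq f, hR.iso_eq e, ha, ha, hb, hb]
  have k1 := ha (e 0) (e 2)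
  have k2 := ha (e 1) (e 3)
  have k3 := hb (e 0) (e 3)
  have k4 := hb (e 1) (e 2)
  have p1 := hR.pair (e 0) (e 2) (f 0) (f 2)
  have p2 := hR.pair (e 0) (e 2) (f 1) (f 3)
  have p3 := hR.pair (e 1) (e 3) (f 0) (f 2)
  have p4 := hR.pair (e 1) (e 3) (f 1) (f 3)
  have p5 := hR.pair (e 0) (e 3) (f 0) (f 3)
  have p6 := hR.pair (e 0) (e 3) (f 1) (f 2)
  have p7 := hR.pair (e 1) (e 2) (f 0) (f 3)
  have p8 := hR.pair (e 1) (e 2) (f 1) (f 2)
  have q1 := hR.pair (e 1) (e 3) (e 0) (e 2)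
  have q2 := hR.pair (e 1) (e 2) (e 0) (e 3)
  linarith

theorem polar_a (u y w : V) :
    R u (y + w) u (y + w) - R u (y - w) u (y - w) = 4 * R u y u w := by
  simp only [hR.add2, hR.sub2, hR.add4, hR.sub4]
  have := hR.pair u w u y
  linarith

theorem polar_b (x y z w : V) :
    6 * R x y z w = (R (x + z) y (x + z) w - R (x - z) y (x - z) w)
      + (R (x - w) y (x - w) z - R (x + w) y (x + w) z) := by
  simp only [hR.add_left, hR.sub1, hR.add3, hR.sub3]
  have h1 := hR.bianchi x y z w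
  have h2 := hR.skew y z x w
  have h3 := hR.skew z x y w
  have h4 := hR.pair w y x z
  have h5 := hR.skew x z y w
  have h6 := hR.pair x z w y
  have h7 := hR.skew y w x z
  have h8 := hR.pair x z y w
  have h9 := hR.skew w y x z
  have h10 := hR.pair x y w z
  have h11 := hR.skew w z x y
  have h12 := hR.pair x y z w
  have h13 := hR.pair y w x z
  linarith

end IsCurvatureTensor

end curvature

section berger

variable {V : Type*} [NormedAddCommGroup V] [InnerProductSpace ℝ V]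

theorem rot_orthonormal (a b c d : ℝ) (h1 : a ^ 2 + b ^ 2 + c ^ 2 + d ^ 2 = 1) (e : Fin 4 → V)
    (he : Orthonormal ℝ e) : Orthonormal ℝ (rot a b c d e) := by
  have hin : ∀ i j, inner ℝ (e i) (e j) = if i = j then (1 : ℝ) else 0 :=
    orthonormal_iff_ite.1 he
  have h00 := hin 0 0
  have h01 := hin 0 1
  have h02 := hin 0 2
  have h03 := hin 0 3
  have h10 := hin 1 0
  have h11 := hin 1 1
  have h12 := hin 1 2
  have h13 := hin 1 3
  have h20 := hin 2 0
  have h21 := hin 2 1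
  have h22 := hin 2 2
  have h23 := hin 2 3
  have h30 := hin 3 0
  have h31 := hin 3 1
  have h32 := hin 3 2
  have h33 := hin 3 3
  rw [if_pos rfl] at h00 h11 h22 h33
  rw [if_neg (by decide)] at h01 h02 h03 h10 h12 h13 h20 h21 h23 h30 h31 h32
  rw [orthonormal_iff_ite]
  intro i j
  fin_cases i <;> fin_cases j
  all_goals
    simp only [rot, Fin.zero_eta, Fin.mk_one, Fin.reduceFinMk, Matrix.cons_val,
      inner_add_left, inner_add_right, inner_sub_left, inner_sub_right, real_inner_smul_left,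
      real_inner_smul_right, inner_neg_left, inner_neg_right, h00, h01, h02, h03, h10, h11, h12,
      h13, h20, h21, h22, h23, h30, h31, h32, h33, if_true]
  all_goals first
    | (rw [if_neg (by decide)]; ring)
    | linarith [h1]


theorem berger {S : V → V → V → V → ℝ} (hS : IsCurvatureTensor S) (a b : ℝ)
    (hab : ∀ x y : V, ‖x‖ = 1 → ‖y‖ = 1 → inner ℝ x y = 0 → a ≤ S x y x y ∧ S x y x y ≤ b)
    (e : Fin 4 → V) (he : Orthonormal ℝ e) :
    |S (e 0) (e 1) (e 2) (e 3)| ≤ 2 / 3 * (b - a) := by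
  have hin : ∀ i j, inner ℝ (e i) (e j) = if i = j then (1 : ℝ) else 0 :=
    orthonormal_iff_ite.1 he
  have h0 : (1 / √2 : ℝ) ^ 2 = 1 / 2 := by
    rw [div_pow, one_pow, Real.sq_sqrt (by norm_num)]
  set r : ℝ := 1 / √2 with hr
  have unit : ∀ x : V, inner ℝ x x = (2 : ℝ) → ‖r • x‖ = 1 := by
    intro x hx
    have h1 : ‖r • x‖ ^ 2 = 1 := by
      rw [← real_inner_self_eq_norm_sq, real_inner_smul_left, real_inner_smul_right, hx]
      nlinarith
    nlinarith [norm_nonneg (r • x)]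
  have key : ∀ u v : V, inner ℝ u u = (2 : ℝ) → inner ℝ v v = (2 : ℝ) → inner ℝ u v = (0 : ℝ) →
      4 * a ≤ S u v u v ∧ S u v u v ≤ 4 * b := by
    intro u v hu hv huv
    have h1 := hab (r • u) (r • v) (unit u hu) (unit v hv) (by
      rw [real_inner_smul_left, real_inner_smul_right, huv]; ring)
    have h2 : S (r • u) (r • v) (r • u) (r • v) = 1 / 4 * S u v u v := by
      rw [hS.smul_left, hS.smul2, hS.smul3, hS.smul4]
      have : r * (r * (r * (r * S u v u v))) = (r ^ 2) ^ 2 * S u v u v := by ring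
      rw [this, h0]
      ring
    rw [h2] at h1
    constructor <;> linarith [h1.1, h1.2]
  have t1 := hS.polar_b (e 0) (e 1) (e 2) (e 3)
  have t2 := hS.polar_a (e 0 + e 2) (e 1) (e 3)
  have t3 := hS.polar_a (e 0 - e 2) (e 1) (e 3)
  have t4 := hS.polar_a (e 0 - e 3) (e 1) (e 2)
  have t5 := hS.polar_a (e 0 + e 3) (e 1) (e 2)
  have g : ∀ u v : V, inner ℝ u u = (2 : ℝ) ∧ inner ℝ v v = (2 : ℝ) ∧ inner ℝ u v = (0 : ℝ) →
      4 * a ≤ S u v u v ∧ S u v u v ≤ 4 * b := fun u v h => key u v h.1 h.2.1 h.2.2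
  have k1 := g (e 0 + e 2) (e 1 + e 3) (by
    simp only [inner_add_left, inner_add_right, inner_sub_left, inner_sub_right, hin,
      Fin.isValue, Fin.reduceEq, if_true, if_false]
    norm_num)
  have k2 := g (e 0 + e 2) (e 1 - e 3) (by
    simp only [inner_add_left, inner_add_right, inner_sub_left, inner_sub_right, hin,
      Fin.isValue, Fin.reduceEq, if_true, if_false]
    norm_num)
  have k3 := g (e 0 - e 2) (e 1 + e 3) (by
    simp only [inner_add_left, inner_add_right, inner_sub_left, inner_sub_right, hin,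
      Fin.isValue, Fin.reduceEq, if_true, if_false]
    norm_num)
  have k4 := g (e 0 - e 2) (e 1 - e 3) (by
    simp only [inner_add_left, inner_add_right, inner_sub_left, inner_sub_right, hin,
      Fin.isValue, Fin.reduceEq, if_true, if_false]
    norm_num)
  have k5 := g (e 0 - e 3) (e 1 + e 2) (by
    simp only [inner_add_left, inner_add_right, inner_sub_left, inner_sub_right, hin,
      Fin.isValue, Fin.reduceEq, if_true, if_false]
    norm_num)
  have k6 := g (e 0 - e 3) (e 1 - e 2) (by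
    simp only [inner_add_left, inner_add_right, inner_sub_left, inner_sub_right, hin,
      Fin.isValue, Fin.reduceEq, if_true, if_false]
    norm_num)
  have k7 := g (e 0 + e 3) (e 1 + e 2) (by
    simp only [inner_add_left, inner_add_right, inner_sub_left, inner_sub_right, hin,
      Fin.isValue, Fin.reduceEq, if_true, if_false]
    norm_num)
  have k8 := g (e 0 + e 3) (e 1 - e 2) (by
    simp only [inner_add_left, inner_add_right, inner_sub_left, inner_sub_right, hin,
      Fin.isValue, Fin.reduceEq, if_true, if_false]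
    norm_num)
  rw [abs_le]
  constructor <;> linarith [k1.1, k1.2, k2.1, k2.2, k3.1, k3.2, k4.1, k4.2, k5.1, k5.2, k6.1,
    k6.2, k7.1, k7.2, k8.1, k8.2]

end berger

/-- **Main theorem.** Let `R` be an algebraic curvature tensor on a real inner product space,
`h`, `k` symmetric bilinear forms and `ε` real.  If the sectional curvatures of
`R - g ∧ h - (ε/2) k ∧ k` (Kulkarni-Nomizu products, `g` the inner product) lie in `[a, b]` and
all sectional curvatures of `R` are larger than `(b - a) / 3`, then `R` has positive isotropic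
curvature. -/
theorem result {V : Type*} [NormedAddCommGroup V] [InnerProductSpace ℝ V]
    (R : V → V → V → V → ℝ) (hR : IsCurvatureTensor R)
    (h k : LinearMap.BilinForm ℝ V) (hh : ∀ x y, h x y = h y x) (hk : ∀ x y, k x y = k y x)
    (ε a b : ℝ)
    (hab : ∀ x y : V, ‖x‖ = 1 → ‖y‖ = 1 → inner ℝ x y = 0 →
      a ≤ R x y x y - kn (innerₗ V) h x y x y - ε / 2 * kn k k x y x y ∧
      R x y x y - kn (innerₗ V) h x y x y - ε / 2 * kn k k x y x y ≤ b)
    (hsec : ∀ x y : V, ‖x‖ = 1 → ‖y‖ = 1 → inner ℝ x y = 0 → (b - a) / 3 < R x y x y)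
    (e : Fin 4 → V) (he : Orthonormal ℝ e) :
    0 < R (e 0) (e 2) (e 0) (e 2) + R (e 0) (e 3) (e 0) (e 3)
      + R (e 1) (e 2) (e 1) (e 2) + R (e 1) (e 3) (e 1) (e 3)
      - 2 * R (e 0) (e 1) (e 2) (e 3) := by
  set σ : ℝ := if 0 ≤ ε then 1 else -1 with hσ
  obtain ⟨a', b', c', d', hn, h02, h03⟩ := exists_rot k hk σ e
  set f := rot a' b' c' d' e with hf
  have hfo : Orthonormal ℝ f := rot_orthonormal a' b' c' d' hn e he
  rw [← hR.iso_rot a' b' c' d' hn e f hf]
  have hS1 : IsCurvatureTensor (fun x y z w => R x y z w - 1 * kn (innerₗ V) h x y z w) :=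
    hR.sub' (kn_curv (innerₗ V) h (fun x y => by
      simp only [innerₗ_apply_apply]; exact real_inner_comm _ _) hh) 1
  have hS : IsCurvatureTensor (fun x y z w => (R x y z w - 1 * kn (innerₗ V) h x y z w)
      - ε / 2 * kn k k x y z w) := hS1.sub' (kn_curv k k hk hk) (ε / 2)
  have hB := berger hS a b (fun x y hx hy hxy => by
    simp only [one_mul]
    exact hab x y hx hy hxy) f hfo
  simp only [one_mul] at hB
  have hin : ∀ i j, inner ℝ (f i) (f j) = if i = j then (1 : ℝ) else 0 :=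
    orthonormal_iff_ite.1 hfo
  have hg : kn (innerₗ V) h (f 0) (f 1) (f 2) (f 3) = 0 := by
    simp only [kn, innerₗ_apply_apply, hin]
    simp
  have hkk : 0 ≤ -(ε / 2 * kn k k (f 0) (f 1) (f 2) (f 3)) := by
    have e1 : kn k k (f 0) (f 1) (f 2) (f 3)
        = 2 * (k (f 0) (f 2) * k (f 1) (f 3) - k (f 0) (f 3) * k (f 1) (f 2)) := by
      simp only [kn]
      ring
    rw [e1]
    by_cases hε : 0 ≤ ε
    · have hσ1 : σ = 1 := by rw [hσ, if_pos hε]
      rw [hσ1] at h02 h03
      have hX : k (f 1) (f 3) = -k (f 0) (f 2) := by linarith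
      have hY : k (f 1) (f 2) = k (f 0) (f 3) := by linarith
      rw [hX, hY]
      nlinarith [mul_nonneg hε (sq_nonneg (k (f 0) (f 2))),
        mul_nonneg hε (sq_nonneg (k (f 0) (f 3)))]
    · have hσ1 : σ = -1 := by rw [hσ, if_neg hε]
      rw [hσ1] at h02 h03
      push Not at hε
      have hX : k (f 1) (f 3) = k (f 0) (f 2) := by linarith
      have hY : k (f 1) (f 2) = -k (f 0) (f 3) := by linarith
      rw [hX, hY]
      nlinarith [mul_nonneg (neg_nonneg.2 hε.le) (sq_nonneg (k (f 0) (f 2))),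
        mul_nonneg (neg_nonneg.2 hε.le) (sq_nonneg (k (f 0) (f 3)))]
  rw [hg] at hB
  have hB2 := (abs_le.1 hB).2
  have hnf : ∀ i, ‖f i‖ = 1 := hfo.1
  have g1 := hsec (f 0) (f 2) (hnf 0) (hnf 2) (hfo.2 (by decide))
  have g2 := hsec (f 0) (f 3) (hnf 0) (hnf 3) (hfo.2 (by decide))
  have g3 := hsec (f 1) (f 2) (hnf 1) (hnf 2) (hfo.2 (by decide))
  have g4 := hsec (f 1) (f 3) (hnf 1) (hnf 3) (hfo.2 (by decide))
  linarith

end Pool.Agent.Lib.MP_4a593f_gt.HypersurfacePinching
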