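import Pool.Agent.Lib.MP_4a593f_gt.Frame

/-!
Normal form of a 3-form on `ℝ⁶` with respect to frames and to the rotation
`cos θ φ + sin θ ⋆φ`, obtained by maximising a linear functional.
-/

namespace Pool.HopfSix

open Finset

theorem pull3_isThreeForm {φ : Fin 6 → Fin 6 → Fin 6 → ℝ} (h : IsThreeForm φ)
    (O : Fin 6 → Vec) : IsThreeForm (pull3 φ O) := by
  constructor
  · intro i j k
    show ev3 φ (O j) (O i) (O k) = - ev3 φ (O i) (O j) (O k)
    unfold ev3
    rw [Finset.sum_comm, ← Finset.sum_neg_distrib]
    refine Finset.sum_congr rfl fun a _ => ?_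
    rw [← Finset.sum_neg_distrib]
    refine Finset.sum_congr rfl fun b _ => ?_
    rw [← Finset.sum_neg_distrib]
    refine Finset.sum_congr rfl fun c _ => ?_
    rw [h.skew12 a b c]; ring
  · intro i j k
    show ev3 φ (O i) (O k) (O j) = - ev3 φ (O i) (O j) (O k)
    unfold ev3
    rw [← Finset.sum_neg_distrib]
    refine Finset.sum_congr rfl fun a _ => ?_
    rw [Finset.sum_comm, ← Finset.sum_neg_distrib]
    refine Finset.sum_congr rfl fun b _ => ?_
    rw [← Finset.sum_neg_distrib]
    refine Finset.sum_congr rfl fun c _ => ?_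
    rw [h.skew23 a b c]; ring

theorem IsThreeForm.zero12 {φ : Fin 6 → Fin 6 → Fin 6 → ℝ} (h : IsThreeForm φ) (i k : Fin 6) :
    φ i i k = 0 := by have := h.skew12 i i k; linarith

theorem IsThreeForm.zero23 {φ : Fin 6 → Fin 6 → Fin 6 → ℝ} (h : IsThreeForm φ) (i k : Fin 6) :
    φ i k k = 0 := by have := h.skew23 i k k; linarith

theorem IsThreeForm.zero13 {φ : Fin 6 → Fin 6 → Fin 6 → ℝ} (h : IsThreeForm φ) (i k : Fin 6) :
    φ i k i = 0 := by
  have h1 := h.skew12 i k i
  have h2 := h.zero23 k i
  linarith

/-- rotation of the frame in the plane of `O p, O q` -/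
def giv (O : Fin 6 → Vec) (p q : Fin 6) (u v : ℝ) : Fin 6 → Vec := fun i =>
  if i = p then u • O p + v • O q else if i = q then (-v) • O p + u • O q else O i

theorem dot_add_left (x y z : Vec) : dot (x + y) z = dot x z + dot y z := by
  simp [dot, add_mul, Finset.sum_add_distrib]

theorem dot_smul_left (c : ℝ) (x z : Vec) : dot (c • x) z = c * dot x z := by
  simp [dot, Finset.mul_sum, mul_assoc]

theorem dot_comm' (x y : Vec) : dot x y = dot y x := by
  simp [dot, mul_comm]

theorem dot_add_right (x y z : Vec) : dot z (x + y) = dot z x + dot z y := by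
  rw [dot_comm', dot_add_left, dot_comm' x, dot_comm' y]

theorem dot_smul_right (c : ℝ) (x z : Vec) : dot z (c • x) = c * dot z x := by
  rw [dot_comm', dot_smul_left, dot_comm' x]

theorem giv_frame {O : Fin 6 → Vec} (h : IsFrame O) {p q : Fin 6} (hpq : p ≠ q) {u v : ℝ}
    (huv : u ^ 2 + v ^ 2 = 1) : IsFrame (giv O p q u v) := by
  have hp := h p p
  have hq := h q q
  have hpq1 := h p q
  have hqp1 := h q p
  simp only [if_true] at hp hq
  rw [if_neg hpq] at hpq1
  rw [if_neg hpq.symm] at hqp1
  intro a b
  by_cases hap : a = p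
  · subst hap
    by_cases hbp : b = a
    · subst hbp
      simp only [giv, if_true, dot_add_left, dot_add_right, dot_smul_left, dot_smul_right, hp, hq,
        hpq1, hqp1]
      linarith [huv]
    · by_cases hbq : b = q
      · subst hbq
        simp only [giv, if_true, if_neg hbp, if_neg hpq, dot_add_left, dot_add_right,
          dot_smul_left, dot_smul_right, hp, hq, hpq1, hqp1]
        ring
      · have h1 := h a b
        have h2 := h q b
        rw [if_neg (Ne.symm hbp)] at h1
        rw [if_neg (Ne.symm hbq)] at h2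
        simp only [giv, if_true, if_neg hbp, if_neg hbq, dot_add_left, dot_smul_left, h1, h2,
          if_neg (Ne.symm hbp)]
        ring
  · by_cases haq : a = q
    · subst haq
      by_cases hbp : b = p
      · subst hbp
        simp only [giv, if_true, if_neg hap, dot_add_left, dot_add_right,
          dot_smul_left, dot_smul_right, hp, hq, hpq1, hqp1]
        ring
      · by_cases hbq : b = a
        · subst hbq
          simp only [giv, if_true, if_neg hap, dot_add_left, dot_add_right,
            dot_smul_left, dot_smul_right, hp, hq, hpq1, hqp1]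
          linarith [huv]
        · have h1 := h p b
          have h2 := h a b
          rw [if_neg (Ne.symm hbp)] at h1
          rw [if_neg (Ne.symm hbq)] at h2
          simp only [giv, if_true, if_neg hap, if_neg hbp, if_neg hbq, dot_add_left,
            dot_smul_left, h1, h2, if_neg (Ne.symm hbq)]
          ring
    · by_cases hbp : b = p
      · subst hbp
        have h1 := h a b
        have h2 := h a q
        rw [if_neg hap] at h1
        rw [if_neg haq] at h2
        simp only [giv, if_true, if_neg hap, if_neg haq, dot_add_right, dot_smul_right, h1, h2]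
        ring
      · by_cases hbq : b = q
        · subst hbq
          have h1 := h a b
          have h2 := h a p
          rw [if_neg haq] at h1
          rw [if_neg hap] at h2
          simp only [giv, if_true, if_neg hap, if_neg haq, if_neg hbp, dot_add_right,
            dot_smul_right, h1, h2]
          ring
        · simp only [giv, if_neg hap, if_neg haq, if_neg hbp, if_neg hbq]
          exact h a b

/-- infinitesimal rotation in the plane `p, q` -/
def rho (χ : Fin 6 → Fin 6 → Fin 6 → ℝ) (p q i j k : Fin 6) : ℝ :=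
  (if i = p then χ q j k else if i = q then - χ p j k else 0)
  + (if j = p then χ i q k else if j = q then - χ i p k else 0)
  + (if k = p then χ i j q else if k = q then - χ i j p else 0)

theorem giv_expand {φ : Fin 6 → Fin 6 → Fin 6 → ℝ} (h : IsThreeForm φ) (O : Fin 6 → Vec)
    {p q : Fin 6} (hpq : p ≠ q) {i j k : Fin 6} (hij : i ≠ j) (hik : i ≠ k) (hjk : j ≠ k) :
    ∃ B : ℝ, ∀ u v : ℝ, u ^ 2 + v ^ 2 = 1 → pull3 φ (giv O p q u v) i j k
      = pull3 φ O i j k - B + u * B + v * rho (pull3 φ O) p q i j k := by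
  have hχ := pull3_isThreeForm h O
  set χ := pull3 φ O with hχdef
  have l1a : ∀ x y v w, ev3 φ (x + y) v w = ev3 φ x v w + ev3 φ y v w :=
    fun x y v w => (ev3_lin1 φ v w).1 x y
  have l1b : ∀ (c : ℝ) x v w, ev3 φ (c • x) v w = c * ev3 φ x v w :=
    fun c x v w => (ev3_lin1 φ v w).2 c x
  have l2a : ∀ x y v w, ev3 φ v (x + y) w = ev3 φ v x w + ev3 φ v y w :=
    fun x y v w => (ev3_lin2 φ v w).1 x y
  have l2b : ∀ (c : ℝ) x v w, ev3 φ v (c • x) w = c * ev3 φ v x w :=
    fun c x v w => (ev3_lin2 φ v w).2 c x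
  have l3a : ∀ x y v w, ev3 φ v w (x + y) = ev3 φ v w x + ev3 φ v w y :=
    fun x y v w => (ev3_lin3 φ v w).1 x y
  have l3b : ∀ (c : ℝ) x v w, ev3 φ v w (c • x) = c * ev3 φ v w x :=
    fun c x v w => (ev3_lin3 φ v w).2 c x
  have hev : ∀ a b c, ev3 φ (O a) (O b) (O c) = χ a b c := fun a b c => rfl
  by_cases hip : i = p
  · subst hip
    by_cases hjq : j = q
    · subst hjq
      refine ⟨0, fun u v huv => ?_⟩
      have hki : k ≠ i := Ne.symm hik
      have hkj : k ≠ j := Ne.symm hjk
      have hji : j ≠ i := Ne.symm hij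
      simp only [pull3, giv, rho, if_true, if_neg hki, if_neg hkj, if_neg hji, l1a, l1b, l2a, l2b,
        hev]
      rw [hχ.zero12, hχ.zero12, hχ.skew12 i j k]
      linear_combination (χ i j k) * huv
    · by_cases hkq : k = q
      · subst hkq
        refine ⟨0, fun u v huv => ?_⟩
        have hki : k ≠ i := Ne.symm hik
        have hji : j ≠ i := Ne.symm hij
        simp only [pull3, giv, rho, if_true, if_neg hki, if_neg hjk, if_neg hji, l1a, l1b, l3a,
          l3b, hev]
        have e1 : χ k j i = - χ i j k := by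
          rw [hχ.skew12 j k i, hχ.skew23 j i k, hχ.skew12 i j k]; ring
        rw [hχ.zero13, hχ.zero13, e1]
        linear_combination (χ i j k) * huv
      · refine ⟨χ i j k, fun u v _ => ?_⟩
        have hki : k ≠ i := Ne.symm hik
        have hji : j ≠ i := Ne.symm hij
        simp only [pull3, giv, rho, if_true, if_neg hki, if_neg hkq, if_neg hjq, if_neg hji,
          l1a, l1b, hev]
        ring
  · by_cases hiq : i = q
    · subst hiq
      by_cases hjp : j = p
      · subst hjp
        refine ⟨0, fun u v huv => ?_⟩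
        have hki : k ≠ i := Ne.symm hik
        have hkj : k ≠ j := Ne.symm hjk
        simp only [pull3, giv, rho, if_true, if_neg hki, if_neg hkj, if_neg hij, l1a, l1b, l2a,
          l2b, hev]
        rw [hχ.zero12, hχ.zero12, hχ.skew12 i j k]
        linear_combination (χ i j k) * huv
      · by_cases hkp : k = p
        · subst hkp
          refine ⟨0, fun u v huv => ?_⟩
          have hji : j ≠ i := Ne.symm hij
          simp only [pull3, giv, rho, if_true, if_neg hik, if_neg hji, if_neg hjk, l1a, l1b, l3a,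
            l3b, hev]
          have e1 : χ k j i = - χ i j k := by
            rw [hχ.skew12 j k i, hχ.skew23 j i k, hχ.skew12 i j k]; ring
          rw [hχ.zero13, hχ.zero13, e1]
          linear_combination (χ i j k) * huv
        · refine ⟨χ i j k, fun u v _ => ?_⟩
          have hki : k ≠ i := Ne.symm hik
          have hji : j ≠ i := Ne.symm hij
          simp only [pull3, giv, rho, if_true, if_neg hki, if_neg hkp, if_neg hjp, if_neg hji,
            if_neg hip, l1a, l1b, hev]
          ring
    · by_cases hjp : j = p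
      · subst hjp
        by_cases hkq : k = q
        · subst hkq
          refine ⟨0, fun u v huv => ?_⟩
          have hkj : k ≠ j := Ne.symm hjk
          simp only [pull3, giv, rho, if_true, if_neg hip, if_neg hiq, if_neg hkj, l3a, l3b, l2a,
            l2b, hev]
          rw [hχ.zero23, hχ.zero23, hχ.skew23 i j k]
          linear_combination (χ i j k) * huv
        · refine ⟨χ i j k, fun u v _ => ?_⟩
          have hkj : k ≠ j := Ne.symm hjk
          simp only [pull3, giv, rho, if_true, if_neg hip, if_neg hiq, if_neg hkj, if_neg hkq,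
            l2a, l2b, hev]
          ring
      · by_cases hjq : j = q
        · subst hjq
          by_cases hkp : k = p
          · subst hkp
            refine ⟨0, fun u v huv => ?_⟩
            simp only [pull3, giv, rho, if_true, if_neg hip, if_neg hiq, if_neg hjk, l3a, l3b, l2a,
              l2b, hev]
            rw [hχ.zero23, hχ.zero23, hχ.skew23 i j k]
            linear_combination (χ i j k) * huv
          · refine ⟨χ i j k, fun u v _ => ?_⟩
            have hkj : k ≠ j := Ne.symm hjk
            simp only [pull3, giv, rho, if_true, if_neg hip, if_neg hiq, if_neg hkj, if_neg hkp,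
              if_neg hjp, l2a, l2b, hev]
            ring
        · by_cases hkp : k = p
          · subst hkp
            refine ⟨χ i j k, fun u v _ => ?_⟩
            simp only [pull3, giv, rho, if_true, if_neg hip, if_neg hiq, if_neg hjp, if_neg hjq,
              l3a, l3b, hev]
            ring
          · by_cases hkq : k = q
            · subst hkq
              refine ⟨χ i j k, fun u v _ => ?_⟩
              simp only [pull3, giv, rho, if_true, if_neg hip, if_neg hiq, if_neg hjp, if_neg hjq,
                if_neg hkp, l3a, l3b, hev]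
              ring
            · refine ⟨0, fun u v _ => ?_⟩
              simp only [pull3, giv, rho, if_neg hip, if_neg hiq, if_neg hjp, if_neg hjq,
                if_neg hkp, if_neg hkq, hev]
              ring

/-- the linear functional that is maximised -/
def obj (c s : ℝ) (χ : Fin 6 → Fin 6 → Fin 6 → ℝ) : ℝ :=
  c * (4 * χ 0 1 2 + 2 * χ 0 4 5 + χ 3 1 5) + s * (4 * χ 3 4 5 + 2 * χ 3 1 2 + χ 0 4 2)

theorem crit {B C : ℝ} (h : ∀ u v : ℝ, u ^ 2 + v ^ 2 = 1 → u * B + v * C ≤ B) : C = 0 := by
  by_contra hC
  have hpos : 0 < B ^ 2 + C ^ 2 := by positivity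
  set r := Real.sqrt (B ^ 2 + C ^ 2) with hr
  have hr0 : 0 < r := Real.sqrt_pos.mpr hpos
  have hr2 : r ^ 2 = B ^ 2 + C ^ 2 := Real.sq_sqrt hpos.le
  have h1 := h (B / r) (C / r) (by field_simp; linarith)
  have h2 : B / r * B + C / r * C = r := by field_simp; linarith
  rw [h2] at h1
  have h3 : r ^ 2 ≤ B ^ 2 := by nlinarith
  have h4 : 0 < C ^ 2 := by positivity
  linarith

theorem crit_plane {φ : Fin 6 → Fin 6 → Fin 6 → ℝ} (h : IsThreeForm φ) {c s : ℝ}
    {O : Fin 6 → Vec} (hO : IsFrame O)
    (hmax : ∀ O', IsFrame O' → obj c s (pull3 φ O') ≤ obj c s (pull3 φ O))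
    {p q : Fin 6} (hpq : p ≠ q) : obj c s (rho (pull3 φ O) p q) = 0 := by
  obtain ⟨B1, h1⟩ := giv_expand h O hpq (i := 0) (j := 1) (k := 2) (by decide) (by decide) (by decide)
  obtain ⟨B2, h2⟩ := giv_expand h O hpq (i := 0) (j := 4) (k := 5) (by decide) (by decide) (by decide)
  obtain ⟨B3, h3⟩ := giv_expand h O hpq (i := 3) (j := 1) (k := 5) (by decide) (by decide) (by decide)
  obtain ⟨B4, h4⟩ := giv_expand h O hpq (i := 3) (j := 4) (k := 5) (by decide) (by decide) (by decide)
  obtain ⟨B5, h5⟩ := giv_expand h O hpq (i := 3) (j := 1) (k := 2) (by decide) (by decide) (by decide)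
  obtain ⟨B6, h6⟩ := giv_expand h O hpq (i := 0) (j := 4) (k := 2) (by decide) (by decide) (by decide)
  apply crit (B := c * (4 * B1 + 2 * B2 + B3) + s * (4 * B4 + 2 * B5 + B6))
  intro u v huv
  have hm := hmax _ (giv_frame hO hpq huv)
  unfold obj at hm
  rw [h1 u v huv, h2 u v huv, h3 u v huv, h4 u v huv, h5 u v huv, h6 u v huv] at hm
  unfold obj
  linarith

theorem crit_angle {χ : Fin 6 → Fin 6 → Fin 6 → ℝ} {c s : ℝ} (hcs : c ^ 2 + s ^ 2 = 1)
    (hmax : ∀ c' s', c' ^ 2 + s' ^ 2 = 1 → obj c' s' χ ≤ obj c s χ) : obj (-s) c χ = 0 := by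
  apply crit (B := obj c s χ)
  intro u v huv
  have := hmax (u * c - v * s) (u * s + v * c) (by
    have : (u * c - v * s) ^ 2 + (u * s + v * c) ^ 2 = (u ^ 2 + v ^ 2) * (c ^ 2 + s ^ 2) := by ring
    rw [this, huv, hcs]; norm_num)
  unfold obj at this ⊢
  linarith

theorem exists_max (φ : Fin 6 → Fin 6 → Fin 6 → ℝ) :
    ∃ (c s : ℝ) (O : Fin 6 → Vec), c ^ 2 + s ^ 2 = 1 ∧ IsFrame O ∧
      ∀ c' s' O', c' ^ 2 + s' ^ 2 = 1 → IsFrame O' →
        obj c' s' (pull3 φ O') ≤ obj c s (pull3 φ O) := by
  let S : Set (ℝ × ℝ × (Fin 6 → Vec)) := {x | x.1 ^ 2 + x.2.1 ^ 2 = 1 ∧ IsFrame x.2.2}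
  have hcont : Continuous (fun x : ℝ × ℝ × (Fin 6 → Vec) => obj x.1 x.2.1 (pull3 φ x.2.2)) := by
    unfold obj pull3 ev3
    fun_prop
  have hclosed : IsClosed S := by
    have h1 : IsClosed {x : ℝ × ℝ × (Fin 6 → Vec) | x.1 ^ 2 + x.2.1 ^ 2 = 1} :=
      isClosed_eq (by fun_prop) continuous_const
    have h2 : IsClosed {x : ℝ × ℝ × (Fin 6 → Vec) | IsFrame x.2.2} := by
      have : {x : ℝ × ℝ × (Fin 6 → Vec) | IsFrame x.2.2}
          = ⋂ a, ⋂ b, {x | dot (x.2.2 a) (x.2.2 b) = if a = b then 1 else 0} := by
        ext x; simp [IsFrame]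
      rw [this]
      refine isClosed_iInter fun a => isClosed_iInter fun b => ?_
      refine isClosed_eq ?_ continuous_const
      unfold dot
      fun_prop
    exact h1.inter h2
  have hbdd : Bornology.IsBounded S := by
    rw [isBounded_iff_forall_norm_le]
    refine ⟨1, fun x hx => ?_⟩
    obtain ⟨hx1, hx2⟩ := hx
    rw [Prod.norm_def, Prod.norm_def]
    refine max_le ?_ (max_le ?_ ?_)
    · rw [Real.norm_eq_abs, abs_le_one_iff_mul_self_le_one]; nlinarith
    · rw [Real.norm_eq_abs, abs_le_one_iff_mul_self_le_one]; nlinarith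
    · rw [pi_norm_le_iff_of_nonneg zero_le_one]
      intro a
      rw [pi_norm_le_iff_of_nonneg zero_le_one]
      intro i
      rw [Real.norm_eq_abs, abs_le_one_iff_mul_self_le_one]
      have h := hx2 a a
      rw [if_pos rfl, dot] at h
      calc x.2.2 a i * x.2.2 a i ≤ ∑ i, x.2.2 a i * x.2.2 a i :=
            Finset.single_le_sum (f := fun i => x.2.2 a i * x.2.2 a i)
              (fun i _ => mul_self_nonneg _) (Finset.mem_univ i)
        _ = 1 := h
  have hcomp : IsCompact S := Metric.isCompact_of_isClosed_isBounded hclosed hbdd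
  have hne : S.Nonempty := by
    refine ⟨(1, 0, bas), by norm_num, fun a b => ?_⟩
    simp [dot, bas, Pi.single_apply, eq_comm]
  obtain ⟨x, hx, hmax⟩ := hcomp.exists_isMaxOn hne hcont.continuousOn
  refine ⟨x.1, x.2.1, x.2.2, hx.1, hx.2, fun c' s' O' h1 h2 => ?_⟩
  exact hmax (show (c', s', O') ∈ S from ⟨h1, h2⟩)

end Pool.HopfSix
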