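import Mathlib

set_option autoImplicit false
set_option linter.unusedSimpArgs false
set_option linter.unusedVariables false

namespace Pool.Agent.Lib.MP_4a593f_gt.ProductPinching

/-- Algebraic curvature tensors: four-linear, skew in the first two arguments, symmetric under
exchange of the two pairs, first Bianchi identity.  (Linearity in the first argument and the
symmetries give linearity in every argument.)  The sectional curvature of an orthonormal pair
`x, y` is `R x y x y`. -/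
structure IsCurvatureTensor {V : Type*} [AddCommGroup V] [Module ℝ V]
    (R : V → V → V → V → ℝ) : Prop where
  add_left : ∀ x x' y z w, R (x + x') y z w = R x y z w + R x' y z w
  smul_left : ∀ (t : ℝ) (x y z w : V), R (t • x) y z w = t * R x y z w
  skew : ∀ x y z w, R x y z w = -R y x z w
  pair : ∀ x y z w, R x y z w = R z w x y
  bianchi : ∀ x y z w, R x y z w + R y z x w + R z x y w = 0

/-- The Kulkarni-Nomizu product of two bilinear forms. -/
def kn {V : Type*} [AddCommGroup V] [Module ℝ V] (a b : LinearMap.BilinForm ℝ V)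
    (x y z w : V) : ℝ :=
  a x z * b y w + a y w * b x z - a x w * b y z - a y z * b x w

section eigen

theorem exists_eigen (B : EuclideanSpace ℝ (Fin 4) →ₗ[ℝ] EuclideanSpace ℝ (Fin 4) →ₗ[ℝ] ℝ)
    (hB : ∀ x y, B x y = B y x) :
    ∃ v : EuclideanSpace ℝ (Fin 4), ‖v‖ = 1 ∧ ∀ w, inner ℝ v w = 0 → B v w = 0 := by
  classical
  let S := Metric.sphere (0 : EuclideanSpace ℝ (Fin 4)) 1
  have hS : IsCompact S := isCompact_sphere _ _
  have hne : S.Nonempty := NormedSpace.sphere_nonempty.2 zero_le_one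
  let Q : EuclideanSpace ℝ (Fin 4) → ℝ := fun v => B v v
  have hQ : Continuous Q := by
    have h1 : Continuous (fun v : EuclideanSpace ℝ (Fin 4) => LinearMap.toContinuousLinearMap (B v)) := by
      have : (fun v : EuclideanSpace ℝ (Fin 4) => LinearMap.toContinuousLinearMap (B v))
          = ((LinearMap.toContinuousLinearMap : (EuclideanSpace ℝ (Fin 4) →ₗ[ℝ] ℝ) ≃ₗ[ℝ] _).toLinearMap ∘ₗ B) := rfl
      rw [this]
      exact LinearMap.continuous_of_finiteDimensional _
    exact h1.clm_apply continuous_id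
  obtain ⟨v, hv, hmax⟩ := hS.exists_isMaxOn hne hQ.continuousOn
  have hv1 : ‖v‖ = 1 := by simpa [S] using hv
  refine ⟨v, hv1, fun w hw => ?_⟩
  -- Q(v + t w) ≤ Q(v) (1 + t^2 |w|^2)
  have key : ∀ t : ℝ, 2 * t * B v w + t ^ 2 * B w w ≤ B v v * (t ^ 2 * ‖w‖ ^ 2) := by
    intro t
    have hn : ‖v + t • w‖ ^ 2 = 1 + t ^ 2 * ‖w‖ ^ 2 := by
      rw [norm_add_sq_real, inner_smul_right, hw, hv1, norm_smul, mul_pow, Real.norm_eq_abs,
        sq_abs]
      ring
    have hpos : 0 < ‖v + t • w‖ ^ 2 := by rw [hn]; positivity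
    have hpos' : 0 < ‖v + t • w‖ := by
      by_contra h
      have : ‖v + t • w‖ = 0 := le_antisymm (not_lt.1 h) (norm_nonneg _)
      rw [this] at hpos
      simp at hpos
    have hm := hmax (a := (‖v + t • w‖⁻¹) • (v + t • w)) (by
      simp only [S, mem_sphere_zero_iff_norm, norm_smul, norm_inv, norm_norm]
      exact inv_mul_cancel₀ hpos'.ne')
    simp only [Set.mem_ofPred_eq, Q, map_smul, LinearMap.smul_apply, smul_eq_mul] at hm
    have e1 : B (v + t • w) (v + t • w) = B v v + 2 * t * B v w + t ^ 2 * B w w := by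
      simp only [map_add, LinearMap.add_apply, map_smul, LinearMap.smul_apply, smul_eq_mul,
        hB w v]
      ring
    rw [e1] at hm
    have e2 : B v v + 2 * t * B v w + t ^ 2 * B w w ≤ B v v * ‖v + t • w‖ ^ 2 := by
      have h3 : ‖v + t • w‖⁻¹ * (‖v + t • w‖⁻¹ * (B v v + 2 * t * B v w + t ^ 2 * B w w))
          = (B v v + 2 * t * B v w + t ^ 2 * B w w) / ‖v + t • w‖ ^ 2 := by
        field_simp
      rw [h3, div_le_iff₀ hpos] at hm
      exact hm
    rw [hn] at e2
    linarith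
  by_contra hne0
  -- choose small t
  set β := B v w with hβ
  set γ := B v v * ‖w‖ ^ 2 - B w w with hγ
  have key2 : ∀ t : ℝ, 2 * t * β ≤ t ^ 2 * γ := by
    intro t
    have := key t
    rw [hγ]
    nlinarith
  have hγ0 : 0 < |γ| + 1 := by positivity
  have h5 := key2 (β / (|γ| + 1))
  have h6 : (β / (|γ| + 1)) ^ 2 * γ ≤ (β / (|γ| + 1)) ^ 2 * |γ| :=
    mul_le_mul_of_nonneg_left (le_abs_self _) (sq_nonneg _)
  have h7 : (β / (|γ| + 1)) ^ 2 * |γ| ≤ (β / (|γ| + 1)) ^ 2 * (|γ| + 1) :=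
    mul_le_mul_of_nonneg_left (by linarith) (sq_nonneg _)
  have h8 : (β / (|γ| + 1)) ^ 2 * (|γ| + 1) = β ^ 2 / (|γ| + 1) := by
    field_simp
  have h9 : 2 * (β / (|γ| + 1)) * β = 2 * (β ^ 2 / (|γ| + 1)) := by
    field_simp
  have h10 : 0 < β ^ 2 / (|γ| + 1) := by positivity
  linarith

end eigen

section frame

variable {V : Type*} [AddCommGroup V] [Module ℝ V]

/-- The rotated frame. -/
def rot (a b c d : ℝ) (e : Fin 4 → V) : Fin 4 → V :=
  ![a • e 0 - b • e 1 + c • e 2 - d • e 3,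
    b • e 0 + a • e 1 + d • e 2 + c • e 3,
    -(c • e 0) - d • e 1 + a • e 2 + b • e 3,
    d • e 0 - c • e 1 - b • e 2 + a • e 3]

theorem rot_zero (a b c d : ℝ) (e : Fin 4 → V) :
    rot a b c d e 0 = a • e 0 - b • e 1 + c • e 2 - d • e 3 := rfl
theorem rot_one (a b c d : ℝ) (e : Fin 4 → V) :
    rot a b c d e 1 = b • e 0 + a • e 1 + d • e 2 + c • e 3 := rfl
theorem rot_two (a b c d : ℝ) (e : Fin 4 → V) :
    rot a b c d e 2 = -(c • e 0) - d • e 1 + a • e 2 + b • e 3 := rfl
theorem rot_three (a b c d : ℝ) (e : Fin 4 → V) :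
    rot a b c d e 3 = d • e 0 - c • e 1 - b • e 2 + a • e 3 := rfl

end frame

section curvature

variable {V : Type*} [AddCommGroup V] [Module ℝ V]

theorem kn_curv (a b : LinearMap.BilinForm ℝ V) (ha : ∀ x y, a x y = a y x)
    (hb : ∀ x y, b x y = b y x) : IsCurvatureTensor (kn a b) where
  add_left x x' y z w := by simp [kn]; ring
  smul_left t x y z w := by simp [kn]; ring
  skew x y z w := by simp [kn]; ring
  pair x y z w := by
    simp only [kn]
    rw [ha z x, ha w y, ha z y, ha w x, hb z x, hb w y, hb z y, hb w x]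
    ring
  bianchi x y z w := by
    simp only [kn]
    rw [ha y x, ha z x, ha z y, hb y x, hb z x, hb z y]
    ring

variable {R S : V → V → V → V → ℝ}

theorem IsCurvatureTensor.sub' (hR : IsCurvatureTensor R) (hS : IsCurvatureTensor S) (t : ℝ) :
    IsCurvatureTensor (fun x y z w => R x y z w - t * S x y z w) where
  add_left x x' y z w := by simp only [hR.add_left, hS.add_left]; ring
  smul_left c x y z w := by simp only [hR.smul_left, hS.smul_left]; ring
  skew x y z w := by simp only [hR.skew x y z w, hS.skew x y z w]; ring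
  pair x y z w := by simp only [hR.pair x y z w, hS.pair x y z w]
  bianchi x y z w := by
    have h1 := hR.bianchi x y z w
    have h2 := hS.bianchi x y z w
    linear_combination h1 - t * h2

namespace IsCurvatureTensor

variable (hR : IsCurvatureTensor R)
include hR

theorem neg1 (x y z w : V) : R (-x) y z w = -R x y z w := by
  have h := hR.smul_left (-1) x y z w
  rw [neg_one_smul] at h
  linarith

theorem sub1 (x x' y z w : V) : R (x - x') y z w = R x y z w - R x' y z w := by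
  rw [sub_eq_add_neg, hR.add_left, hR.neg1]
  ring

theorem add2 (x y y' z w : V) : R x (y + y') z w = R x y z w + R x y' z w := by
  rw [hR.skew, hR.add_left, hR.skew x y, hR.skew x y']
  ring

theorem smul2 (t : ℝ) (x y z w : V) : R x (t • y) z w = t * R x y z w := by
  rw [hR.skew, hR.smul_left, hR.skew x y]
  ring

theorem neg2 (x y z w : V) : R x (-y) z w = -R x y z w := by
  rw [hR.skew, hR.neg1, hR.skew x y]

theorem sub2 (x y y' z w : V) : R x (y - y') z w = R x y z w - R x y' z w := by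
  rw [sub_eq_add_neg, hR.add2, hR.neg2]
  ring

theorem add3 (x y z z' w : V) : R x y (z + z') w = R x y z w + R x y z' w := by
  rw [hR.pair, hR.add_left, hR.pair z w, hR.pair z' w]

theorem smul3 (t : ℝ) (x y z w : V) : R x y (t • z) w = t * R x y z w := by
  rw [hR.pair, hR.smul_left, hR.pair z w]

theorem sub3 (x y z z' w : V) : R x y (z - z') w = R x y z w - R x y z' w := by
  rw [hR.pair, hR.sub1, hR.pair z w, hR.pair z' w]

theorem add4 (x y z w w' : V) : R x y z (w + w') = R x y z w + R x y z w' := by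
  rw [hR.pair, hR.add2, hR.pair z w, hR.pair z w']

theorem smul4 (t : ℝ) (x y z w : V) : R x y z (t • w) = t * R x y z w := by
  rw [hR.pair, hR.smul2, hR.pair z w]

theorem sub4 (x y z w w' : V) : R x y z (w - w') = R x y z w - R x y z w' := by
  rw [hR.pair, hR.sub2, hR.pair z w, hR.pair z w']

theorem self_zero (x z w : V) : R x x z w = 0 := by
  have := hR.skew x x z w
  linarith

theorem slot_a (a b c d : ℝ) (e : Fin 4 → V) (x y : V) :
    R (rot a b c d e 0) (rot a b c d e 2) x y - R (rot a b c d e 1) (rot a b c d e 3) x y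
      = (a ^ 2 + b ^ 2 + c ^ 2 + d ^ 2) * (R (e 0) (e 2) x y - R (e 1) (e 3) x y) := by
  rw [rot_zero, rot_one, rot_two, rot_three]
  simp only [hR.add_left, hR.sub1, hR.neg1, hR.smul_left, hR.add2, hR.sub2, hR.neg2, hR.smul2,
    hR.self_zero, hR.skew (e 1) (e 0), hR.skew (e 2) (e 0), hR.skew (e 3) (e 0),
    hR.skew (e 2) (e 1), hR.skew (e 3) (e 1), hR.skew (e 3) (e 2)]
  ring

theorem slot_b (a b c d : ℝ) (e : Fin 4 → V) (x y : V) :
    R (rot a b c d e 0) (rot a b c d e 3) x y + R (rot a b c d e 1) (rot a b c d e 2) x y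
      = (a ^ 2 + b ^ 2 + c ^ 2 + d ^ 2) * (R (e 0) (e 3) x y + R (e 1) (e 2) x y) := by
  rw [rot_zero, rot_one, rot_two, rot_three]
  simp only [hR.add_left, hR.sub1, hR.neg1, hR.smul_left, hR.add2, hR.sub2, hR.neg2, hR.smul2,
    hR.self_zero, hR.skew (e 1) (e 0), hR.skew (e 2) (e 0), hR.skew (e 3) (e 0),
    hR.skew (e 2) (e 1), hR.skew (e 3) (e 1), hR.skew (e 3) (e 2)]
  ring

theorem iso_eq (e : Fin 4 → V) :
    R (e 0) (e 2) (e 0) (e 2) + R (e 0) (e 3) (e 0) (e 3)
      + R (e 1) (e 2) (e 1) (e 2) + R (e 1) (e 3) (e 1) (e 3)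
      - 2 * R (e 0) (e 1) (e 2) (e 3)
    = (R (e 0) (e 2) (e 0) (e 2) - R (e 1) (e 3) (e 0) (e 2))
      - (R (e 0) (e 2) (e 1) (e 3) - R (e 1) (e 3) (e 1) (e 3))
      + (R (e 0) (e 3) (e 0) (e 3) + R (e 1) (e 2) (e 0) (e 3))
      + (R (e 0) (e 3) (e 1) (e 2) + R (e 1) (e 2) (e 1) (e 2)) := by
  have h1 := hR.bianchi (e 0) (e 1) (e 2) (e 3)
  have h2 := hR.skew (e 2) (e 0) (e 1) (e 3)
  have h3 := hR.pair (e 1) (e 3) (e 0) (e 2)
  have h4 := hR.pair (e 1) (e 2) (e 0) (e 3)
  linarith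

theorem iso_rot (a b c d : ℝ) (h1 : a ^ 2 + b ^ 2 + c ^ 2 + d ^ 2 = 1) (e f : Fin 4 → V)
    (hf : f = rot a b c d e) :
    R (f 0) (f 2) (f 0) (f 2) + R (f 0) (f 3) (f 0) (f 3)
      + R (f 1) (f 2) (f 1) (f 2) + R (f 1) (f 3) (f 1) (f 3)
      - 2 * R (f 0) (f 1) (f 2) (f 3)
    = R (e 0) (e 2) (e 0) (e 2) + R (e 0) (e 3) (e 0) (e 3)
      + R (e 1) (e 2) (e 1) (e 2) + R (e 1) (e 3) (e 1) (e 3)
      - 2 * R (e 0) (e 1) (e 2) (e 3) := by
  have ha : ∀ x y, R (f 0) (f 2) x y - R (f 1) (f 3) x y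
      = R (e 0) (e 2) x y - R (e 1) (e 3) x y := by
    intro x y
    rw [hf, hR.slot_a, h1, one_mul]
  have hb : ∀ x y, R (f 0) (f 3) x y + R (f 1) (f 2) x y
      = R (e 0) (e 3) x y + R (e 1) (e 2) x y := by
    intro x y
    rw [hf, hR.slot_b, h1, one_mul]
  rw [hR.iso_eq f, hR.iso_eq e, ha, ha, hb, hb]
  have k1 := ha (e 0) (e 2)
  have k2 := ha (e 1) (e 3)
  have k3 := hb (e 0) (e 3)
  have k4 := hb (e 1) (e 2)
  have p1 := hR.pair (e 0) (e 2) (f 0) (f 2)
  have p2 := hR.pair (e 0) (e 2) (f 1) (f 3)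
  have p3 := hR.pair (e 1) (e 3) (f 0) (f 2)
  have p4 := hR.pair (e 1) (e 3) (f 1) (f 3)
  have p5 := hR.pair (e 0) (e 3) (f 0) (f 3)
  have p6 := hR.pair (e 0) (e 3) (f 1) (f 2)
  have p7 := hR.pair (e 1) (e 2) (f 0) (f 3)
  have p8 := hR.pair (e 1) (e 2) (f 1) (f 2)
  have q1 := hR.pair (e 1) (e 3) (e 0) (e 2)
  have q2 := hR.pair (e 1) (e 2) (e 0) (e 3)
  linarith

theorem polar_a (u y w : V) :
    R u (y + w) u (y + w) - R u (y - w) u (y - w) = 4 * R u y u w := by
  simp only [hR.add2, hR.sub2, hR.add4, hR.sub4]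
  have := hR.pair u w u y
  linarith

theorem polar_b (x y z w : V) :
    6 * R x y z w = (R (x + z) y (x + z) w - R (x - z) y (x - z) w)
      + (R (x - w) y (x - w) z - R (x + w) y (x + w) z) := by
  simp only [hR.add_left, hR.sub1, hR.add3, hR.sub3]
  have h1 := hR.bianchi x y z w
  have h2 := hR.skew y z x w
  have h3 := hR.skew z x y w
  have h4 := hR.pair w y x z
  have h5 := hR.skew x z y w
  have h6 := hR.pair x z w y
  have h7 := hR.skew y w x z
  have h8 := hR.pair x z y w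
  have h9 := hR.skew w y x z
  have h10 := hR.pair x y w z
  have h11 := hR.skew w z x y
  have h12 := hR.pair x y z w
  have h13 := hR.pair y w x z
  linarith

end IsCurvatureTensor

end curvature

section berger

variable {V : Type*} [NormedAddCommGroup V] [InnerProductSpace ℝ V]

theorem rot_orthonormal (a b c d : ℝ) (h1 : a ^ 2 + b ^ 2 + c ^ 2 + d ^ 2 = 1) (e : Fin 4 → V)
    (he : Orthonormal ℝ e) : Orthonormal ℝ (rot a b c d e) := by
  have hin : ∀ i j, inner ℝ (e i) (e j) = if i = j then (1 : ℝ) else 0 :=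
    orthonormal_iff_ite.1 he
  have h00 := hin 0 0
  have h01 := hin 0 1
  have h02 := hin 0 2
  have h03 := hin 0 3
  have h10 := hin 1 0
  have h11 := hin 1 1
  have h12 := hin 1 2
  have h13 := hin 1 3
  have h20 := hin 2 0
  have h21 := hin 2 1
  have h22 := hin 2 2
  have h23 := hin 2 3
  have h30 := hin 3 0
  have h31 := hin 3 1
  have h32 := hin 3 2
  have h33 := hin 3 3
  rw [if_pos rfl] at h00 h11 h22 h33
  rw [if_neg (by decide)] at h01 h02 h03 h10 h12 h13 h20 h21 h23 h30 h31 h32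
  rw [orthonormal_iff_ite]
  intro i j
  fin_cases i <;> fin_cases j
  all_goals
    simp only [rot, Fin.zero_eta, Fin.mk_one, Fin.reduceFinMk, Matrix.cons_val,
      inner_add_left, inner_add_right, inner_sub_left, inner_sub_right, real_inner_smul_left,
      real_inner_smul_right, inner_neg_left, inner_neg_right, h00, h01, h02, h03, h10, h11, h12,
      h13, h20, h21, h22, h23, h30, h31, h32, h33, if_true]
  all_goals first
    | (rw [if_neg (by decide)]; ring)
    | linarith [h1]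


theorem berger {S : V → V → V → V → ℝ} (hS : IsCurvatureTensor S) (a b : ℝ)
    (hab : ∀ x y : V, ‖x‖ = 1 → ‖y‖ = 1 → inner ℝ x y = 0 → a ≤ S x y x y ∧ S x y x y ≤ b)
    (e : Fin 4 → V) (he : Orthonormal ℝ e) :
    |S (e 0) (e 1) (e 2) (e 3)| ≤ 2 / 3 * (b - a) := by
  have hin : ∀ i j, inner ℝ (e i) (e j) = if i = j then (1 : ℝ) else 0 :=
    orthonormal_iff_ite.1 he
  have h0 : (1 / √2 : ℝ) ^ 2 = 1 / 2 := by
    rw [div_pow, one_pow, Real.sq_sqrt (by norm_num)]
  set r : ℝ := 1 / √2 with hr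
  have unit : ∀ x : V, inner ℝ x x = (2 : ℝ) → ‖r • x‖ = 1 := by
    intro x hx
    have h1 : ‖r • x‖ ^ 2 = 1 := by
      rw [← real_inner_self_eq_norm_sq, real_inner_smul_left, real_inner_smul_right, hx]
      nlinarith
    nlinarith [norm_nonneg (r • x)]
  have key : ∀ u v : V, inner ℝ u u = (2 : ℝ) → inner ℝ v v = (2 : ℝ) → inner ℝ u v = (0 : ℝ) →
      4 * a ≤ S u v u v ∧ S u v u v ≤ 4 * b := by
    intro u v hu hv huv
    have h1 := hab (r • u) (r • v) (unit u hu) (unit v hv) (by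
      rw [real_inner_smul_left, real_inner_smul_right, huv]; ring)
    have h2 : S (r • u) (r • v) (r • u) (r • v) = 1 / 4 * S u v u v := by
      rw [hS.smul_left, hS.smul2, hS.smul3, hS.smul4]
      have : r * (r * (r * (r * S u v u v))) = (r ^ 2) ^ 2 * S u v u v := by ring
      rw [this, h0]
      ring
    rw [h2] at h1
    constructor <;> linarith [h1.1, h1.2]
  have t1 := hS.polar_b (e 0) (e 1) (e 2) (e 3)
  have t2 := hS.polar_a (e 0 + e 2) (e 1) (e 3)
  have t3 := hS.polar_a (e 0 - e 2) (e 1) (e 3)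
  have t4 := hS.polar_a (e 0 - e 3) (e 1) (e 2)
  have t5 := hS.polar_a (e 0 + e 3) (e 1) (e 2)
  have g : ∀ u v : V, inner ℝ u u = (2 : ℝ) ∧ inner ℝ v v = (2 : ℝ) ∧ inner ℝ u v = (0 : ℝ) →
      4 * a ≤ S u v u v ∧ S u v u v ≤ 4 * b := fun u v h => key u v h.1 h.2.1 h.2.2
  have k1 := g (e 0 + e 2) (e 1 + e 3) (by
    simp only [inner_add_left, inner_add_right, inner_sub_left, inner_sub_right, hin,
      Fin.isValue, Fin.reduceEq, if_true, if_false]
    norm_num)
  have k2 := g (e 0 + e 2) (e 1 - e 3) (by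
    simp only [inner_add_left, inner_add_right, inner_sub_left, inner_sub_right, hin,
      Fin.isValue, Fin.reduceEq, if_true, if_false]
    norm_num)
  have k3 := g (e 0 - e 2) (e 1 + e 3) (by
    simp only [inner_add_left, inner_add_right, inner_sub_left, inner_sub_right, hin,
      Fin.isValue, Fin.reduceEq, if_true, if_false]
    norm_num)
  have k4 := g (e 0 - e 2) (e 1 - e 3) (by
    simp only [inner_add_left, inner_add_right, inner_sub_left, inner_sub_right, hin,
      Fin.isValue, Fin.reduceEq, if_true, if_false]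
    norm_num)
  have k5 := g (e 0 - e 3) (e 1 + e 2) (by
    simp only [inner_add_left, inner_add_right, inner_sub_left, inner_sub_right, hin,
      Fin.isValue, Fin.reduceEq, if_true, if_false]
    norm_num)
  have k6 := g (e 0 - e 3) (e 1 - e 2) (by
    simp only [inner_add_left, inner_add_right, inner_sub_left, inner_sub_right, hin,
      Fin.isValue, Fin.reduceEq, if_true, if_false]
    norm_num)
  have k7 := g (e 0 + e 3) (e 1 + e 2) (by
    simp only [inner_add_left, inner_add_right, inner_sub_left, inner_sub_right, hin,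
      Fin.isValue, Fin.reduceEq, if_true, if_false]
    norm_num)
  have k8 := g (e 0 + e 3) (e 1 - e 2) (by
    simp only [inner_add_left, inner_add_right, inner_sub_left, inner_sub_right, hin,
      Fin.isValue, Fin.reduceEq, if_true, if_false]
    norm_num)
  rw [abs_le]
  constructor <;> linarith [k1.1, k1.2, k2.1, k2.2, k3.1, k3.2, k4.1, k4.2, k5.1, k5.2, k6.1,
    k6.2, k7.1, k7.2, k8.1, k8.2]

end berger


section criterion

variable {V : Type*} [NormedAddCommGroup V] [InnerProductSpace ℝ V]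

/-- Rotation of the last two vectors of a frame. -/
def spin (p q : ℝ) (f : Fin 4 → V) : Fin 4 → V :=
  ![f 0, f 1, p • f 2 + q • f 3, -(q • f 2) + p • f 3]

theorem spin_zero (p q : ℝ) (f : Fin 4 → V) : spin p q f 0 = f 0 := rfl
theorem spin_one (p q : ℝ) (f : Fin 4 → V) : spin p q f 1 = f 1 := rfl
theorem spin_two (p q : ℝ) (f : Fin 4 → V) : spin p q f 2 = p • f 2 + q • f 3 := rfl
theorem spin_three (p q : ℝ) (f : Fin 4 → V) : spin p q f 3 = -(q • f 2) + p • f 3 := rfl

theorem spin_orthonormal (p q : ℝ) (h1 : p ^ 2 + q ^ 2 = 1) (e : Fin 4 → V)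
    (he : Orthonormal ℝ e) : Orthonormal ℝ (spin p q e) := by
  have hin : ∀ i j, inner ℝ (e i) (e j) = if i = j then (1 : ℝ) else 0 :=
    orthonormal_iff_ite.1 he
  have h00 := hin 0 0
  have h01 := hin 0 1
  have h02 := hin 0 2
  have h03 := hin 0 3
  have h10 := hin 1 0
  have h11 := hin 1 1
  have h12 := hin 1 2
  have h13 := hin 1 3
  have h20 := hin 2 0
  have h21 := hin 2 1
  have h22 := hin 2 2
  have h23 := hin 2 3
  have h30 := hin 3 0
  have h31 := hin 3 1
  have h32 := hin 3 2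
  have h33 := hin 3 3
  rw [if_pos rfl] at h00 h11 h22 h33
  rw [if_neg (by decide)] at h01 h02 h03 h10 h12 h13 h20 h21 h23 h30 h31 h32
  rw [orthonormal_iff_ite]
  intro i j
  fin_cases i <;> fin_cases j
  all_goals
    simp only [spin, Fin.zero_eta, Fin.mk_one, Fin.reduceFinMk, Matrix.cons_val,
      inner_add_left, inner_add_right, inner_sub_left, inner_sub_right, real_inner_smul_left,
      real_inner_smul_right, inner_neg_left, inner_neg_right, h00, h01, h02, h03, h10, h11, h12,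
      h13, h20, h21, h22, h23, h30, h31, h32, h33, if_true]
  all_goals first
    | (rw [if_neg (by decide)]; ring)
    | rw [if_neg (by decide)]
    | linarith [h1]

variable {R : V → V → V → V → ℝ}

theorem iso_spin (hR : IsCurvatureTensor R) (p q : ℝ) (h1 : p ^ 2 + q ^ 2 = 1)
    (f E : Fin 4 → V) (hE : E = spin p q f) :
    R (E 0) (E 2) (E 0) (E 2) + R (E 0) (E 3) (E 0) (E 3)
      + R (E 1) (E 2) (E 1) (E 2) + R (E 1) (E 3) (E 1) (E 3)
      - 2 * R (E 0) (E 1) (E 2) (E 3)
    = R (f 0) (f 2) (f 0) (f 2) + R (f 0) (f 3) (f 0) (f 3)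
      + R (f 1) (f 2) (f 1) (f 2) + R (f 1) (f 3) (f 1) (f 3)
      - 2 * R (f 0) (f 1) (f 2) (f 3) := by
  subst hE
  rw [spin_zero, spin_one, spin_two, spin_three]
  simp only [hR.add2, hR.smul2, hR.neg2, hR.add3, hR.smul3, hR.add4, hR.smul4]
  have n3 : ∀ x y z w, R x y (-z) w = -R x y z w := fun x y z w => by
    rw [hR.pair, hR.neg1, hR.pair z w]
  have n4 : ∀ x y z w, R x y z (-w) = -R x y z w := fun x y z w => by
    rw [hR.pair, hR.neg2, hR.pair z w]
  simp only [n3, n4, hR.smul3, hR.smul4, hR.smul2]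
  have s3 : ∀ x y z, R x y z z = 0 := fun x y z => by
    rw [hR.pair, hR.self_zero]
  have t1 : R (f 0) (f 1) (f 3) (f 2) = -R (f 0) (f 1) (f 2) (f 3) := by
    rw [hR.pair, hR.skew, hR.pair (f 2) (f 3)]
  rw [s3, s3, t1]
  linear_combination (R (f 0) (f 2) (f 0) (f 2) + R (f 0) (f 3) (f 0) (f 3)
      + R (f 1) (f 2) (f 1) (f 2) + R (f 1) (f 3) (f 1) (f 3)
      - 2 * R (f 0) (f 1) (f 2) (f 3)) * h1

/-- The isotropic curvature is twice the sum of two sectional curvatures plus a mixed term. -/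
theorem iso_sec (hR : IsCurvatureTensor R) (E : Fin 4 → V) :
    2 * (R (E 0) (E 2) (E 0) (E 2) + R (E 0) (E 3) (E 0) (E 3)
      + R (E 1) (E 2) (E 1) (E 2) + R (E 1) (E 3) (E 1) (E 3)
      - 2 * R (E 0) (E 1) (E 2) (E 3))
    = R (E 0 - E 1) (E 2 + E 3) (E 0 - E 1) (E 2 + E 3)
      + R (E 0 + E 1) (E 2 - E 3) (E 0 + E 1) (E 2 - E 3)
      + 8 * R (E 0) (E 3) (E 1) (E 2) := by
  simp only [hR.add_left, hR.sub1, hR.add2, hR.sub2, hR.add3, hR.sub3, hR.add4, hR.sub4]
  have b1 := hR.bianchi (E 0) (E 1) (E 2) (E 3)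
  have b2 := hR.skew (E 2) (E 0) (E 1) (E 3)
  have p1 := hR.pair (E 1) (E 2) (E 0) (E 3)
  have p2 := hR.pair (E 1) (E 3) (E 0) (E 2)
  have p3 := hR.pair (E 1) (E 2) (E 0) (E 2)
  have p4 := hR.pair (E 1) (E 3) (E 0) (E 3)
  have p5 := hR.pair (E 0) (E 3) (E 0) (E 2)
  have p6 := hR.pair (E 1) (E 3) (E 1) (E 2)
  linarith


theorem frame_bound {T : V → V → V → V → ℝ} (hR : IsCurvatureTensor R)
    (hT : IsCurvatureTensor T)
    (h : LinearMap.BilinForm ℝ V) (hh : ∀ x y, h x y = h y x) (δ a b : ℝ)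
    (hab : ∀ x y : V, ‖x‖ = 1 → ‖y‖ = 1 → inner ℝ x y = 0 →
      a ≤ R x y x y - kn (innerₗ V) h x y x y - T x y x y ∧
      R x y x y - kn (innerₗ V) h x y x y - T x y x y ≤ b)
    (hsec : ∀ x y : V, ‖x‖ = 1 → ‖y‖ = 1 → inner ℝ x y = 0 → δ ≤ R x y x y)
    (E : Fin 4 → V) (hE : Orthonormal ℝ E) (hTE : T (E 0) (E 3) (E 1) (E 2) = 0) :
    4 * δ - 8 / 3 * (b - a) ≤ R (E 0) (E 2) (E 0) (E 2) + R (E 0) (E 3) (E 0) (E 3)
      + R (E 1) (E 2) (E 1) (E 2) + R (E 1) (E 3) (E 1) (E 3)
      - 2 * R (E 0) (E 1) (E 2) (E 3) := by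
  have hS1 : IsCurvatureTensor (fun x y z w => R x y z w - 1 * kn (innerₗ V) h x y z w) :=
    hR.sub' (kn_curv (innerₗ V) h (fun x y => by
      simp only [innerₗ_apply_apply]; exact real_inner_comm _ _) hh) 1
  have hS : IsCurvatureTensor (fun x y z w => (R x y z w - 1 * kn (innerₗ V) h x y z w)
      - 1 * T x y z w) := hS1.sub' hT 1
  have hin : ∀ i j, inner ℝ (E i) (E j) = if i = j then (1 : ℝ) else 0 :=
    orthonormal_iff_ite.1 hE
  have hE' : Orthonormal ℝ (E ∘ ![0, 3, 1, 2]) := hE.comp _ (by decide)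
  have hB := berger hS a b (fun x y hx hy hxy => by
    simp only [one_mul]
    exact hab x y hx hy hxy) (E ∘ ![0, 3, 1, 2]) hE'
  simp only [Function.comp_apply, Matrix.cons_val, one_mul, hTE, sub_zero] at hB
  have hg : kn (innerₗ V) h (E 0) (E 3) (E 1) (E 2) = 0 := by
    simp only [kn, innerₗ_apply_apply, hin]
    simp
  rw [hg, sub_zero] at hB
  have h0 : (1 / √2 : ℝ) ^ 2 = 1 / 2 := by
    rw [div_pow, one_pow, Real.sq_sqrt (by norm_num)]
  set r : ℝ := 1 / √2 with hr
  have unit : ∀ x : V, inner ℝ x x = (2 : ℝ) → ‖r • x‖ = 1 := by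
    intro x hx
    have h1 : ‖r • x‖ ^ 2 = 1 := by
      rw [← real_inner_self_eq_norm_sq, real_inner_smul_left, real_inner_smul_right, hx]
      nlinarith
    nlinarith [norm_nonneg (r • x)]
  have key : ∀ u v : V, inner ℝ u u = (2 : ℝ) ∧ inner ℝ v v = (2 : ℝ) ∧ inner ℝ u v = (0 : ℝ) →
      4 * δ ≤ R u v u v := by
    rintro u v ⟨hu, hv, huv⟩
    have h1 := hsec (r • u) (r • v) (unit u hu) (unit v hv) (by
      rw [real_inner_smul_left, real_inner_smul_right, huv]; ring)
    have h2 : R (r • u) (r • v) (r • u) (r • v) = 1 / 4 * R u v u v := by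
      rw [hR.smul_left, hR.smul2, hR.smul3, hR.smul4]
      have : r * (r * (r * (r * R u v u v))) = (r ^ 2) ^ 2 * R u v u v := by ring
      rw [this, h0]
      ring
    rw [h2] at h1
    linarith
  have k1 := key (E 0 - E 1) (E 2 + E 3) (by
    simp only [inner_add_left, inner_add_right, inner_sub_left, inner_sub_right, hin,
      Fin.isValue, Fin.reduceEq, if_true, if_false]
    norm_num)
  have k2 := key (E 0 + E 1) (E 2 - E 3) (by
    simp only [inner_add_left, inner_add_right, inner_sub_left, inner_sub_right, hin,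
      Fin.isValue, Fin.reduceEq, if_true, if_false]
    norm_num)
  have k3 := iso_sec hR E
  have k4 := (abs_le.1 hB).1
  linarith

/-- The criterion: on the span of the frame `T = T₁ + T₂`, where `n` is an eigenvector for `T₁`
and `c ⊥ n` is in the kernel of `T₂`. -/
theorem core {T T₁ T₂ : V → V → V → V → ℝ} (hR : IsCurvatureTensor R)
    (hT : IsCurvatureTensor T) (hT2 : IsCurvatureTensor T₂)
    (hTT : ∀ x y z w, T x y z w = T₁ x y z w + T₂ x y z w)
    (h : LinearMap.BilinForm ℝ V) (hh : ∀ x y, h x y = h y x) (δ a b : ℝ)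
    (hab : ∀ x y : V, ‖x‖ = 1 → ‖y‖ = 1 → inner ℝ x y = 0 →
      a ≤ R x y x y - kn (innerₗ V) h x y x y - T x y x y ∧
      R x y x y - kn (innerₗ V) h x y x y - T x y x y ≤ b)
    (hsec : ∀ x y : V, ‖x‖ = 1 → ‖y‖ = 1 → inner ℝ x y = 0 → δ ≤ R x y x y)
    (e : Fin 4 → V) (he : Orthonormal ℝ e) (n c : V)
    (hn : n ∈ Submodule.span ℝ (Set.range e)) (hn1 : ‖n‖ = 1)
    (hc : c ∈ Submodule.span ℝ (Set.range e)) (hc0 : c ≠ 0) (hnc : inner ℝ n c = 0)
    (h1 : ∀ x ∈ Submodule.span ℝ (Set.range e), ∀ y ∈ Submodule.span ℝ (Set.range e),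
      ∀ z ∈ Submodule.span ℝ (Set.range e), inner ℝ n x = 0 → inner ℝ n y = 0 →
      inner ℝ n z = 0 → T₁ n x y z = 0)
    (h2 : ∀ x y z : V, T₂ x y c z = 0) :
    4 * δ - 8 / 3 * (b - a) ≤ R (e 0) (e 2) (e 0) (e 2) + R (e 0) (e 3) (e 0) (e 3)
      + R (e 1) (e 2) (e 1) (e 2) + R (e 1) (e 3) (e 1) (e 3)
      - 2 * R (e 0) (e 1) (e 2) (e 3) := by
  obtain ⟨ν, hν⟩ := (Submodule.mem_span_range_iff_exists_fun ℝ).1 hn
  rw [Fin.sum_univ_four] at hν
  have hin : ∀ i j, inner ℝ (e i) (e j) = if i = j then (1 : ℝ) else 0 :=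
    orthonormal_iff_ite.1 he
  have hνn : ν 0 ^ 2 + (-ν 1) ^ 2 + ν 2 ^ 2 + (-ν 3) ^ 2 = 1 := by
    have : inner ℝ n n = (1 : ℝ) := by rw [real_inner_self_eq_norm_sq, hn1]; norm_num
    rw [← hν] at this
    simp only [inner_add_left, inner_add_right, real_inner_smul_left, real_inner_smul_right, hin,
      Fin.isValue, Fin.reduceEq, if_true, if_false] at this
    linarith
  set f := rot (ν 0) (-ν 1) (ν 2) (-ν 3) e with hf
  have hfo : Orthonormal ℝ f := rot_orthonormal _ _ _ _ hνn e he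
  have hf0 : f 0 = n := by
    rw [hf, rot_zero, ← hν]
    module
  obtain ⟨p, q, hpq, hpq0⟩ : ∃ p q : ℝ, p ^ 2 + q ^ 2 = 1 ∧
      -(q * inner ℝ (f 2) c) + p * inner ℝ (f 3) c = 0 := by
    by_cases hz : inner ℝ (f 2) c ^ 2 + inner ℝ (f 3) c ^ 2 = (0 : ℝ)
    · refine ⟨1, 0, by norm_num, ?_⟩
      have : inner ℝ (f 3) c = (0 : ℝ) := by
        nlinarith [sq_nonneg (inner ℝ (f 2) c : ℝ), sq_nonneg (inner ℝ (f 3) c : ℝ)]
      rw [this]
      ring
    · have hpos : (0 : ℝ) < inner ℝ (f 2) c ^ 2 + inner ℝ (f 3) c ^ 2 :=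
        lt_of_le_of_ne (by positivity) (Ne.symm hz)
      refine ⟨inner ℝ (f 2) c / √(inner ℝ (f 2) c ^ 2 + inner ℝ (f 3) c ^ 2),
        inner ℝ (f 3) c / √(inner ℝ (f 2) c ^ 2 + inner ℝ (f 3) c ^ 2), ?_, ?_⟩
      · rw [div_pow, div_pow, Real.sq_sqrt hpos.le, ← add_div, div_self hpos.ne']
      · ring
  set E := spin p q f with hEdef
  have hEo : Orthonormal ℝ E := spin_orthonormal p q hpq f hfo
  rw [← hR.iso_rot _ _ _ _ hνn e f hf, ← iso_spin hR p q hpq f E hEdef]
  have hE0 : E 0 = n := by rw [hEdef, spin_zero, hf0]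
  have hmem : ∀ i, e i ∈ Submodule.span ℝ (Set.range e) :=
    fun i => Submodule.subset_span ⟨i, rfl⟩
  have hfm : ∀ i, f i ∈ Submodule.span ℝ (Set.range e) := by
    intro i
    fin_cases i
    all_goals
      simp only [hf, rot, Fin.zero_eta, Fin.mk_one, Fin.reduceFinMk, Matrix.cons_val]
      first
        | exact Submodule.sub_mem _ (Submodule.add_mem _ (Submodule.sub_mem _
            (Submodule.smul_mem _ _ (hmem _)) (Submodule.smul_mem _ _ (hmem _)))
            (Submodule.smul_mem _ _ (hmem _))) (Submodule.smul_mem _ _ (hmem _))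
        | exact Submodule.add_mem _ (Submodule.add_mem _ (Submodule.add_mem _
            (Submodule.smul_mem _ _ (hmem _)) (Submodule.smul_mem _ _ (hmem _)))
            (Submodule.smul_mem _ _ (hmem _))) (Submodule.smul_mem _ _ (hmem _))
        | exact Submodule.add_mem _ (Submodule.add_mem _ (Submodule.sub_mem _
            (Submodule.neg_mem _ (Submodule.smul_mem _ _ (hmem _)))
            (Submodule.smul_mem _ _ (hmem _)))
            (Submodule.smul_mem _ _ (hmem _))) (Submodule.smul_mem _ _ (hmem _))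
        | exact Submodule.add_mem _ (Submodule.sub_mem _ (Submodule.sub_mem _
            (Submodule.smul_mem _ _ (hmem _)) (Submodule.smul_mem _ _ (hmem _)))
            (Submodule.smul_mem _ _ (hmem _))) (Submodule.smul_mem _ _ (hmem _))
  have hEm : ∀ i, E i ∈ Submodule.span ℝ (Set.range e) := by
    intro i
    fin_cases i
    all_goals
      simp only [hEdef, spin, Fin.zero_eta, Fin.mk_one, Fin.reduceFinMk, Matrix.cons_val]
      first
        | exact hfm _
        | exact Submodule.add_mem _ (Submodule.smul_mem _ _ (hfm _))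
            (Submodule.smul_mem _ _ (hfm _))
        | exact Submodule.add_mem _ (Submodule.neg_mem _ (Submodule.smul_mem _ _ (hfm _)))
            (Submodule.smul_mem _ _ (hfm _))
  have : FiniteDimensional ℝ (Submodule.span ℝ (Set.range e)) :=
    FiniteDimensional.span_of_finite ℝ (Set.finite_range e)
  have hspan : Submodule.span ℝ (Set.range E) = Submodule.span ℝ (Set.range e) := by
    apply Submodule.eq_of_le_of_finrank_eq
    · rw [Submodule.span_le]
      rintro _ ⟨i, rfl⟩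
      exact hEm i
    · rw [finrank_span_eq_card hEo.linearIndependent, finrank_span_eq_card he.linearIndependent]
  have hEin : ∀ i j, inner ℝ (E i) (E j) = if i = j then (1 : ℝ) else 0 :=
    orthonormal_iff_ite.1 hEo
  rw [← hspan] at hc
  obtain ⟨γ, hγ⟩ := (Submodule.mem_span_range_iff_exists_fun ℝ).1 hc
  rw [Fin.sum_univ_four] at hγ
  have hγ0 : γ 0 = 0 := by
    have h3 : inner ℝ (E 0) c = (0 : ℝ) := by rw [hE0]; exact hnc
    rw [← hγ] at h3
    simp only [inner_add_right, real_inner_smul_right, hEin,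
      Fin.isValue, Fin.reduceEq, if_true, if_false] at h3
    linarith
  have hγ3 : γ 3 = 0 := by
    have h3 : inner ℝ (E 3) c = (0 : ℝ) := by
      rw [hEdef, spin_three, inner_add_left, inner_neg_left, real_inner_smul_left,
        real_inner_smul_left]
      exact hpq0
    rw [← hγ] at h3
    simp only [inner_add_right, real_inner_smul_right, hEin,
      Fin.isValue, Fin.reduceEq, if_true, if_false] at h3
    linarith
  rw [hγ0, hγ3, zero_smul, zero_smul, zero_add, add_zero] at hγ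
  have hT2E : T₂ (E 0) (E 3) (E 1) (E 2) = 0 := by
    have s3 : ∀ x y z, T₂ x y z z = 0 := fun x y z => by
      rw [hT2.pair, hT2.self_zero]
    have t1 := h2 (E 0) (E 3) (E 2)
    rw [← hγ, hT2.add3, hT2.smul3, hT2.smul3, s3, mul_zero, add_zero] at t1
    have t2 := h2 (E 0) (E 3) (E 1)
    rw [← hγ, hT2.add3, hT2.smul3, hT2.smul3, s3, mul_zero, zero_add] at t2
    have t3 : T₂ (E 0) (E 3) (E 2) (E 1) = -T₂ (E 0) (E 3) (E 1) (E 2) := by
      rw [hT2.pair, hT2.skew, hT2.pair (E 1) (E 2)]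
    rw [t3] at t2
    rcases mul_eq_zero.1 t1 with t4 | t4
    · rcases mul_eq_zero.1 t2 with t5 | t5
      · exact absurd (by rw [← hγ, t4, t5]; simp) hc0
      · linarith
    · exact t4
  have hT1E : T₁ (E 0) (E 3) (E 1) (E 2) = 0 := by
    rw [hE0]
    refine h1 _ (hEm 3) _ (hEm 1) _ (hEm 2) ?_ ?_ ?_
    · rw [← hE0]; exact hEo.2 (by decide)
    · rw [← hE0]; exact hEo.2 (by decide)
    · rw [← hE0]; exact hEo.2 (by decide)
  exact frame_bound hR hT h hh δ a b hab hsec E hEo (by rw [hTT, hT1E, hT2E, add_zero])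

theorem exists_mem (e : Fin 4 → V) (he : Orthonormal ℝ e) {M : Type*} [AddCommGroup M]
    [Module ℝ M] [FiniteDimensional ℝ M] (hM : Module.finrank ℝ M ≤ 3) (L : V →ₗ[ℝ] M) :
    ∃ n ∈ Submodule.span ℝ (Set.range e), n ≠ 0 ∧ L n = 0 := by
  let Y : (Fin 4 → ℝ) →ₗ[ℝ] V := Fintype.linearCombination ℝ e
  have hk : LinearMap.ker (L ∘ₗ Y) ≠ ⊥ := LinearMap.ker_ne_bot_of_finrank_lt (by
    rw [Module.finrank_fin_fun]; omega)
  obtain ⟨x, hx, hx0⟩ := Submodule.exists_mem_ne_zero_of_ne_bot hk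
  refine ⟨Y x, ?_, ?_, ?_⟩
  · rw [Submodule.mem_span_range_iff_exists_fun]
    exact ⟨x, (Fintype.linearCombination_apply ℝ e x).symm⟩
  · intro h0
    apply hx0
    have := (Fintype.linearIndependent_iff.1 he.linearIndependent) x
      (by rw [← h0]; exact (Fintype.linearCombination_apply ℝ e x).symm)
    funext i
    exact this i
  · exact hx

theorem exists_unit (e : Fin 4 → V) (he : Orthonormal ℝ e) {M : Type*} [AddCommGroup M]
    [Module ℝ M] [FiniteDimensional ℝ M] (hM : Module.finrank ℝ M ≤ 3) (L : V →ₗ[ℝ] M) :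
    ∃ n ∈ Submodule.span ℝ (Set.range e), ‖n‖ = 1 ∧ L n = 0 := by
  obtain ⟨n, hn, hn0, hL⟩ := exists_mem e he hM L
  refine ⟨‖n‖⁻¹ • n, Submodule.smul_mem _ _ hn, ?_, ?_⟩
  · rw [norm_smul, norm_inv, norm_norm, inv_mul_cancel₀ (norm_ne_zero_iff.2 hn0)]
  · rw [map_smul, hL, smul_zero]

/-- a nonzero vector in the span, perpendicular to `n` and in the kernel of two linear forms -/
theorem exists_perp (e : Fin 4 → V) (he : Orthonormal ℝ e) (n : V) (α β : V →ₗ[ℝ] ℝ) :
    ∃ c ∈ Submodule.span ℝ (Set.range e), c ≠ 0 ∧ inner ℝ n c = 0 ∧ α c = 0 ∧ β c = 0 := by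
  obtain ⟨c, hc, hc0, hL⟩ := exists_mem e he (M := Fin 3 → ℝ) (by simp)
    (LinearMap.pi ![innerₗ V n, α, β])
  refine ⟨c, hc, hc0, ?_, ?_, ?_⟩
  · have := congrFun hL 0
    simpa using this
  · have := congrFun hL 1
    simpa using this
  · have := congrFun hL 2
    simpa using this


theorem exists_eig (e : Fin 4 → V) (he : Orthonormal ℝ e) (k : LinearMap.BilinForm ℝ V)
    (hk : ∀ x y, k x y = k y x) :
    ∃ n ∈ Submodule.span ℝ (Set.range e), ‖n‖ = 1 ∧
      ∀ x ∈ Submodule.span ℝ (Set.range e), inner ℝ n x = 0 → k n x = 0 := by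
  have hin : ∀ i j, inner ℝ (e i) (e j) = if i = j then (1 : ℝ) else 0 :=
    orthonormal_iff_ite.1 he
  let p : Fin 4 → (EuclideanSpace ℝ (Fin 4) →ₗ[ℝ] ℝ) := fun i =>
    (EuclideanSpace.proj i : EuclideanSpace ℝ (Fin 4) →L[ℝ] ℝ).toLinearMap
  let Y : EuclideanSpace ℝ (Fin 4) →ₗ[ℝ] V :=
    (p 0).smulRight (e 0) + (p 1).smulRight (e 1) + (p 2).smulRight (e 2) + (p 3).smulRight (e 3)
  have hY : ∀ v, Y v = v 0 • e 0 + v 1 • e 1 + v 2 • e 2 + v 3 • e 3 := fun v => rfl
  have hYi : ∀ v w, inner ℝ (Y v) (Y w) = inner ℝ v w := by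
    intro v w
    rw [hY, hY, PiLp.inner_apply, Fin.sum_univ_four]
    simp only [inner_add_left, inner_add_right, real_inner_smul_left, real_inner_smul_right, hin,
      Fin.isValue, Fin.reduceEq, if_true, if_false]
    simp
  let B : EuclideanSpace ℝ (Fin 4) →ₗ[ℝ] EuclideanSpace ℝ (Fin 4) →ₗ[ℝ] ℝ :=
    k.compl₁₂ Y Y
  have hB : ∀ v w, B v w = k (Y v) (Y w) := fun v w => rfl
  obtain ⟨v, hv, hw⟩ := exists_eigen B (fun x y => by rw [hB, hB, hk (Y x)])
  refine ⟨Y v, ?_, ?_, ?_⟩
  · rw [hY]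
    exact Submodule.add_mem _ (Submodule.add_mem _ (Submodule.add_mem _
      (Submodule.smul_mem _ _ (Submodule.subset_span ⟨0, rfl⟩))
      (Submodule.smul_mem _ _ (Submodule.subset_span ⟨1, rfl⟩)))
      (Submodule.smul_mem _ _ (Submodule.subset_span ⟨2, rfl⟩)))
      (Submodule.smul_mem _ _ (Submodule.subset_span ⟨3, rfl⟩))
  · have h1 : ‖Y v‖ ^ 2 = 1 := by
      rw [← real_inner_self_eq_norm_sq, hYi, real_inner_self_eq_norm_sq, hv]
      norm_num
    nlinarith [norm_nonneg (Y v)]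
  · intro x hx hnx
    obtain ⟨γ, hγ⟩ := (Submodule.mem_span_range_iff_exists_fun ℝ).1 hx
    have hx' : x = Y (WithLp.toLp 2 γ) := by
      rw [hY, ← hγ, Fin.sum_univ_four]
    rw [hx'] at hnx ⊢
    rw [hYi] at hnx
    exact hw _ hnx

end criterion

section models

variable {V : Type*} [NormedAddCommGroup V] [InnerProductSpace ℝ V]

/-- Curvature tensors of surface type: `κ ω ⊗ ω` with `ω = α ∧ β` (for instance the curvature of
`Σ² × ℝᵐ`). -/
def SurfaceType (Q : V → V → V → V → ℝ) : Prop :=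
  ∃ (κ : ℝ) (α β : V →ₗ[ℝ] ℝ), ∀ x y z w,
    Q x y z w = κ * ((α x * β y - α y * β x) * (α z * β w - α w * β z))

/-- Model I: `(ε/2) k ∧ k` plus a tensor of surface type. -/
def ModelI (T : V → V → V → V → ℝ) : Prop :=
  ∃ (k : LinearMap.BilinForm ℝ V) (ε : ℝ) (Q : V → V → V → V → ℝ),
    (∀ x y, k x y = k y x) ∧ SurfaceType Q ∧
    ∀ x y z w, T x y z w = ε / 2 * kn k k x y z w + Q x y z w

/-- Model II: a curvature tensor that vanishes as soon as one argument lies in a subspace of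
codimension at most three, plus a tensor of surface type. -/
def ModelII (T : V → V → V → V → ℝ) : Prop :=
  ∃ (N : Submodule ℝ V) (S Q : V → V → V → V → ℝ),
    Module.finrank ℝ (V ⧸ N) ≤ 3 ∧ IsCurvatureTensor S ∧ (∀ n ∈ N, ∀ y z w, S n y z w = 0) ∧
    SurfaceType Q ∧ ∀ x y z w, T x y z w = S x y z w + Q x y z w

/-- Model III: `S_A + S_B` for orthogonal subspaces `A`, `B` of codimension at most three, where
`S_A` vanishes as soon as one argument lies in `B`, and `S_B` as soon as one argument lies in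
`A`. -/
def ModelIII (T : V → V → V → V → ℝ) : Prop :=
  ∃ (A B : Submodule ℝ V) (SA SB : V → V → V → V → ℝ),
    (∀ x ∈ A, ∀ y ∈ B, inner ℝ x y = 0) ∧
    Module.finrank ℝ (V ⧸ A) ≤ 3 ∧ Module.finrank ℝ (V ⧸ B) ≤ 3 ∧
    IsCurvatureTensor SA ∧ IsCurvatureTensor SB ∧
    (∀ n ∈ B, ∀ y z w, SA n y z w = 0) ∧ (∀ n ∈ A, ∀ y z w, SB n y z w = 0) ∧
    ∀ x y z w, T x y z w = SA x y z w + SB x y z w

theorem SurfaceType.curv {Q : V → V → V → V → ℝ} (hQ : SurfaceType Q) :
    IsCurvatureTensor Q := by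
  obtain ⟨κ, α, β, h⟩ := hQ
  constructor
  · intro x x' y z w
    simp only [h, map_add]
    ring
  · intro t x y z w
    simp only [h, map_smul, smul_eq_mul]
    ring
  · intro x y z w
    simp only [h]
    ring
  · intro x y z w
    simp only [h]
    ring
  · intro x y z w
    simp only [h]
    ring

theorem IsCurvatureTensor.add' {R S : V → V → V → V → ℝ} (hR : IsCurvatureTensor R)
    (hS : IsCurvatureTensor S) (t : ℝ) :
    IsCurvatureTensor (fun x y z w => t * R x y z w + S x y z w) where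
  add_left x x' y z w := by simp only [hR.add_left, hS.add_left]; ring
  smul_left c x y z w := by simp only [hR.smul_left, hS.smul_left]; ring
  skew x y z w := by simp only [hR.skew x y z w, hS.skew x y z w]; ring
  pair x y z w := by simp only [hR.pair x y z w, hS.pair x y z w]
  bianchi x y z w := by
    have h1 := hR.bianchi x y z w
    have h2 := hS.bianchi x y z w
    linear_combination t * h1 + h2

end models

/-- **Main theorem.** Let `R` be an algebraic curvature tensor with sectional curvatures at least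
`δ`, `h` a symmetric bilinear form and `T` a model tensor of type I, II or III such that the
sectional curvatures of `R - g ∧ h - T` lie in `[a, b]`.  Then the isotropic curvatures of `R` are
at least `4 δ - (8/3) (b - a)`. -/
theorem result {V : Type*} [NormedAddCommGroup V] [InnerProductSpace ℝ V]
    [FiniteDimensional ℝ V]
    (R T : V → V → V → V → ℝ) (hR : IsCurvatureTensor R)
    (hT : ModelI T ∨ ModelII T ∨ ModelIII T)
    (h : LinearMap.BilinForm ℝ V) (hh : ∀ x y, h x y = h y x) (δ a b : ℝ)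
    (hab : ∀ x y : V, ‖x‖ = 1 → ‖y‖ = 1 → inner ℝ x y = 0 →
      a ≤ R x y x y - kn (innerₗ V) h x y x y - T x y x y ∧
      R x y x y - kn (innerₗ V) h x y x y - T x y x y ≤ b)
    (hsec : ∀ x y : V, ‖x‖ = 1 → ‖y‖ = 1 → inner ℝ x y = 0 → δ ≤ R x y x y)
    (e : Fin 4 → V) (he : Orthonormal ℝ e) :
    4 * δ - 8 / 3 * (b - a) ≤ R (e 0) (e 2) (e 0) (e 2) + R (e 0) (e 3) (e 0) (e 3)
      + R (e 1) (e 2) (e 1) (e 2) + R (e 1) (e 3) (e 1) (e 3)
      - 2 * R (e 0) (e 1) (e 2) (e 3) := by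
  rcases hT with hT | hT | hT
  · obtain ⟨k, ε, Q, hk, hQ, hTQ⟩ := hT
    have hTc : IsCurvatureTensor T := by
      have : T = fun x y z w => ε / 2 * kn k k x y z w + Q x y z w := by
        funext x y z w
        exact hTQ x y z w
      rw [this]
      exact (kn_curv k k hk hk).add' hQ.curv (ε / 2)
    obtain ⟨n, hn, hn1, hnk⟩ := exists_eig e he k hk
    have hQc := hQ.curv
    obtain ⟨κ, α, β, hQ'⟩ := hQ
    obtain ⟨c, hc, hc0, hnc, hα, hβ⟩ := exists_perp e he n α β
    refine core (T₁ := fun x y z w => ε / 2 * kn k k x y z w) (T₂ := Q) hR hTc hQc hTQ h hh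
      δ a b hab hsec e he n c hn hn1 hc hc0 hnc ?_ ?_
    · intro x hx y hy z hz hnx hny hnz
      simp only [kn]
      rw [hnk y hy hny, hnk z hz hnz]
      ring
    · intro x y z
      rw [hQ', hα, hβ]
      ring
  · obtain ⟨N, S, Q, hN, hS, hSN, hQ, hTQ⟩ := hT
    have hTc : IsCurvatureTensor T := by
      have : T = fun x y z w => 1 * S x y z w + Q x y z w := by
        funext x y z w
        rw [one_mul]
        exact hTQ x y z w
      rw [this]
      exact hS.add' hQ.curv 1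
    obtain ⟨n, hn, hn1, hnN⟩ := exists_unit e he hN N.mkQ
    have hnN' : n ∈ N := by simpa using hnN
    have hQc := hQ.curv
    obtain ⟨κ, α, β, hQ'⟩ := hQ
    obtain ⟨c, hc, hc0, hnc, hα, hβ⟩ := exists_perp e he n α β
    refine core (T₁ := S) (T₂ := Q) hR hTc hQc hTQ h hh
      δ a b hab hsec e he n c hn hn1 hc hc0 hnc ?_ ?_
    · intro x hx y hy z hz hnx hny hnz
      exact hSN n hnN' _ _ _
    · intro x y z
      rw [hQ', hα, hβ]
      ring
  · obtain ⟨A, B, SA, SB, hAB, hA, hB, hSA, hSB, hSAB, hSBA, hTQ⟩ := hT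
    have hTc : IsCurvatureTensor T := by
      have : T = fun x y z w => 1 * SA x y z w + SB x y z w := by
        funext x y z w
        rw [one_mul]
        exact hTQ x y z w
      rw [this]
      exact hSA.add' hSB 1
    obtain ⟨n, hn, hn1, hnB⟩ := exists_unit e he hB B.mkQ
    have hnB' : n ∈ B := by simpa using hnB
    obtain ⟨c, hc, hc0, hcA⟩ := exists_mem e he hA A.mkQ
    have hcA' : c ∈ A := by simpa using hcA
    refine core (T₁ := SA) (T₂ := SB) hR hTc hSB hTQ h hh
      δ a b hab hsec e he n c hn hn1 hc hc0 ?_ ?_ ?_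
    · rw [real_inner_comm]
      exact hAB c hcA' n hnB'
    · intro x hx y hy z hz hnx hny hnz
      exact hSAB n hnB' _ _ _
    · intro x y z
      rw [hSB.pair]
      exact hSBA c hcA' _ _ _

end Pool.Agent.Lib.MP_4a593f_gt.ProductPinching
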