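import Pool.Agent.Lib.MP_4a593f_gt.Final

/-!
Sharpness of the lower bound.
-/

namespace Pool.HopfSix

open Finset

set_option linter.unusedSimpArgs false

/-- the 2-form `e12 + e45` -/
def om (i j : Fin 6) : ℝ :=
  if i = 1 ∧ j = 2 then 1 else if i = 2 ∧ j = 1 then -1 else
  if i = 4 ∧ j = 5 then 1 else if i = 5 ∧ j = 4 then -1 else 0

theorem om_skew (i j : Fin 6) : om j i = - om i j := by
  fin_cases i <;> fin_cases j <;> simp [om]

/-- Kronecker delta -/
def kd (i j : Fin 6) : ℝ := if i = j then 1 else 0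

/-- the extremal curvature tensor -/
noncomputable def exR (δ Δ : ℝ) (i j k l : Fin 6) : ℝ :=
  δ * (kd i k * kd j l - kd i l * kd j k)
    + (Δ - δ) * (1 / 3 * (om i k * om j l - om i l * om j k + 2 * (om i j * om k l)))

/-- the extremal 3-form `e0 ∧ (e12 + e45)` -/
def exφ (i j k : Fin 6) : ℝ := kd 0 i * om j k + kd 0 j * om k i + kd 0 k * om i j

theorem exR_curv (δ Δ : ℝ) : IsCurvature (exR δ Δ) := by
  constructor
  · intro i j k l
    unfold exR
    rw [om_skew i j]; ring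
  · intro i j k l
    unfold exR
    rw [om_skew k l]; ring
  · intro i j k l
    have k1 : ∀ a b : Fin 6, kd a b = kd b a := by
      intro a b; unfold kd; simp [eq_comm]
    unfold exR
    rw [om_skew i k, om_skew i j, om_skew j k, k1 j i, k1 k j, k1 k i]
    ring

theorem exR_sec (δ Δ : ℝ) (u v : Vec) :
    ev4 (exR δ Δ) u v u v = δ * (dot u u * dot v v - dot u v ^ 2)
      + (Δ - δ) * (u 1 * v 2 - u 2 * v 1 + u 4 * v 5 - u 5 * v 4) ^ 2 := by
  unfold ev4 exR kd om dot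
  simp only [Fin.sum_univ_six, Fin.isValue, Fin.reduceEq, ↓reduceIte, and_true, and_false,
    true_and, false_and]
  ring

theorem wirtinger (u v : Vec) :
    (u 1 * v 2 - u 2 * v 1 + u 4 * v 5 - u 5 * v 4) ^ 2
      ≤ dot u u * dot v v - dot u v ^ 2 := by
  have e : dot u u * dot v v - dot u v ^ 2
      - (u 1 * v 2 - u 2 * v 1 + u 4 * v 5 - u 5 * v 4) ^ 2
      = ((u 1 * v 4 - u 4 * v 1) - (u 2 * v 5 - u 5 * v 2)) ^ 2
        + ((u 1 * v 5 - u 5 * v 1) + (u 2 * v 4 - u 4 * v 2)) ^ 2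
        + (u 0 * v 1 - u 1 * v 0) ^ 2 + (u 0 * v 2 - u 2 * v 0) ^ 2
        + (u 0 * v 3 - u 3 * v 0) ^ 2 + (u 0 * v 4 - u 4 * v 0) ^ 2
        + (u 0 * v 5 - u 5 * v 0) ^ 2 + (u 3 * v 1 - u 1 * v 3) ^ 2
        + (u 3 * v 2 - u 2 * v 3) ^ 2 + (u 3 * v 4 - u 4 * v 3) ^ 2
        + (u 3 * v 5 - u 5 * v 3) ^ 2 := by
    unfold dot
    simp only [Fin.sum_univ_six]
    ring
  have h : 0 ≤ dot u u * dot v v - dot u v ^ 2
      - (u 1 * v 2 - u 2 * v 1 + u 4 * v 5 - u 5 * v 4) ^ 2 := by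
    rw [e]; positivity
  linarith

theorem exR_ge {δ Δ : ℝ} (h : δ ≤ Δ) : SecGE (exR δ Δ) δ := by
  intro u v
  rw [exR_sec]
  have := mul_nonneg (sub_nonneg.mpr h)
    (sq_nonneg (u 1 * v 2 - u 2 * v 1 + u 4 * v 5 - u 5 * v 4))
  linarith

theorem exR_le {δ Δ : ℝ} (h : δ ≤ Δ) : SecLE (exR δ Δ) Δ := by
  intro u v
  rw [exR_sec]
  have := mul_le_mul_of_nonneg_left (wirtinger u v) (sub_nonneg.mpr h)
  linarith

theorem exφ_form : IsThreeForm exφ := by
  constructor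
  · intro i j k
    unfold exφ
    rw [om_skew i k, om_skew k j, om_skew i j]; ring
  · intro i j k
    unfold exφ
    rw [om_skew j k, om_skew i j, om_skew k i]; ring

theorem exφ_normal : IsNormal exφ 1 0 1 1 0 0 := by
  constructor
  · exact exφ_form
  all_goals simp [exφ, kd, om]

theorem exR_value (δ Δ : ℝ) :
    bochner (exR δ Δ) exφ = (3 * δ - 4 / 9 * (Δ - δ)) * ∑ i, ∑ j, ∑ k, exφ i j k ^ 2 := by
  rw [bochner_normal (exR_curv δ Δ) exφ_normal, norm_normal exφ_normal]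
  unfold qform K exR
  simp [kd, om]
  ring

end Pool.HopfSix
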