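import Pool.Agent.Lib.MP_4a593f_gt.Eval

/-!
The value of the curvature term on the normal form.
-/

namespace Pool.HopfSix

open Finset

set_option linter.unusedSimpArgs false

variable {R : Fin 6 → Fin 6 → Fin 6 → Fin 6 → ℝ} {χ : Fin 6 → Fin 6 → Fin 6 → ℝ}
  {c s x0 x1 x2 x3 : ℝ}

theorem IsCurvature.pair (h : IsCurvature R) (i j k l : Fin 6) : R k l i j = R i j k l := by
  have b1 := h.bianchi i j k l
  have b2 := h.bianchi j k l i
  have b3 := h.bianchi k l i j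
  have b4 := h.bianchi l i j k
  have a1 := h.skew34 j k i l
  have a2 := h.skew34 k l i j
  have a3 := h.skew12 j l k i
  have a4 := h.skew12 i l k j
  have a5 := h.skew34 i l j k
  have a6 := h.skew12 k i l j
  have a7 := h.skew34 k i j l
  have a8 := h.skew12 i l j k
  have a9 := h.skew34 i j k l
  have a10 := h.skew34 j l k i
  linarith

/-- contraction of a curvature tensor with a 2-form supported on four coordinate planes -/
theorem contr_two (hR : IsCurvature R) (ψ : Fin 6 → Fin 6 → ℝ) (a b : Fin 4 → Fin 6)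
    (w : Fin 4 → ℝ)
    (h : ∀ Y : Fin 6 → Fin 6 → ℝ, ∑ i, ∑ j, Y i j * ψ i j
      = ∑ t, (Y (a t) (b t) - Y (b t) (a t)) * w t) :
    ∑ i, ∑ j, ∑ k, ∑ l, R i j k l * ψ i j * ψ k l
      = 4 * ∑ t, ∑ t', R (a t) (b t) (a t') (b t') * w t * w t' := by
  have e1 : ∀ i j, (∑ k, ∑ l, R i j k l * ψ i j * ψ k l)
      = (∑ t', (R i j (a t') (b t') - R i j (b t') (a t')) * w t') * ψ i j := by
    intro i j
    rw [← h (fun k l => R i j k l), Finset.sum_mul]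
    refine Finset.sum_congr rfl fun k _ => ?_
    rw [Finset.sum_mul]
    exact Finset.sum_congr rfl fun l _ => by ring
  simp only [e1]
  rw [h (fun i j => ∑ t', (R i j (a t') (b t') - R i j (b t') (a t')) * w t'), Finset.mul_sum]
  refine Finset.sum_congr rfl fun t _ => ?_
  rw [← Finset.sum_sub_distrib, Finset.sum_mul, Finset.mul_sum]
  refine Finset.sum_congr rfl fun t' _ => ?_
  rw [hR.skew34 (a t) (b t) (a t') (b t'), hR.skew34 (b t) (a t) (a t') (b t'),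
    hR.skew12 (a t) (b t) (a t') (b t')]
  ring

theorem two0 (h : IsNormal χ c s x0 x1 x2 x3) (Y : Fin 6 → Fin 6 → ℝ) :
    ∑ i, ∑ j, Y i j * χ i j 0 = ∑ t : Fin 4,
      (Y (![1, 1, 2, 4] t) (![2, 5, 4, 5] t) - Y (![2, 5, 4, 5] t) (![1, 1, 2, 4] t))
        * ![c * x0, s * x3, s * x2, c * x1] t := by
  have hχ := h.form
  have s12 : ∀ i j k : Fin 6, j < i → χ i j k = - χ j i k := fun i j k _ => hχ.skew12 j i k
  have s23 : ∀ i j k : Fin 6, k < j → χ i j k = - χ i k j := fun i j k _ => hχ.skew23 i k j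
  have z12 := hχ.zero12
  have z23 := hχ.zero23
  simp (decide := true) only [Fin.sum_univ_six, Fin.sum_univ_four, Fin.isValue, Fin.reduceLT,
    s12, s23, z12, z23,
    h.h012, h.h345, h.h045, h.h123, h.h135, h.h024, h.h234, h.h015, h.z013, h.z014, h.z023,
    h.z025, h.z034, h.z035, h.z124, h.z125, h.z134, h.z145, h.z235, h.z245,
    Matrix.cons_val]
  ring

theorem two1 (h : IsNormal χ c s x0 x1 x2 x3) (Y : Fin 6 → Fin 6 → ℝ) :
    ∑ i, ∑ j, Y i j * χ i j 1 = ∑ t : Fin 4,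
      (Y (![0, 0, 2, 3] t) (![2, 5, 3, 5] t) - Y (![2, 5, 3, 5] t) (![0, 0, 2, 3] t))
        * ![-(c * x0), -(s * x3), s * x1, c * x2] t := by
  have hχ := h.form
  have s12 : ∀ i j k : Fin 6, j < i → χ i j k = - χ j i k := fun i j k _ => hχ.skew12 j i k
  have s23 : ∀ i j k : Fin 6, k < j → χ i j k = - χ i k j := fun i j k _ => hχ.skew23 i k j
  have z12 := hχ.zero12
  have z23 := hχ.zero23
  simp (decide := true) only [Fin.sum_univ_six, Fin.sum_univ_four, Fin.isValue, Fin.reduceLT,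
    s12, s23, z12, z23,
    h.h012, h.h345, h.h045, h.h123, h.h135, h.h024, h.h234, h.h015, h.z013, h.z014, h.z023,
    h.z025, h.z034, h.z035, h.z124, h.z125, h.z134, h.z145, h.z235, h.z245,
    Matrix.cons_val]
  ring

theorem two2 (h : IsNormal χ c s x0 x1 x2 x3) (Y : Fin 6 → Fin 6 → ℝ) :
    ∑ i, ∑ j, Y i j * χ i j 2 = ∑ t : Fin 4,
      (Y (![0, 0, 1, 3] t) (![1, 4, 3, 4] t) - Y (![1, 4, 3, 4] t) (![0, 0, 1, 3] t))
        * ![c * x0, -(s * x2), -(s * x1), c * x3] t := by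
  have hχ := h.form
  have s12 : ∀ i j k : Fin 6, j < i → χ i j k = - χ j i k := fun i j k _ => hχ.skew12 j i k
  have s23 : ∀ i j k : Fin 6, k < j → χ i j k = - χ i k j := fun i j k _ => hχ.skew23 i k j
  have z12 := hχ.zero12
  have z23 := hχ.zero23
  simp (decide := true) only [Fin.sum_univ_six, Fin.sum_univ_four, Fin.isValue, Fin.reduceLT,
    s12, s23, z12, z23,
    h.h012, h.h345, h.h045, h.h123, h.h135, h.h024, h.h234, h.h015, h.z013, h.z014, h.z023,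
    h.z025, h.z034, h.z035, h.z124, h.z125, h.z134, h.z145, h.z235, h.z245,
    Matrix.cons_val]
  ring

theorem two3 (h : IsNormal χ c s x0 x1 x2 x3) (Y : Fin 6 → Fin 6 → ℝ) :
    ∑ i, ∑ j, Y i j * χ i j 3 = ∑ t : Fin 4,
      (Y (![1, 1, 2, 4] t) (![2, 5, 4, 5] t) - Y (![2, 5, 4, 5] t) (![1, 1, 2, 4] t))
        * ![s * x1, -(c * x2), -(c * x3), s * x0] t := by
  have hχ := h.form
  have s12 : ∀ i j k : Fin 6, j < i → χ i j k = - χ j i k := fun i j k _ => hχ.skew12 j i k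
  have s23 : ∀ i j k : Fin 6, k < j → χ i j k = - χ i k j := fun i j k _ => hχ.skew23 i k j
  have z12 := hχ.zero12
  have z23 := hχ.zero23
  simp (decide := true) only [Fin.sum_univ_six, Fin.sum_univ_four, Fin.isValue, Fin.reduceLT,
    s12, s23, z12, z23,
    h.h012, h.h345, h.h045, h.h123, h.h135, h.h024, h.h234, h.h015, h.z013, h.z014, h.z023,
    h.z025, h.z034, h.z035, h.z124, h.z125, h.z134, h.z145, h.z235, h.z245,
    Matrix.cons_val]
  ring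

theorem two4 (h : IsNormal χ c s x0 x1 x2 x3) (Y : Fin 6 → Fin 6 → ℝ) :
    ∑ i, ∑ j, Y i j * χ i j 4 = ∑ t : Fin 4,
      (Y (![0, 0, 2, 3] t) (![2, 5, 3, 5] t) - Y (![2, 5, 3, 5] t) (![0, 0, 2, 3] t))
        * ![s * x2, -(c * x1), c * x3, -(s * x0)] t := by
  have hχ := h.form
  have s12 : ∀ i j k : Fin 6, j < i → χ i j k = - χ j i k := fun i j k _ => hχ.skew12 j i k
  have s23 : ∀ i j k : Fin 6, k < j → χ i j k = - χ i k j := fun i j k _ => hχ.skew23 i k j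
  have z12 := hχ.zero12
  have z23 := hχ.zero23
  simp (decide := true) only [Fin.sum_univ_six, Fin.sum_univ_four, Fin.isValue, Fin.reduceLT,
    s12, s23, z12, z23,
    h.h012, h.h345, h.h045, h.h123, h.h135, h.h024, h.h234, h.h015, h.z013, h.z014, h.z023,
    h.z025, h.z034, h.z035, h.z124, h.z125, h.z134, h.z145, h.z235, h.z245,
    Matrix.cons_val]
  ring

theorem two5 (h : IsNormal χ c s x0 x1 x2 x3) (Y : Fin 6 → Fin 6 → ℝ) :
    ∑ i, ∑ j, Y i j * χ i j 5 = ∑ t : Fin 4,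
      (Y (![0, 0, 1, 3] t) (![1, 4, 3, 4] t) - Y (![1, 4, 3, 4] t) (![0, 0, 1, 3] t))
        * ![s * x3, c * x1, c * x2, s * x0] t := by
  have hχ := h.form
  have s12 : ∀ i j k : Fin 6, j < i → χ i j k = - χ j i k := fun i j k _ => hχ.skew12 j i k
  have s23 : ∀ i j k : Fin 6, k < j → χ i j k = - χ i k j := fun i j k _ => hχ.skew23 i k j
  have z12 := hχ.zero12
  have z23 := hχ.zero23
  simp (decide := true) only [Fin.sum_univ_six, Fin.sum_univ_four, Fin.isValue, Fin.reduceLT,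
    s12, s23, z12, z23,
    h.h012, h.h345, h.h045, h.h123, h.h135, h.h024, h.h234, h.h015, h.z013, h.z014, h.z023,
    h.z025, h.z034, h.z035, h.z124, h.z125, h.z134, h.z145, h.z235, h.z245,
    Matrix.cons_val]
  ring

theorem sval0 (h : IsNormal χ c s x0 x1 x2 x3) (j : Fin 6) :
    ∑ k, ∑ l, χ 0 k l * χ j k l = 2 * (χ j 1 2 * (c * x0) + χ j 1 5 * (s * x3) + χ j 2 4 * (s * x2) + χ j 4 5 * (c * x1)) := by
  have hχ := h.form
  have e : (∑ k, ∑ l, χ 0 k l * χ j k l) = ∑ k, ∑ l, χ j k l * χ k l 0 := by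
    refine Finset.sum_congr rfl fun k _ => Finset.sum_congr rfl fun l _ => ?_
    rw [hχ.skew23 k 0 l, hχ.skew12 0 k l]; ring
  rw [e, two0 h (fun k l => χ j k l)]
  simp only [Fin.sum_univ_four, Matrix.cons_val]
  rw [hχ.skew23 j 1 2]
  rw [hχ.skew23 j 1 5]
  rw [hχ.skew23 j 2 4]
  rw [hχ.skew23 j 4 5]
  ring

theorem sval1 (h : IsNormal χ c s x0 x1 x2 x3) (j : Fin 6) :
    ∑ k, ∑ l, χ 1 k l * χ j k l = 2 * (χ j 0 2 * (-(c * x0)) + χ j 0 5 * (-(s * x3)) + χ j 2 3 * (s * x1) + χ j 3 5 * (c * x2)) := by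
  have hχ := h.form
  have e : (∑ k, ∑ l, χ 1 k l * χ j k l) = ∑ k, ∑ l, χ j k l * χ k l 1 := by
    refine Finset.sum_congr rfl fun k _ => Finset.sum_congr rfl fun l _ => ?_
    rw [hχ.skew23 k 1 l, hχ.skew12 1 k l]; ring
  rw [e, two1 h (fun k l => χ j k l)]
  simp only [Fin.sum_univ_four, Matrix.cons_val]
  rw [hχ.skew23 j 0 2]
  rw [hχ.skew23 j 0 5]
  rw [hχ.skew23 j 2 3]
  rw [hχ.skew23 j 3 5]
  ring

theorem sval2 (h : IsNormal χ c s x0 x1 x2 x3) (j : Fin 6) :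
    ∑ k, ∑ l, χ 2 k l * χ j k l = 2 * (χ j 0 1 * (c * x0) + χ j 0 4 * (-(s * x2)) + χ j 1 3 * (-(s * x1)) + χ j 3 4 * (c * x3)) := by
  have hχ := h.form
  have e : (∑ k, ∑ l, χ 2 k l * χ j k l) = ∑ k, ∑ l, χ j k l * χ k l 2 := by
    refine Finset.sum_congr rfl fun k _ => Finset.sum_congr rfl fun l _ => ?_
    rw [hχ.skew23 k 2 l, hχ.skew12 2 k l]; ring
  rw [e, two2 h (fun k l => χ j k l)]
  simp only [Fin.sum_univ_four, Matrix.cons_val]
  rw [hχ.skew23 j 0 1]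
  rw [hχ.skew23 j 0 4]
  rw [hχ.skew23 j 1 3]
  rw [hχ.skew23 j 3 4]
  ring

theorem sval3 (h : IsNormal χ c s x0 x1 x2 x3) (j : Fin 6) :
    ∑ k, ∑ l, χ 3 k l * χ j k l = 2 * (χ j 1 2 * (s * x1) + χ j 1 5 * (-(c * x2)) + χ j 2 4 * (-(c * x3)) + χ j 4 5 * (s * x0)) := by
  have hχ := h.form
  have e : (∑ k, ∑ l, χ 3 k l * χ j k l) = ∑ k, ∑ l, χ j k l * χ k l 3 := by
    refine Finset.sum_congr rfl fun k _ => Finset.sum_congr rfl fun l _ => ?_
    rw [hχ.skew23 k 3 l, hχ.skew12 3 k l]; ring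
  rw [e, two3 h (fun k l => χ j k l)]
  simp only [Fin.sum_univ_four, Matrix.cons_val]
  rw [hχ.skew23 j 1 2]
  rw [hχ.skew23 j 1 5]
  rw [hχ.skew23 j 2 4]
  rw [hχ.skew23 j 4 5]
  ring

theorem sval4 (h : IsNormal χ c s x0 x1 x2 x3) (j : Fin 6) :
    ∑ k, ∑ l, χ 4 k l * χ j k l = 2 * (χ j 0 2 * (s * x2) + χ j 0 5 * (-(c * x1)) + χ j 2 3 * (c * x3) + χ j 3 5 * (-(s * x0))) := by
  have hχ := h.form
  have e : (∑ k, ∑ l, χ 4 k l * χ j k l) = ∑ k, ∑ l, χ j k l * χ k l 4 := by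
    refine Finset.sum_congr rfl fun k _ => Finset.sum_congr rfl fun l _ => ?_
    rw [hχ.skew23 k 4 l, hχ.skew12 4 k l]; ring
  rw [e, two4 h (fun k l => χ j k l)]
  simp only [Fin.sum_univ_four, Matrix.cons_val]
  rw [hχ.skew23 j 0 2]
  rw [hχ.skew23 j 0 5]
  rw [hχ.skew23 j 2 3]
  rw [hχ.skew23 j 3 5]
  ring

theorem sval5 (h : IsNormal χ c s x0 x1 x2 x3) (j : Fin 6) :
    ∑ k, ∑ l, χ 5 k l * χ j k l = 2 * (χ j 0 1 * (s * x3) + χ j 0 4 * (c * x1) + χ j 1 3 * (c * x2) + χ j 3 4 * (s * x0)) := by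
  have hχ := h.form
  have e : (∑ k, ∑ l, χ 5 k l * χ j k l) = ∑ k, ∑ l, χ j k l * χ k l 5 := by
    refine Finset.sum_congr rfl fun k _ => Finset.sum_congr rfl fun l _ => ?_
    rw [hχ.skew23 k 5 l, hχ.skew12 5 k l]; ring
  rw [e, two5 h (fun k l => χ j k l)]
  simp only [Fin.sum_univ_four, Matrix.cons_val]
  rw [hχ.skew23 j 0 1]
  rw [hχ.skew23 j 0 4]
  rw [hχ.skew23 j 1 3]
  rw [hχ.skew23 j 3 4]
  ring

theorem cval0 (hR : IsCurvature R) (h : IsNormal χ c s x0 x1 x2 x3) :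
    ∑ i, ∑ j, ∑ k, ∑ l, R i j k l * χ i j 0 * χ k l 0 = 4 * (R 1 2 1 2 * (c * x0) * (c * x0)
      + R 1 2 1 5 * (c * x0) * (s * x3)
      + R 1 2 2 4 * (c * x0) * (s * x2)
      + R 1 2 4 5 * (c * x0) * (c * x1)
      + R 1 5 1 2 * (s * x3) * (c * x0)
      + R 1 5 1 5 * (s * x3) * (s * x3)
      + R 1 5 2 4 * (s * x3) * (s * x2)
      + R 1 5 4 5 * (s * x3) * (c * x1)
      + R 2 4 1 2 * (s * x2) * (c * x0)
      + R 2 4 1 5 * (s * x2) * (s * x3)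
      + R 2 4 2 4 * (s * x2) * (s * x2)
      + R 2 4 4 5 * (s * x2) * (c * x1)
      + R 4 5 1 2 * (c * x1) * (c * x0)
      + R 4 5 1 5 * (c * x1) * (s * x3)
      + R 4 5 2 4 * (c * x1) * (s * x2)
      + R 4 5 4 5 * (c * x1) * (c * x1)) := by
  rw [contr_two hR (fun i j => χ i j 0) _ _ _ (two0 h)]
  simp only [Fin.sum_univ_four, Matrix.cons_val]
  ring

theorem cval1 (hR : IsCurvature R) (h : IsNormal χ c s x0 x1 x2 x3) :
    ∑ i, ∑ j, ∑ k, ∑ l, R i j k l * χ i j 1 * χ k l 1 = 4 * (R 0 2 0 2 * (-(c * x0)) * (-(c * x0))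
      + R 0 2 0 5 * (-(c * x0)) * (-(s * x3))
      + R 0 2 2 3 * (-(c * x0)) * (s * x1)
      + R 0 2 3 5 * (-(c * x0)) * (c * x2)
      + R 0 5 0 2 * (-(s * x3)) * (-(c * x0))
      + R 0 5 0 5 * (-(s * x3)) * (-(s * x3))
      + R 0 5 2 3 * (-(s * x3)) * (s * x1)
      + R 0 5 3 5 * (-(s * x3)) * (c * x2)
      + R 2 3 0 2 * (s * x1) * (-(c * x0))
      + R 2 3 0 5 * (s * x1) * (-(s * x3))
      + R 2 3 2 3 * (s * x1) * (s * x1)
      + R 2 3 3 5 * (s * x1) * (c * x2)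
      + R 3 5 0 2 * (c * x2) * (-(c * x0))
      + R 3 5 0 5 * (c * x2) * (-(s * x3))
      + R 3 5 2 3 * (c * x2) * (s * x1)
      + R 3 5 3 5 * (c * x2) * (c * x2)) := by
  rw [contr_two hR (fun i j => χ i j 1) _ _ _ (two1 h)]
  simp only [Fin.sum_univ_four, Matrix.cons_val]
  ring

theorem cval2 (hR : IsCurvature R) (h : IsNormal χ c s x0 x1 x2 x3) :
    ∑ i, ∑ j, ∑ k, ∑ l, R i j k l * χ i j 2 * χ k l 2 = 4 * (R 0 1 0 1 * (c * x0) * (c * x0)
      + R 0 1 0 4 * (c * x0) * (-(s * x2))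
      + R 0 1 1 3 * (c * x0) * (-(s * x1))
      + R 0 1 3 4 * (c * x0) * (c * x3)
      + R 0 4 0 1 * (-(s * x2)) * (c * x0)
      + R 0 4 0 4 * (-(s * x2)) * (-(s * x2))
      + R 0 4 1 3 * (-(s * x2)) * (-(s * x1))
      + R 0 4 3 4 * (-(s * x2)) * (c * x3)
      + R 1 3 0 1 * (-(s * x1)) * (c * x0)
      + R 1 3 0 4 * (-(s * x1)) * (-(s * x2))
      + R 1 3 1 3 * (-(s * x1)) * (-(s * x1))
      + R 1 3 3 4 * (-(s * x1)) * (c * x3)
      + R 3 4 0 1 * (c * x3) * (c * x0)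
      + R 3 4 0 4 * (c * x3) * (-(s * x2))
      + R 3 4 1 3 * (c * x3) * (-(s * x1))
      + R 3 4 3 4 * (c * x3) * (c * x3)) := by
  rw [contr_two hR (fun i j => χ i j 2) _ _ _ (two2 h)]
  simp only [Fin.sum_univ_four, Matrix.cons_val]
  ring

theorem cval3 (hR : IsCurvature R) (h : IsNormal χ c s x0 x1 x2 x3) :
    ∑ i, ∑ j, ∑ k, ∑ l, R i j k l * χ i j 3 * χ k l 3 = 4 * (R 1 2 1 2 * (s * x1) * (s * x1)
      + R 1 2 1 5 * (s * x1) * (-(c * x2))
      + R 1 2 2 4 * (s * x1) * (-(c * x3))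
      + R 1 2 4 5 * (s * x1) * (s * x0)
      + R 1 5 1 2 * (-(c * x2)) * (s * x1)
      + R 1 5 1 5 * (-(c * x2)) * (-(c * x2))
      + R 1 5 2 4 * (-(c * x2)) * (-(c * x3))
      + R 1 5 4 5 * (-(c * x2)) * (s * x0)
      + R 2 4 1 2 * (-(c * x3)) * (s * x1)
      + R 2 4 1 5 * (-(c * x3)) * (-(c * x2))
      + R 2 4 2 4 * (-(c * x3)) * (-(c * x3))
      + R 2 4 4 5 * (-(c * x3)) * (s * x0)
      + R 4 5 1 2 * (s * x0) * (s * x1)
      + R 4 5 1 5 * (s * x0) * (-(c * x2))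
      + R 4 5 2 4 * (s * x0) * (-(c * x3))
      + R 4 5 4 5 * (s * x0) * (s * x0)) := by
  rw [contr_two hR (fun i j => χ i j 3) _ _ _ (two3 h)]
  simp only [Fin.sum_univ_four, Matrix.cons_val]
  ring

theorem cval4 (hR : IsCurvature R) (h : IsNormal χ c s x0 x1 x2 x3) :
    ∑ i, ∑ j, ∑ k, ∑ l, R i j k l * χ i j 4 * χ k l 4 = 4 * (R 0 2 0 2 * (s * x2) * (s * x2)
      + R 0 2 0 5 * (s * x2) * (-(c * x1))
      + R 0 2 2 3 * (s * x2) * (c * x3)
      + R 0 2 3 5 * (s * x2) * (-(s * x0))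
      + R 0 5 0 2 * (-(c * x1)) * (s * x2)
      + R 0 5 0 5 * (-(c * x1)) * (-(c * x1))
      + R 0 5 2 3 * (-(c * x1)) * (c * x3)
      + R 0 5 3 5 * (-(c * x1)) * (-(s * x0))
      + R 2 3 0 2 * (c * x3) * (s * x2)
      + R 2 3 0 5 * (c * x3) * (-(c * x1))
      + R 2 3 2 3 * (c * x3) * (c * x3)
      + R 2 3 3 5 * (c * x3) * (-(s * x0))
      + R 3 5 0 2 * (-(s * x0)) * (s * x2)
      + R 3 5 0 5 * (-(s * x0)) * (-(c * x1))
      + R 3 5 2 3 * (-(s * x0)) * (c * x3)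
      + R 3 5 3 5 * (-(s * x0)) * (-(s * x0))) := by
  rw [contr_two hR (fun i j => χ i j 4) _ _ _ (two4 h)]
  simp only [Fin.sum_univ_four, Matrix.cons_val]
  ring

theorem cval5 (hR : IsCurvature R) (h : IsNormal χ c s x0 x1 x2 x3) :
    ∑ i, ∑ j, ∑ k, ∑ l, R i j k l * χ i j 5 * χ k l 5 = 4 * (R 0 1 0 1 * (s * x3) * (s * x3)
      + R 0 1 0 4 * (s * x3) * (c * x1)
      + R 0 1 1 3 * (s * x3) * (c * x2)
      + R 0 1 3 4 * (s * x3) * (s * x0)
      + R 0 4 0 1 * (c * x1) * (s * x3)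
      + R 0 4 0 4 * (c * x1) * (c * x1)
      + R 0 4 1 3 * (c * x1) * (c * x2)
      + R 0 4 3 4 * (c * x1) * (s * x0)
      + R 1 3 0 1 * (c * x2) * (s * x3)
      + R 1 3 0 4 * (c * x2) * (c * x1)
      + R 1 3 1 3 * (c * x2) * (c * x2)
      + R 1 3 3 4 * (c * x2) * (s * x0)
      + R 3 4 0 1 * (s * x0) * (s * x3)
      + R 3 4 0 4 * (s * x0) * (c * x1)
      + R 3 4 1 3 * (s * x0) * (c * x2)
      + R 3 4 3 4 * (s * x0) * (s * x0)) := by
  rw [contr_two hR (fun i j => χ i j 5) _ _ _ (two5 h)]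
  simp only [Fin.sum_univ_four, Matrix.cons_val]
  ring

/-- sectional curvature of the coordinate plane `a, b` -/
def K (R : Fin 6 → Fin 6 → Fin 6 → Fin 6 → ℝ) (a b : Fin 6) : ℝ := R a b a b

/-- the value of half the curvature term on the normal form -/
def qform (R : Fin 6 → Fin 6 → Fin 6 → Fin 6 → ℝ) (x0 x1 x2 x3 : ℝ) : ℝ :=
  x0 ^ 2 * (K R 0 3 + K R 0 4 + K R 0 5 + K R 1 3 + K R 1 4 + K R 1 5 + K R 2 3 + K R 2 4 + K R 2 5)
  + x1 ^ 2 * (K R 0 1 + K R 0 2 + K R 0 3 + K R 1 4 + K R 2 4 + K R 3 4 + K R 1 5 + K R 2 5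
    + K R 3 5)
  + x2 ^ 2 * (K R 0 1 + K R 1 2 + K R 1 4 + K R 0 3 + K R 2 3 + K R 3 4 + K R 0 5 + K R 2 5
    + K R 4 5)
  + x3 ^ 2 * (K R 0 2 + K R 1 2 + K R 2 5 + K R 0 3 + K R 1 3 + K R 3 5 + K R 0 4 + K R 1 4
    + K R 4 5)
  - 4 * (x0 * x1) * R 1 2 4 5 + 4 * (x0 * x2) * R 0 2 3 5 - 4 * (x0 * x3) * R 0 1 3 4
  - 4 * (x1 * x2) * R 0 4 1 3 + 4 * (x1 * x3) * R 0 5 2 3 - 4 * (x2 * x3) * R 1 5 2 4

theorem bochner_normal (hR : IsCurvature R) (h : IsNormal χ c s x0 x1 x2 x3) :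
    bochner R χ = 2 * qform R x0 x1 x2 x3 := by
  have hχ := h.form
  have s12 : ∀ i j k : Fin 6, j < i → χ i j k = - χ j i k := fun i j k _ => hχ.skew12 j i k
  have s23 : ∀ i j k : Fin 6, k < j → χ i j k = - χ i k j := fun i j k _ => hχ.skew23 i k j
  have z12 := hχ.zero12
  have z23 := hχ.zero23
  have r12 : ∀ i j k l : Fin 6, j < i → R i j k l = - R j i k l :=
    fun i j k l _ => hR.skew12 j i k l
  have r34 : ∀ i j k l : Fin 6, l < k → R i j k l = - R i j l k :=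
    fun i j k l _ => hR.skew34 i j l k
  have rp : ∀ i j k l : Fin 6, k < i → R i j k l = R k l i j :=
    fun i j k l _ => hR.pair k l i j
  have rp' : ∀ i j l : Fin 6, l < j → R i j i l = R i l i j :=
    fun i j l _ => hR.pair i l i j
  have r0 : ∀ i k l : Fin 6, R i i k l = 0 := fun i k l => by
    have := hR.skew12 i i k l; linarith
  have r0' : ∀ i j k : Fin 6, R i j k k = 0 := fun i j k => by
    have := hR.skew34 i j k k; linarith
  have bi : ∀ a b c d : Fin 6, R a c b d = R a b c d + R a d b c := by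
    intro a b c d
    have b1 := hR.bianchi a b c d
    have b2 := hR.skew12 c a b d
    have b3 := hR.pair a d b c
    linarith
  have q0123 := bi 0 1 2 3
  have q0124 := bi 0 1 2 4
  have q0125 := bi 0 1 2 5
  have q0134 := bi 0 1 3 4
  have q0135 := bi 0 1 3 5
  have q0145 := bi 0 1 4 5
  have q0234 := bi 0 2 3 4
  have q0235 := bi 0 2 3 5
  have q0245 := bi 0 2 4 5
  have q0345 := bi 0 3 4 5
  have q1234 := bi 1 2 3 4
  have q1235 := bi 1 2 3 5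
  have q1245 := bi 1 2 4 5
  have q1345 := bi 1 3 4 5
  have q2345 := bi 2 3 4 5
  clear bi
  have goal : bochner R χ = (c ^ 2 + s ^ 2) * (2 * qform R x0 x1 x2 x3) := by
    unfold bochner ricci qform K
    rw [Fin.sum_univ_six (f := fun i => ∑ j, (∑ a, R i a j a) * ∑ k, ∑ l, χ i k l * χ j k l)]
    simp only [sval0 h, sval1 h, sval2 h, sval3 h, sval4 h, sval5 h]
    rw [Fin.sum_univ_six (f := fun m => ∑ i, ∑ j, ∑ k, ∑ l, R i j k l * χ i j m * χ k l m)]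
    rw [cval0 hR h, cval1 hR h, cval2 hR h, cval3 hR h, cval4 hR h, cval5 hR h]
    simp (decide := true) only [Fin.sum_univ_six, Fin.isValue, Fin.reduceLT,
      s12, s23, z12, z23,
      h.h012, h.h345, h.h045, h.h123, h.h135, h.h024, h.h234, h.h015, h.z013, h.z014, h.z023,
      h.z025, h.z034, h.z035, h.z124, h.z125, h.z134, h.z145, h.z235, h.z245,
      r12, r34, rp, rp', r0, r0', q0123, q0124, q0125, q0134, q0135, q0145, q0234, q0235, q0245, q0345, q1234, q1235, q1245, q1345, q2345]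
    ring
  rw [goal, h.unit, one_mul]

end Pool.HopfSix
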